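import Mathlib

/-!
Convex chains (cups and caps) in finite planar sets.
-/

set_option autoImplicit false

namespace Pool.Agent.Helper837.ChainExt

open Finset

def det2 (u v : ℝ × ℝ) : ℝ := u.1 * v.2 - u.2 * v.1

structure IsChain (σ : ℝ) (L : ℕ) (x : ℕ → ℝ × ℝ) : Prop where
  hσ : σ = 1 ∨ σ = -1
  inc : ∀ i, i + 1 < L → (x i).1 < (x (i + 1)).1
  turn : ∀ i, i + 2 < L → 0 < σ * det2 (x (i + 1) - x i) (x (i + 2) - x (i + 1))

/-- slope transitivity -/
lemma slope_trans {σ : ℝ} {a b c : ℝ × ℝ} (ha : 0 < a.1) (hb : 0 < b.1) (hc : 0 < c.1)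
    (h1 : 0 < σ * det2 a b) (h2 : 0 < σ * det2 b c) : 0 < σ * det2 a c := by
  have key : (σ * det2 a c) * b.1 = (σ * det2 a b) * c.1 + (σ * det2 b c) * a.1 := by
    unfold det2; ring
  have : 0 < (σ * det2 a c) * b.1 := by rw [key]; positivity
  exact (mul_pos_iff_of_pos_right hb).1 this

lemma IsChain.fst_lt {σ : ℝ} {L : ℕ} {x : ℕ → ℝ × ℝ} (h : IsChain σ L x) {i j : ℕ} (hij : i < j)
    (hj : j < L) : (x i).1 < (x j).1 := by
  induction j with
  | zero => omega
  | succ j ih =>
    rcases Nat.lt_or_ge i j with h1 | h1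
    · exact (ih h1 (by omega)).trans (h.inc j hj)
    · have : i = j := by omega
      subst this
      exact h.inc i hj

lemma IsChain.claimA {σ : ℝ} {L : ℕ} {x : ℕ → ℝ × ℝ} (h : IsChain σ L x) {i j : ℕ} (hij : i < j)
    (hj : j + 1 < L) : 0 < σ * det2 (x j - x i) (x (j + 1) - x j) := by
  induction j with
  | zero => omega
  | succ j ih =>
    rcases Nat.lt_or_ge i j with h1 | h1
    · have h2 := ih h1 (by omega)
      have h3 := h.turn j hj
      have a1 : 0 < (x j - x i).1 := by simpa using h.fst_lt h1 (by omega)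
      have a2 : 0 < (x (j + 1) - x j).1 := by simpa using h.fst_lt (Nat.lt_succ_self j) (by omega)
      have a3 : 0 < (x (j + 2) - x (j + 1)).1 := by
        simpa using h.fst_lt (Nat.lt_succ_self (j + 1)) (by omega)
      have h4 := slope_trans a1 a2 a3 h2 h3
      have : σ * det2 (x (j + 1) - x i) (x (j + 1 + 1) - x (j + 1))
          = σ * det2 (x j - x i) (x (j + 2) - x (j + 1))
            + σ * det2 (x (j + 1) - x j) (x (j + 2) - x (j + 1)) := by
        unfold det2; simp only [Prod.fst_sub, Prod.snd_sub]; ring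
      rw [this]; positivity
    · have : i = j := by omega
      subst this
      exact h.turn i hj

lemma IsChain.claimB {σ : ℝ} {L : ℕ} {x : ℕ → ℝ × ℝ} (h : IsChain σ L x) {i j k : ℕ} (hij : i < j)
    (hjk : j ≤ k) (hk : k + 1 < L) : 0 < σ * det2 (x j - x i) (x (k + 1) - x k) := by
  induction k, hjk using Nat.le_induction with
  | base => exact h.claimA hij hk
  | succ k hjk ih =>
    have h1 := ih (by omega)
    have h2 := h.turn k hk
    have a1 : 0 < (x j - x i).1 := by simpa using h.fst_lt hij (by omega)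
    have a2 : 0 < (x (k + 1) - x k).1 := by simpa using h.fst_lt (Nat.lt_succ_self k) (by omega)
    have a3 : 0 < (x (k + 2) - x (k + 1)).1 := by
      simpa using h.fst_lt (Nat.lt_succ_self (k + 1)) (by omega)
    exact slope_trans a1 a2 a3 h1 h2

lemma IsChain.T3 {σ : ℝ} {L : ℕ} {x : ℕ → ℝ × ℝ} (h : IsChain σ L x) {i j k : ℕ} (hij : i < j)
    (hjk : j < k) (hk : k < L) : 0 < σ * det2 (x j - x i) (x k - x j) := by
  induction k with
  | zero => omega
  | succ k ih =>
    have h1 := h.claimB (i := i) (j := j) (k := k) hij (by omega) hk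
    rcases Nat.lt_or_ge j k with h2 | h2
    · have h3 := ih h2 (by omega)
      have : σ * det2 (x j - x i) (x (k + 1) - x j)
          = σ * det2 (x j - x i) (x k - x j) + σ * det2 (x j - x i) (x (k + 1) - x k) := by
        unfold det2; simp only [Prod.fst_sub, Prod.snd_sub]; ring
      rw [this]; positivity
    · have : j = k := by omega
      subst this
      exact h1

/-- signed side of `z` with respect to the `i`-th edge; positive on the inner side. -/
def sd (σ : ℝ) (x : ℕ → ℝ × ℝ) (i : ℕ) (z : ℝ × ℝ) : ℝ := σ * det2 (x (i + 1) - x i) (z - x i)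

lemma sd_left (σ : ℝ) (x : ℕ → ℝ × ℝ) (i : ℕ) : sd σ x i (x i) = 0 := by
  unfold sd det2; simp

lemma sd_right (σ : ℝ) (x : ℕ → ℝ × ℝ) (i : ℕ) : sd σ x i (x (i + 1)) = 0 := by
  unfold sd det2; ring_nf

lemma IsChain.sd_pos {σ : ℝ} {L : ℕ} {x : ℕ → ℝ × ℝ} (h : IsChain σ L x) {i j : ℕ}
    (hi : i + 1 < L) (hj : j < L) (h1 : j ≠ i) (h2 : j ≠ i + 1) : 0 < sd σ x i (x j) := by
  rcases Nat.lt_or_ge j i with h3 | h3
  · have := h.T3 (i := j) (j := i) (k := i + 1) h3 (Nat.lt_succ_self i) hi
    have e : sd σ x i (x j) = σ * det2 (x i - x j) (x (i + 1) - x i) := by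
      unfold sd det2; simp only [Prod.fst_sub, Prod.snd_sub]; ring
    rw [e]; exact this
  · have := h.T3 (i := i) (j := i + 1) (k := j) (Nat.lt_succ_self i) (by omega) hj
    have e : sd σ x i (x j) = σ * det2 (x (i + 1) - x i) (x j - x (i + 1)) := by
      unfold sd det2; simp only [Prod.fst_sub, Prod.snd_sub]; ring
    rw [e]; exact this

/-- `{i : sd i z ≤ 0}` is order convex -/
lemma IsChain.sd_conv {σ : ℝ} {L : ℕ} {x : ℕ → ℝ × ℝ} (h : IsChain σ L x) (z : ℝ × ℝ) {i j k : ℕ}
    (hij : i < j) (hjk : j < k) (hk : k + 1 < L) (hi : sd σ x i z ≤ 0) (hk' : sd σ x k z ≤ 0) :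
    sd σ x j z ≤ 0 := by
  have ai : 0 < (x (i + 1) - x i).1 := by simpa using h.fst_lt (Nat.lt_succ_self i) (by omega)
  have aj : 0 < (x (j + 1) - x j).1 := by simpa using h.fst_lt (Nat.lt_succ_self j) (by omega)
  have ak : 0 < (x (k + 1) - x k).1 := by simpa using h.fst_lt (Nat.lt_succ_self k) (by omega)
  rcases le_total (x j).1 z.1 with hz | hz
  · -- use i
    have d1 : 0 ≤ σ * det2 (x (i + 1) - x i) (x j - x i) := by
      rcases Nat.lt_or_ge (i + 1) j with h1 | h1
      · have := h.sd_pos (i := i) (j := j) (by omega) (by omega) (by omega) (by omega)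
        exact this.le
      · have : j = i + 1 := by omega
        subst this
        exact (sd_right σ x i).ge
    have d2 : 0 < σ * det2 (x (i + 1) - x i) (x (j + 1) - x j) := by
      have := h.claimB (i := i) (j := i + 1) (k := j) (Nat.lt_succ_self i) (by omega) (by omega)
      exact this
    have key : sd σ x i z * (x (j + 1) - x j).1 =
        (σ * det2 (x (i + 1) - x i) (x j - x i)) * (x (j + 1) - x j).1
        + (σ * det2 (x (i + 1) - x i) (x (j + 1) - x j)) * (z.1 - (x j).1)
        + sd σ x j z * (x (i + 1) - x i).1 := by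
      unfold sd det2; simp only [Prod.fst_sub, Prod.snd_sub]; ring
    have h1 : sd σ x i z * (x (j + 1) - x j).1 ≤ 0 := mul_nonpos_of_nonpos_of_nonneg hi aj.le
    have h2 : 0 ≤ (σ * det2 (x (i + 1) - x i) (x j - x i)) * (x (j + 1) - x j).1 :=
      mul_nonneg d1 aj.le
    have h3 : 0 ≤ (σ * det2 (x (i + 1) - x i) (x (j + 1) - x j)) * (z.1 - (x j).1) :=
      mul_nonneg d2.le (by linarith)
    have h4 : sd σ x j z * (x (i + 1) - x i).1 ≤ 0 := by linarith
    by_contra hcon
    push Not at hcon
    have := mul_pos hcon ai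
    linarith
  · -- use k
    have hz' : z.1 ≤ (x (j + 1)).1 := by
      have : (x j).1 < (x (j + 1)).1 := by simpa using aj
      linarith
    have d1 : 0 ≤ σ * det2 (x k - x (j + 1)) (x (k + 1) - x k) := by
      rcases Nat.lt_or_ge (j + 1) k with h1 | h1
      · exact (h.claimA (i := j + 1) (j := k) h1 hk).le
      · have : k = j + 1 := by omega
        subst this
        unfold det2; simp
    have d2 : 0 < σ * det2 (x (j + 1) - x j) (x (k + 1) - x k) := by
      have := h.claimB (i := j) (j := j + 1) (k := k) (Nat.lt_succ_self j) (by omega) (by omega)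
      exact this
    have key : sd σ x k z * (x (j + 1) - x j).1 =
        (σ * det2 (x k - x (j + 1)) (x (k + 1) - x k)) * (x (j + 1) - x j).1
        + (σ * det2 (x (j + 1) - x j) (x (k + 1) - x k)) * ((x (j + 1)).1 - z.1)
        + sd σ x j z * (x (k + 1) - x k).1 := by
      unfold sd det2; simp only [Prod.fst_sub, Prod.snd_sub]; ring
    have h1 : sd σ x k z * (x (j + 1) - x j).1 ≤ 0 := mul_nonpos_of_nonpos_of_nonneg hk' aj.le
    have h2 : 0 ≤ (σ * det2 (x k - x (j + 1)) (x (k + 1) - x k)) * (x (j + 1) - x j).1 :=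
      mul_nonneg d1 aj.le
    have h3 : 0 ≤ (σ * det2 (x (j + 1) - x j) (x (k + 1) - x k)) * ((x (j + 1)).1 - z.1) :=
      mul_nonneg d2.le (by linarith)
    have h4 : sd σ x j z * (x (k + 1) - x k).1 ≤ 0 := by linarith
    by_contra hcon
    push Not at hcon
    have := mul_pos hcon ak
    linarith

/-- number of changes of a predicate whose support is order convex -/
lemma changes_le {n : ℕ} (p : ℕ → Prop) [DecidablePred p]
    (h : ∀ i j k, i < j → j < k → k < n → p i → p k → p j) :
    ((range (n - 1)).filter (fun i => ¬ (p i ↔ p (i + 1)))).card ≤ 2 := by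
  have h1 : ((range (n - 1)).filter (fun i => p i ∧ ¬ p (i + 1))).card ≤ 1 := by
    rw [card_le_one]
    intro a ha b hb
    simp only [mem_filter, mem_range] at ha hb
    rcases lt_trichotomy a b with hab | hab | hab
    · exfalso
      rcases Nat.lt_or_ge (a + 1) b with h2 | h2
      · exact ha.2.2 (h a (a + 1) b (by omega) h2 (by omega) ha.2.1 hb.2.1)
      · have : b = a + 1 := by omega
        exact ha.2.2 (this ▸ hb.2.1)
    · exact hab
    · exfalso
      rcases Nat.lt_or_ge (b + 1) a with h2 | h2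
      · exact hb.2.2 (h b (b + 1) a (by omega) h2 (by omega) hb.2.1 ha.2.1)
      · have : a = b + 1 := by omega
        exact hb.2.2 (this ▸ ha.2.1)
  have h2 : ((range (n - 1)).filter (fun i => ¬ p i ∧ p (i + 1))).card ≤ 1 := by
    rw [card_le_one]
    intro a ha b hb
    simp only [mem_filter, mem_range] at ha hb
    rcases lt_trichotomy a b with hab | hab | hab
    · exfalso
      rcases Nat.lt_or_ge (a + 1) b with h2 | h2
      · exact hb.2.1 (h (a + 1) b (b + 1) h2 (by omega) (by omega) ha.2.2 hb.2.2)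
      · have : b = a + 1 := by omega
        exact hb.2.1 (this ▸ ha.2.2)
    · exact hab
    · exfalso
      rcases Nat.lt_or_ge (b + 1) a with h2 | h2
      · exact ha.2.1 (h (b + 1) a (a + 1) h2 (by omega) (by omega) hb.2.2 ha.2.2)
      · have : a = b + 1 := by omega
        exact ha.2.1 (this ▸ hb.2.2)
  have hsub : (range (n - 1)).filter (fun i => ¬ (p i ↔ p (i + 1))) ⊆
      (range (n - 1)).filter (fun i => p i ∧ ¬ p (i + 1)) ∪
      (range (n - 1)).filter (fun i => ¬ p i ∧ p (i + 1)) := by
    intro i hi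
    simp only [mem_union, mem_filter] at hi ⊢
    tauto
  calc _ ≤ _ := card_le_card hsub
    _ ≤ _ := card_union_le _ _
    _ ≤ 2 := by omega

lemma changes_le' {n : ℕ} (p : ℕ → Prop) [DecidablePred p]
    (h : ∀ i j k, i < j → j < k → k < n → ¬ p i → ¬ p k → ¬ p j) :
    ((range (n - 1)).filter (fun i => ¬ (p i ↔ p (i + 1)))).card ≤ 2 := by
  have := changes_le (n := n) (fun i => ¬ p i) h
  refine le_trans (card_le_card ?_) this
  intro i hi
  simp only [mem_filter] at hi ⊢
  tauto

/-- the side of a fixed point changes at most twice -/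
lemma IsChain.changes_pt {σ : ℝ} {L : ℕ} {x : ℕ → ℝ × ℝ} (h : IsChain σ L x) (z : ℝ × ℝ) :
    ((range (L - 2)).filter (fun i => ¬ (0 < sd σ x i z ↔ 0 < sd σ x (i + 1) z))).card ≤ 2 := by
  classical
  have := changes_le' (n := L - 1) (fun i => 0 < sd σ x i z) (by
    intro i j k hij hjk hk hi hk'
    rw [not_lt] at *
    exact h.sd_conv z hij hjk (by omega) hi hk')
  simpa [Nat.sub_sub] using this

/-- a line crosses a chain at most twice -/
lemma IsChain.changes_line {σ : ℝ} {L : ℕ} {x : ℕ → ℝ × ℝ} (h : IsChain σ L x) (α β γ : ℝ) :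
    ((range (L - 1)).filter (fun i => ¬ (γ < α * (x i).1 + β * (x i).2 ↔
      γ < α * (x (i + 1)).1 + β * (x (i + 1)).2))).card ≤ 2 := by
  classical
  have key : ∀ i j k, i < j → j < k → k < L →
      ((x k).1 - (x i).1) * (α * (x j).1 + β * (x j).2)
        = ((x k).1 - (x j).1) * (α * (x i).1 + β * (x i).2)
          + ((x j).1 - (x i).1) * (α * (x k).1 + β * (x k).2)
          - β * det2 (x j - x i) (x k - x j) := by
    intro i j k _ _ _
    unfold det2; simp only [Prod.fst_sub, Prod.snd_sub]; ring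
  rcases le_total 0 (σ * β) with hb | hb
  · refine changes_le' (n := L) _ ?_
    intro i j k hij hjk hk hi hk'
    rw [not_lt] at *
    have h1 := key i j k hij hjk hk
    have hT := h.T3 hij hjk hk
    have a1 := h.fst_lt hij (by omega)
    have a2 := h.fst_lt hjk hk
    have hβ : 0 ≤ β * det2 (x j - x i) (x k - x j) := by
      rcases h.hσ with hs | hs
      · rw [hs] at hb hT; rw [one_mul] at hb hT; exact mul_nonneg hb hT.le
      · rw [hs] at hb hT
        nlinarith
    have h2 : ((x k).1 - (x j).1) * (α * (x i).1 + β * (x i).2) ≤ ((x k).1 - (x j).1) * γ :=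
      mul_le_mul_of_nonneg_left hi (by linarith)
    have h3 : ((x j).1 - (x i).1) * (α * (x k).1 + β * (x k).2) ≤ ((x j).1 - (x i).1) * γ :=
      mul_le_mul_of_nonneg_left hk' (by linarith)
    have h4 : ((x k).1 - (x i).1) * (α * (x j).1 + β * (x j).2) ≤ ((x k).1 - (x i).1) * γ := by
      rw [h1]; nlinarith
    exact le_of_mul_le_mul_left h4 (by linarith)
  · refine changes_le (n := L) _ ?_
    intro i j k hij hjk hk hi hk'
    have h1 := key i j k hij hjk hk
    have hT := h.T3 hij hjk hk
    have a1 := h.fst_lt hij (by omega)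
    have a2 := h.fst_lt hjk hk
    have hβ : β * det2 (x j - x i) (x k - x j) ≤ 0 := by
      rcases h.hσ with hs | hs
      · rw [hs] at hb hT; rw [one_mul] at hb hT; exact mul_nonpos_of_nonpos_of_nonneg hb hT.le
      · rw [hs] at hb hT
        nlinarith
    have h2 : ((x k).1 - (x j).1) * γ < ((x k).1 - (x j).1) * (α * (x i).1 + β * (x i).2) :=
      mul_lt_mul_of_pos_left hi (by linarith)
    have h3 : ((x j).1 - (x i).1) * γ < ((x j).1 - (x i).1) * (α * (x k).1 + β * (x k).2) :=
      mul_lt_mul_of_pos_left hk' (by linarith)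
    have h4 : ((x k).1 - (x i).1) * γ < ((x k).1 - (x i).1) * (α * (x j).1 + β * (x j).2) := by
      rw [h1]; nlinarith
    exact lt_of_mul_lt_mul_left h4 (by linarith)

end Pool.Agent.Helper837.ChainExt
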