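import Mathlib
import Pool.Agent.Helper837.ChainExt

/-!
Every large planar set in general position contains a long convex chain; greedy decomposition.
-/

set_option autoImplicit false

namespace Pool.Agent.Helper837.ChainExt

open Finset

/-- there is a chain with `n + 2` points in `S` ending with `p, q` -/
def CC (S : Finset (ℝ × ℝ)) (σ : ℝ) : ℕ → ℝ × ℝ → ℝ × ℝ → Prop
  | 0, p, q => p ∈ S ∧ q ∈ S ∧ p.1 < q.1
  | n + 1, q, r => r ∈ S ∧ q.1 < r.1 ∧ ∃ p, CC S σ n p q ∧ 0 < σ * det2 (q - p) (r - q)

lemma CC_chain {S : Finset (ℝ × ℝ)} {σ : ℝ} (hσ : σ = 1 ∨ σ = -1) :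
    ∀ (n : ℕ) (p q : ℝ × ℝ), CC S σ n p q → ∃ x : ℕ → ℝ × ℝ, IsChain σ (n + 2) x ∧
      x n = p ∧ x (n + 1) = q ∧ ∀ i < n + 2, x i ∈ S := by
  intro n
  induction n with
  | zero =>
    rintro p q ⟨hp, hq, hpq⟩
    refine ⟨fun i => if i = 0 then p else q, ⟨hσ, ?_, ?_⟩, by simp, by simp, ?_⟩
    · intro i hi
      have : i = 0 := by omega
      subst this
      simpa using hpq
    · intro i hi; omega
    · intro i hi
      by_cases h : i = 0
      · simpa [h] using hp
      · simpa [h] using hq
  | succ n ih =>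
    rintro q r ⟨hr, hqr, p, hp, hdet⟩
    obtain ⟨x, hx, hxp, hxq, hxS⟩ := ih p q hp
    refine ⟨fun i => if i < n + 2 then x i else r, ⟨hσ, ?_, ?_⟩, ?_, ?_, ?_⟩
    · intro i hi
      rcases Nat.lt_or_ge (i + 1) (n + 2) with h | h
      · have h2 : i < n + 2 := by omega
        simp only [h, h2, if_true]
        exact hx.inc i h
      · have h2 : i = n + 1 := by omega
        subst h2
        simp [hxq, hqr]
    · intro i hi
      rcases Nat.lt_or_ge (i + 2) (n + 2) with h | h
      · have h2 : i < n + 2 := by omega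
        have h3 : i + 1 < n + 2 := by omega
        simp only [h, h2, h3, if_true]
        exact hx.turn i h
      · have h2 : i = n := by omega
        subst h2
        simp [hxq, hxp, hdet]
    · simp [hxq]
    · simp
    · intro i hi
      by_cases h : i < n + 2
      · simp only [h, if_true]; exact hxS i h
      · simp only [h, if_false]; exact hr

/-- general position in the form needed here -/
def GP (S : Finset (ℝ × ℝ)) : Prop :=
  (∀ p ∈ S, ∀ q ∈ S, p ≠ q → p.1 ≠ q.1) ∧
  (∀ p ∈ S, ∀ q ∈ S, ∀ r ∈ S, p ≠ q → p ≠ r → q ≠ r → det2 (q - p) (r - p) ≠ 0)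

lemma GP.mono {S T : Finset (ℝ × ℝ)} (h : GP S) (hT : T ⊆ S) : GP T :=
  ⟨fun p hp q hq => h.1 p (hT hp) q (hT hq),
   fun p hp q hq r hr => h.2 p (hT hp) q (hT hq) r (hT hr)⟩

lemma es {S : Finset (ℝ × ℝ)} (hS : GP S) (l : ℕ)
    (h1 : ∀ p q, ¬ CC S 1 l p q) (h2 : ∀ p q, ¬ CC S (-1) l p q) : S.card ≤ 2 ^ (l * l) := by
  classical
  set lab : ℝ → ℝ × ℝ → ℝ × ℝ → ℕ := fun σ p q => Nat.findGreatest (fun n => CC S σ n p q) l
    with hlab
  have hspec : ∀ σ, ∀ p ∈ S, ∀ q ∈ S, p.1 < q.1 → CC S σ (lab σ p q) p q := by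
    intro σ p hp q hq hpq
    have : CC S σ 0 p q := ⟨hp, hq, hpq⟩
    exact Nat.findGreatest_spec (P := fun n => CC S σ n p q) (Nat.zero_le l) this
  have hlt : ∀ σ, (∀ p q, ¬ CC S σ l p q) → ∀ p ∈ S, ∀ q ∈ S, p.1 < q.1 → lab σ p q < l := by
    intro σ hσ p hp q hq hpq
    have h := hspec σ p hp q hq hpq
    have h' : lab σ p q ≤ l := Nat.findGreatest_le l
    rcases Nat.lt_or_ge (lab σ p q) l with h3 | h3
    · exact h3
    · have : lab σ p q = l := le_antisymm h' h3
      rw [this] at h
      exact absurd h (hσ p q)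
  set f : ℝ × ℝ → Finset (ℕ × ℕ) := fun q =>
    (S.filter (fun p => p.1 < q.1)).image (fun p => (lab 1 p q, lab (-1) p q)) with hf
  have hmaps : ∀ q ∈ S, f q ∈ (range l ×ˢ range l).powerset := by
    intro q hq
    rw [mem_powerset]
    intro a ha
    simp only [hf, mem_image, mem_filter] at ha
    obtain ⟨p, ⟨hp, hpq⟩, rfl⟩ := ha
    simp only [mem_product, mem_range]
    exact ⟨hlt 1 h1 p hp q hq hpq, hlt (-1) h2 p hp q hq hpq⟩
  have hne : ∀ q ∈ S, ∀ r ∈ S, q.1 < r.1 → f q ≠ f r := by
    intro q hq r hr hqr heq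
    have hmem : (lab 1 q r, lab (-1) q r) ∈ f r :=
      mem_image.2 ⟨q, mem_filter.2 ⟨hq, hqr⟩, rfl⟩
    rw [← heq] at hmem
    obtain ⟨p, hp, hpe⟩ := mem_image.1 hmem
    obtain ⟨hpS, hpq⟩ := mem_filter.1 hp
    have e1 : lab 1 p q = lab 1 q r := (Prod.ext_iff.1 hpe).1
    have e2 : lab (-1) p q = lab (-1) q r := (Prod.ext_iff.1 hpe).2
    have hd : det2 (q - p) (r - q) ≠ 0 := by
      have hpq' : p ≠ q := fun h => by rw [h] at hpq; exact lt_irrefl _ hpq
      have hpr' : p ≠ r := fun h => by rw [h] at hpq; linarith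
      have hqr' : q ≠ r := fun h => by rw [h] at hqr; exact lt_irrefl _ hqr
      have := hS.2 p hpS q hq r hr hpq' hpr' hqr'
      intro h
      apply this
      have e : det2 (q - p) (r - p) = det2 (q - p) (r - q) := by
        unfold det2; simp only [Prod.fst_sub, Prod.snd_sub]; ring
      rw [e, h]
    have step : ∀ σ, 0 < σ * det2 (q - p) (r - q) → (∀ p q, ¬ CC S σ l p q) →
        lab σ p q = lab σ q r → False := by
      intro σ hσd hσ he
      have h3 := hspec σ p hpS q hq hpq
      have h4 : CC S σ (lab σ p q + 1) q r := ⟨hr, hqr, p, h3, hσd⟩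
      have h5 : lab σ p q + 1 ≤ l := by
        have := hlt σ hσ p hpS q hq hpq
        omega
      have h6 : lab σ p q + 1 ≤ lab σ q r :=
        Nat.le_findGreatest (P := fun n => CC S σ n q r) h5 h4
      omega
    rcases lt_or_gt_of_ne hd with h | h
    · exact step (-1) (by linarith) h2 e2
    · exact step 1 (by linarith) h1 e1
  have hinj : Set.InjOn f (S : Set (ℝ × ℝ)) := by
    intro q hq r hr heq
    by_contra hqr
    have := hS.1 q hq r hr hqr
    rcases lt_or_gt_of_ne this with h | h
    · exact hne q hq r hr h heq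
    · exact hne r hr q hq h heq.symm
  calc S.card ≤ ((range l ×ˢ range l).powerset).card :=
        card_le_card_of_injOn f (fun q hq => hmaps q hq) hinj
    _ = 2 ^ (l * l) := by simp

lemma exists_chain {S : Finset (ℝ × ℝ)} (hS : GP S) (l : ℕ) (hc : 2 ^ (l * l) < S.card) :
    ∃ σ x, IsChain σ (l + 2) x ∧ ∀ i < l + 2, x i ∈ S := by
  by_contra hcon
  push Not at hcon
  have key : ∀ σ : ℝ, σ = 1 ∨ σ = -1 → ∀ p q, ¬ CC S σ l p q := by
    intro σ hσ p q h
    obtain ⟨x, hx, _, _, hxS⟩ := CC_chain hσ l p q h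
    obtain ⟨i, hi, hi'⟩ := hcon σ x hx
    exact hi' (hxS i hi)
  have := es hS l (key 1 (Or.inl rfl)) (key (-1) (Or.inr rfl))
  omega

/-- greedy decomposition into disjoint chains -/
lemma decomposition (l : ℕ) : ∀ (n : ℕ) (S : Finset (ℝ × ℝ)), S.card = n → GP S →
    ∃ (r : ℕ) (σ : Fin r → ℝ) (x : Fin r → ℕ → ℝ × ℝ),
      (∀ c, IsChain (σ c) (l + 2) (x c)) ∧ (∀ c, ∀ i < l + 2, x c i ∈ S) ∧
      (∀ c c', ∀ i < l + 2, ∀ j < l + 2, x c i = x c' j → c = c' ∧ i = j) ∧
      S.card ≤ 2 ^ (l * l) + r * (l + 2) := by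
  classical
  intro n
  induction n using Nat.strong_induction_on with
  | _ n ih =>
    intro S hn hS
    rcases Nat.lt_or_ge (2 ^ (l * l)) S.card with hc | hc
    · obtain ⟨σ0, x0, hx0, hx0S⟩ := exists_chain hS l hc
      have hinj0 : ∀ i < l + 2, ∀ j < l + 2, x0 i = x0 j → i = j := by
        intro i hi j hj h
        rcases lt_trichotomy i j with h1 | h1 | h1
        · have := hx0.fst_lt h1 hj
          rw [h] at this
          exact absurd this (lt_irrefl _)
        · exact h1
        · have := hx0.fst_lt h1 hi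
          rw [h] at this
          exact absurd this (lt_irrefl _)
      set A : Finset (ℝ × ℝ) := (range (l + 2)).image x0 with hA
      have hAS : A ⊆ S := by
        intro a ha
        obtain ⟨i, hi, rfl⟩ := mem_image.1 ha
        exact hx0S i (mem_range.1 hi)
      have hAc : A.card = l + 2 := by
        rw [hA, card_image_of_injOn, card_range]
        intro i hi j hj h
        exact hinj0 i (by simpa using hi) j (by simpa using hj) h
      have hcard : (S \ A).card = S.card - (l + 2) := by
        rw [card_sdiff_of_subset hAS, hAc]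
      have hle : l + 2 ≤ S.card := by rw [← hAc]; exact card_le_card hAS
      obtain ⟨r, σ, x, h1, h2, h3, h4⟩ := ih (S \ A).card (by omega) (S \ A) rfl
        (hS.mono sdiff_subset)
      refine ⟨r + 1, Fin.cons σ0 σ, Fin.cons x0 x, ?_, ?_, ?_, ?_⟩
      · intro c
        refine Fin.cases ?_ (fun c => ?_) c
        · simpa using hx0
        · simpa using h1 c
      · intro c
        refine Fin.cases ?_ (fun c => ?_) c
        · simpa using hx0S
        · intro i hi
          simpa using (mem_sdiff.1 (h2 c i hi)).1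
      · intro c c' i hi j hj
        refine Fin.cases ?_ (fun c => ?_) c
        · refine Fin.cases ?_ (fun c' => ?_) c'
          · intro h
            exact ⟨rfl, hinj0 i hi j hj (by simpa using h)⟩
          · intro h
            exfalso
            simp only [Fin.cons_zero, Fin.cons_succ] at h
            have := (mem_sdiff.1 (h2 c' j hj)).2
            apply this
            rw [← h]
            exact mem_image.2 ⟨i, mem_range.2 hi, rfl⟩
        · refine Fin.cases ?_ (fun c' => ?_) c'
          · intro h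
            exfalso
            simp only [Fin.cons_zero, Fin.cons_succ] at h
            have := (mem_sdiff.1 (h2 c i hi)).2
            apply this
            rw [h]
            exact mem_image.2 ⟨j, mem_range.2 hj, rfl⟩
          · intro h
            simp only [Fin.cons_succ] at h
            obtain ⟨h5, h6⟩ := h3 c c' i hi j hj h
            exact ⟨by rw [h5], h6⟩
      · have : (r + 1) * (l + 2) = r * (l + 2) + (l + 2) := by ring
        omega
    · exact ⟨0, Fin.elim0, Fin.elim0, fun c => c.elim0, fun c => c.elim0, fun c => c.elim0,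
        by omega⟩

end Pool.Agent.Helper837.ChainExt
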