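import Mathlib

/-!
Abstract poset theorem for directed segments (flags) in the plane.
-/

set_option autoImplicit false

namespace Pool.Agent.Helper837.FlagChain

open Real Finset

/-- height of the point `p` in direction `t` -/
noncomputable def hh (p : ℝ × ℝ) (t : ℝ) : ℝ := p.1 * cos t + p.2 * sin t

/-- a directed segment from `L` to `R`, with unit normal `(cos t, sin t)` on its right side -/
structure Fl where
  R : ℝ × ℝ
  L : ℝ × ℝ
  t : ℝ
  K : ℝ
  hK : 0 < K
  hR1 : R.1 = L.1 - K * sin t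
  hR2 : R.2 = L.2 + K * cos t

noncomputable def Mx (f : Fl) (s : ℝ) : ℝ := max (hh f.R s) (hh f.L s)

def Compat (e f : Fl) : Prop := Mx f e.t ≤ Mx e e.t ∧ Mx e f.t ≤ Mx f f.t

lemma Compat.symm {e f : Fl} (h : Compat e f) : Compat f e := ⟨h.2, h.1⟩

lemma hh_sub (f : Fl) (s : ℝ) : hh f.R s - hh f.L s = f.K * sin (s - f.t) := by
  unfold hh; rw [f.hR1, f.hR2, sin_sub]; ring

lemma hh_eq (f : Fl) : hh f.R f.t = hh f.L f.t := by
  have := hh_sub f f.t
  simp at this
  linarith

lemma Mx_eq_R (f : Fl) {s : ℝ} (h1 : f.t ≤ s) (h2 : s ≤ f.t + π) : Mx f s = hh f.R s := by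
  have h := hh_sub f s
  have : 0 ≤ sin (s - f.t) := sin_nonneg_of_nonneg_of_le_pi (by linarith) (by linarith)
  have := mul_nonneg f.hK.le this
  unfold Mx
  rw [max_eq_left]
  linarith

lemma Mx_eq_L (f : Fl) {s : ℝ} (h1 : f.t - π ≤ s) (h2 : s ≤ f.t) : Mx f s = hh f.L s := by
  have h := hh_sub f s
  have : sin (s - f.t) ≤ 0 := sin_nonpos_of_nonpos_of_neg_pi_le (by linarith) (by linarith)
  have := mul_nonpos_of_nonneg_of_nonpos f.hK.le this
  unfold Mx
  rw [max_eq_right]
  linarith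

lemma Mx_self_R (f : Fl) : Mx f f.t = hh f.R f.t := Mx_eq_R f le_rfl (by linarith [pi_pos])
lemma Mx_self_L (f : Fl) : Mx f f.t = hh f.L f.t := Mx_eq_L f (by linarith [pi_pos]) le_rfl

lemma three (p q : ℝ × ℝ) (t1 t2 t3 : ℝ) :
    (hh p t2 - hh q t2) * sin (t3 - t1)
      = (hh p t1 - hh q t1) * sin (t3 - t2) + (hh p t3 - hh q t3) * sin (t2 - t1) := by
  have h1 : t3 - t1 = (t3 - t2) + (t2 - t1) := by ring
  have e2 : t2 = t1 + (t2 - t1) := by ring
  have e3 : t3 = t1 + (t2 - t1) + (t3 - t2) := by ring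
  set a := t2 - t1
  set b := t3 - t2
  rw [h1]
  unfold hh
  rw [e3, e2, cos_add (t1 + a) b, sin_add (t1 + a) b, cos_add t1 a, sin_add t1 a, sin_add b a]
  have := sin_sq_add_cos_sq a
  have := sin_sq_add_cos_sq b
  have ha : cos a ^ 2 = 1 - sin a ^ 2 := by linarith [sin_sq_add_cos_sq a]
  ring_nf
  simp only [ha]
  ring

/-- `f ≥ 0` at `t2`, `f ≤ 0` at `t3` implies `f ≥ 0` at `t1`. -/
lemma back {p q : ℝ × ℝ} {t1 t2 t3 : ℝ} (h12 : t1 ≤ t2) (h23 : t2 < t3) (h13 : t3 - t1 ≤ π)
    (h23' : t3 - t2 < π)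
    (h2 : hh q t2 ≤ hh p t2) (h3 : hh p t3 ≤ hh q t3) : hh q t1 ≤ hh p t1 := by
  have h := three p q t1 t2 t3
  have s1 : 0 ≤ sin (t3 - t1) := sin_nonneg_of_nonneg_of_le_pi (by linarith) h13
  have s2 : 0 < sin (t3 - t2) := sin_pos_of_pos_of_lt_pi (by linarith) h23'
  have s3 : 0 ≤ sin (t2 - t1) := sin_nonneg_of_nonneg_of_le_pi (by linarith) (by linarith)
  have : 0 ≤ (hh p t1 - hh q t1) * sin (t3 - t2) := by
    nlinarith [mul_nonneg (sub_nonneg.2 h2) s1, mul_nonneg (sub_nonneg.2 h3) s3]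
  have := nonneg_of_mul_nonneg_left this s2
  linarith

/-- `f ≥ 0` at `t1`, `f ≤ 0` at `t2` implies `f ≤ 0` at `t3`. -/
lemma forw {p q : ℝ × ℝ} {t1 t2 t3 : ℝ} (h12 : t1 < t2) (h23 : t2 ≤ t3) (h13 : t3 - t1 ≤ π)
    (h12' : t2 - t1 < π)
    (h1 : hh q t1 ≤ hh p t1) (h2 : hh p t2 ≤ hh q t2) : hh p t3 ≤ hh q t3 := by
  have h := three p q t1 t2 t3
  have s1 : 0 ≤ sin (t3 - t1) := sin_nonneg_of_nonneg_of_le_pi (by linarith) h13
  have s2 : 0 ≤ sin (t3 - t2) := sin_nonneg_of_nonneg_of_le_pi (by linarith) (by linarith)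
  have s3 : 0 < sin (t2 - t1) := sin_pos_of_pos_of_lt_pi (by linarith) h12'
  have : 0 ≤ (hh q t3 - hh p t3) * sin (t2 - t1) := by
    nlinarith [mul_nonneg (sub_nonneg.2 h2) s1, mul_nonneg (sub_nonneg.2 h1) s2]
  have := nonneg_of_mul_nonneg_left this s3
  linarith

lemma hR_le (f : Fl) (s : ℝ) : hh f.R s ≤ Mx f s := le_max_left _ _
lemma hL_le (f : Fl) (s : ℝ) : hh f.L s ≤ Mx f s := le_max_right _ _

/-- transitivity on an angular range `≤ π` -/
lemma compat_trans {a b c : Fl} (hab : a.t < b.t) (hbc : b.t < c.t) (hac : c.t - a.t ≤ π)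
    (h1 : Compat a b) (h2 : Compat b c) : Compat a c := by
  have hRb : ∀ v, (v = c.R ∨ v = c.L) → hh v b.t ≤ hh b.R b.t := by
    rintro v (rfl | rfl)
    · exact (hR_le c b.t).trans (h2.1.trans (Mx_self_R b).le)
    · exact (hL_le c b.t).trans (h2.1.trans (Mx_self_R b).le)
  have hRc : ∀ v, (v = c.R ∨ v = c.L) → hh b.R c.t ≤ hh v c.t := by
    rintro v (rfl | rfl)
    · rw [← Mx_self_R c]; exact (hR_le b c.t).trans h2.2
    · rw [← Mx_self_L c]; exact (hR_le b c.t).trans h2.2
  have hLb : ∀ v, (v = a.R ∨ v = a.L) → hh v b.t ≤ hh b.R b.t := by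
    rintro v (rfl | rfl)
    · exact (hR_le a b.t).trans (h1.2.trans (Mx_self_R b).le)
    · exact (hL_le a b.t).trans (h1.2.trans (Mx_self_R b).le)
  have hLa : ∀ v, (v = a.R ∨ v = a.L) → hh b.R a.t ≤ hh v a.t := by
    rintro v (rfl | rfl)
    · rw [← Mx_self_R a]; exact (hR_le b a.t).trans h1.1
    · rw [← Mx_self_L a]; exact (hR_le b a.t).trans h1.1
  constructor
  · -- Mx c a.t ≤ Mx a a.t
    have key : ∀ v, (v = c.R ∨ v = c.L) → hh v a.t ≤ Mx a a.t := by
      intro v hv
      have := back (p := b.R) (q := v) hab.le hbc hac (by linarith) (hRb v hv) (hRc v hv)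
      exact this.trans ((hR_le b a.t).trans h1.1)
    exact max_le (key _ (Or.inl rfl)) (key _ (Or.inr rfl))
  · have key : ∀ v, (v = a.R ∨ v = a.L) → hh v c.t ≤ Mx c c.t := by
      intro v hv
      have := forw (p := v) (q := b.R) hab hbc.le hac (by linarith) (hLa v hv) (hLb v hv)
      exact this.trans ((hR_le b c.t).trans h2.2)
    exact max_le (key _ (Or.inl rfl)) (key _ (Or.inr rfl))

/-- the same segment with the angle shifted by `2 π n` -/
noncomputable def sh (f : Fl) (n : ℤ) : Fl where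
  R := f.R
  L := f.L
  t := f.t + n * (2 * π)
  K := f.K
  hK := f.hK
  hR1 := by rw [sin_add_int_mul_two_pi]; exact f.hR1
  hR2 := by rw [cos_add_int_mul_two_pi]; exact f.hR2

lemma hh_add (p : ℝ × ℝ) (s : ℝ) (n : ℤ) : hh p (s + n * (2 * π)) = hh p s := by
  unfold hh; rw [sin_add_int_mul_two_pi, cos_add_int_mul_two_pi]

lemma Mx_add (f : Fl) (s : ℝ) (n : ℤ) : Mx f (s + n * (2 * π)) = Mx f s := by
  unfold Mx; rw [hh_add, hh_add]

lemma Mx_sh (f : Fl) (n : ℤ) (s : ℝ) : Mx (sh f n) s = Mx f s := rfl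

lemma compat_sh {e f : Fl} (m n : ℤ) : Compat (sh e m) (sh f n) ↔ Compat e f := by
  unfold Compat
  rw [Mx_sh, Mx_sh, Mx_sh, Mx_sh]
  show Mx f (e.t + m * (2 * π)) ≤ Mx e (e.t + m * (2 * π)) ∧
    Mx e (f.t + n * (2 * π)) ≤ Mx f (f.t + n * (2 * π)) ↔ _
  rw [Mx_add, Mx_add, Mx_add, Mx_add]

/-- two elements compatible with the root at angular distance `≥ π` are compatible -/
lemma compat_far {x p q : Fl} (hp : x.t < p.t) (hq : q.t < x.t + 2 * π) (hpq : π ≤ q.t - p.t)
    (h1 : Compat p x) (h2 : Compat q x) : Compat p q := by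
  have e1 : (sh x 1).t = x.t + 2 * π := by simp [sh]
  have e2 : (sh p 1).t = p.t + 2 * π := by simp [sh]
  have h3 : Compat q (sh x 1) := by
    have := (compat_sh (e := q) (f := x) 0 1).2 h2
    simpa [Compat, sh, Mx, hh] using this
  have h4 : Compat (sh x 1) (sh p 1) := (compat_sh 1 1).2 h1.symm
  have h5 := compat_trans (a := q) (b := sh x 1) (c := sh p 1) (by rw [e1]; exact hq)
    (by rw [e1, e2]; linarith) (by rw [e2]; linarith) h3 h4
  have h6 : Compat q p := by
    rw [← compat_sh 0 1]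
    simpa [Compat, sh, Mx, hh] using h5
  exact h6.symm

lemma antichain_aux {ι : Type*} [DecidableEq ι] (G : ι → Fl) (A : Finset ι) (hA : A.Nonempty)
    (hpi : ∀ a ∈ A, ∀ b ∈ A, (G b).t - (G a).t < π)
    (hc : ∀ a ∈ A, ∀ b ∈ A, a ≠ b → ¬ Compat (G a) (G b)) :
    ∃ a ∈ A, ∀ b ∈ A, Mx (G a) (G a).t ≤ Mx (G b) (G a).t := by
  by_contra hcon
  push Not at hcon
  have hmin : ∀ a, ∃ e ∈ A, ∀ b ∈ A, Mx (G e) (G a).t ≤ Mx (G b) (G a).t := fun a =>
    exists_min_image A (fun b => Mx (G b) (G a).t) hA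
  choose e heA hemin using hmin
  have hne : ∀ a ∈ A, (G (e a)).t ≠ (G a).t := by
    intro a ha h
    obtain ⟨b, hb, hlt⟩ := hcon (e a) (heA a)
    rw [h] at hlt
    exact absurd (hemin a b hb) (not_le.2 hlt)
  obtain ⟨a0, ha0, ha0min⟩ := exists_min_image A (fun a => (G a).t) hA
  have hF : (A.filter (fun a => (G a).t < (G (e a)).t)).Nonempty := by
    refine ⟨a0, mem_filter.2 ⟨ha0, ?_⟩⟩
    exact lt_of_le_of_ne (ha0min _ (heA a0)) (hne a0 ha0).symm
  obtain ⟨a, haF, hamax⟩ := exists_max_image _ (fun a => (G a).t) hF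
  obtain ⟨haA, hae⟩ := mem_filter.1 haF
  have hH : (A.filter (fun b => (G a).t < (G b).t)).Nonempty :=
    ⟨e a, mem_filter.2 ⟨heA a, hae⟩⟩
  obtain ⟨a', ha'H, ha'min⟩ := exists_min_image _ (fun a => (G a).t) hH
  obtain ⟨ha'A, haa'⟩ := mem_filter.1 ha'H
  have hqa' : (G a').t ≤ (G (e a)).t := ha'min _ (mem_filter.2 ⟨heA a, hae⟩)
  have hpa' : (G (e a')).t < (G a').t := by
    rcases lt_trichotomy (G (e a')).t (G a').t with h | h | h
    · exact h
    · exact absurd h (hne a' ha'A)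
    · have := hamax a' (mem_filter.2 ⟨ha'A, h⟩)
      linarith
  have hpa : (G (e a')).t ≤ (G a).t := by
    by_contra h
    push Not at h
    have := ha'min (e a') (mem_filter.2 ⟨heA a', h⟩)
    linarith
  set p := G (e a') with hp
  set q := G (e a) with hq
  have hpq : q.t - p.t < π := hpi _ (heA a') _ (heA a)
  have hD1 : hh q.L (G a).t ≤ hh p.R (G a).t := by
    rw [← Mx_eq_L q (by linarith) (by linarith), ← Mx_eq_R p hpa (by linarith)]
    exact hemin a _ (heA a')
  have hD2 : hh p.R (G a').t ≤ hh q.L (G a').t := by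
    rw [← Mx_eq_L q (by linarith) hqa', ← Mx_eq_R p hpa'.le (by linarith)]
    exact hemin a' _ (heA a)
  have hD3 := back (p := p.R) (q := q.L) hpa haa' (by linarith) (by linarith) hD1 hD2
  have hD4 := forw (p := p.R) (q := q.L) haa' hqa' (by linarith) (by linarith) hD1 hD2
  have hcomp : Compat p q := by
    constructor
    · rw [Mx_eq_L q (by linarith) (by linarith), Mx_self_R p]; exact hD3
    · rw [Mx_eq_R p (by linarith) (by linarith), Mx_self_L q]; exact hD4
  refine hc _ (heA a') _ (heA a) ?_ hcomp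
  intro h
  have : p.t = q.t := by rw [hp, hq, h]
  linarith

lemma mirsky {ι : Type*} [DecidableEq ι] (r : ι → ι → Prop) (m : ℕ) :
    ∀ (l : ℕ) (S : Finset ι), (∀ a ∈ S, ∀ b ∈ S, ∀ c ∈ S, r a b → r b c → r a c) →
      (∀ a ∈ S, ¬ r a a) →
      (∀ A ⊆ S, (∀ a ∈ A, ∀ b ∈ A, ¬ r a b) → A.card ≤ m) → l * m < S.card →
      ∃ W ⊆ S, W.card = l + 1 ∧ (∃ top ∈ W, ∀ w ∈ W, w = top ∨ r w top) ∧
        (∀ a ∈ W, ∀ b ∈ W, a ≠ b → r a b ∨ r b a) := by
  classical
  intro l
  induction l with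
  | zero =>
    intro S _ _ _ hS
    have : S.Nonempty := card_pos.1 (by omega)
    obtain ⟨a, ha⟩ := this
    refine ⟨{a}, by simpa using ha, by simp, ⟨a, by simp, by simp⟩, ?_⟩
    intro b hb c hc hbc
    simp only [mem_singleton] at hb hc
    exact absurd (hb.trans hc.symm) hbc
  | succ l ih =>
    intro S htr hir hanti hS
    set A := S.filter (fun a => ∀ b ∈ S, ¬ r a b) with hA
    have hAc : A.card ≤ m := by
      refine hanti A (filter_subset _ _) ?_
      intro a ha b hb
      exact (mem_filter.1 ha).2 b (mem_filter.1 hb).1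
    have hS' : l * m < (S \ A).card := by
      have := card_sdiff_add_card_eq_card (filter_subset (fun a => ∀ b ∈ S, ¬ r a b) S)
      rw [← hA] at this
      have h2 : (l + 1) * m = l * m + m := by ring
      omega
    obtain ⟨W, hWS, hWc, ⟨top, htop, htopm⟩, hWp⟩ := ih (S \ A)
      (fun a ha b hb c hc => htr a (mem_sdiff.1 ha).1 b (mem_sdiff.1 hb).1 c (mem_sdiff.1 hc).1)
      (fun a ha => hir a (mem_sdiff.1 ha).1)
      (fun B hB => hanti B (hB.trans sdiff_subset)) hS'
    have hWS' : ∀ w ∈ W, w ∈ S := fun w hw => (mem_sdiff.1 (hWS hw)).1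
    have htS : top ∈ S := hWS' top htop
    have : ∃ b ∈ S, r top b := by
      by_contra h
      push Not at h
      exact (mem_sdiff.1 (hWS htop)).2 (mem_filter.2 ⟨htS, h⟩)
    obtain ⟨b, hbS, hb⟩ := this
    have hwb : ∀ w ∈ W, r w b := by
      intro w hw
      rcases htopm w hw with rfl | h
      · exact hb
      · exact htr w (hWS' w hw) top htS b hbS h hb
    have hbW : b ∉ W := fun h => hir b hbS (hwb b h)
    refine ⟨insert b W, ?_, ?_, ⟨b, mem_insert_self _ _, ?_⟩, ?_⟩
    · intro w hw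
      rcases mem_insert.1 hw with rfl | h
      · exact hbS
      · exact hWS' w h
    · rw [card_insert_of_notMem hbW, hWc]
    · intro w hw
      rcases mem_insert.1 hw with rfl | h
      · exact Or.inl rfl
      · exact Or.inr (hwb w h)
    · intro a ha c hc hac
      rcases mem_insert.1 ha with ha' | ha'
      · rcases mem_insert.1 hc with hc' | hc'
        · exact absurd (ha'.trans hc'.symm) hac
        · rw [ha']; exact Or.inr (hwb c hc')
      · rcases mem_insert.1 hc with hc' | hc'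
        · rw [hc']; exact Or.inl (hwb a ha')
        · exact hWp a ha' c hc' hac

theorem exists_compat {ι : Type*} [Fintype ι] [DecidableEq ι] (F : ι → Fl) (m s : ℕ) (hm : 1 ≤ m)
    (H1 : ∀ e f, e ≠ f → Mx (F f) (F e).t ≠ Mx (F e) (F e).t)
    (H2 : ∀ e, ((univ.filter fun f => Mx (F e) (F e).t < Mx (F f) (F e).t).card) + 1 ≤ m)
    (hs : s * m ≤ Fintype.card ι) :
    ∃ W : Finset ι, W.card = s ∧ ∀ e ∈ W, ∀ f ∈ W, e ≠ f → Compat (F e) (F f) := by
  classical
  rcases Nat.eq_zero_or_pos s with rfl | hs0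
  · exact ⟨∅, rfl, by simp⟩
  have hcard : m ≤ Fintype.card ι := le_trans (by nlinarith) hs
  have : Nonempty ι := Fintype.card_pos_iff.1 (by omega)
  rcases Nat.lt_or_ge s 2 with hs1 | hs2
  · have hs1' : s = 1 := by omega
    subst hs1'
    obtain ⟨a⟩ : Nonempty ι := inferInstance
    refine ⟨{a}, by simp, ?_⟩
    intro e he f hf hef
    simp only [mem_singleton] at he hf
    exact absurd (he.trans hf.symm) hef
  -- root with small in-degree
  obtain ⟨x, hx⟩ : ∃ x, (univ.filter fun f => Mx (F f) (F f).t < Mx (F x) (F f).t).card + 1 ≤ m := by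
    by_contra hcon
    push Not at hcon
    have h1 : ∑ x : ι, (univ.filter fun f => Mx (F f) (F f).t < Mx (F x) (F f).t).card
        = ∑ f : ι, (univ.filter fun x => Mx (F f) (F f).t < Mx (F x) (F f).t).card := by
      simp only [card_filter]
      exact sum_comm
    have h2 : ∑ f : ι, (univ.filter fun x => Mx (F f) (F f).t < Mx (F x) (F f).t).card
        ≤ ∑ _f : ι, (m - 1) := sum_le_sum fun f _ => by have := H2 f; omega
    have h3 : ∑ _x : ι, m ≤ ∑ x : ι, (univ.filter fun f => Mx (F f) (F f).t < Mx (F x) (F f).t).card :=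
      sum_le_sum fun f _ => by have := hcon f; omega
    rw [h1] at h3
    have h4 := h3.trans h2
    simp only [sum_const, card_univ, smul_eq_mul] at h4
    have : 0 < Fintype.card ι := Fintype.card_pos
    have : m ≤ m - 1 := Nat.le_of_mul_le_mul_left h4 this
    omega
  -- elements compatible with the root
  set Ex : Finset ι := univ.filter fun f => f ≠ x ∧ Compat (F f) (F x) with hEx
  have hExc : (s - 2) * m < Ex.card := by
    have hsub : (univ : Finset ι) ⊆ Ex ∪ ({x} ∪
        ((univ.filter fun f => Mx (F x) (F x).t < Mx (F f) (F x).t) ∪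
        (univ.filter fun f => Mx (F f) (F f).t < Mx (F x) (F f).t))) := by
      intro f _
      simp only [mem_union, mem_filter, mem_univ, true_and, mem_singleton]
      by_cases hfx : f = x
      · exact Or.inr (Or.inl hfx)
      by_cases h1 : Mx (F x) (F x).t < Mx (F f) (F x).t
      · exact Or.inr (Or.inr (Or.inl h1))
      by_cases h2 : Mx (F f) (F f).t < Mx (F x) (F f).t
      · exact Or.inr (Or.inr (Or.inr h2))
      · exact Or.inl (mem_filter.2 ⟨mem_univ _, hfx, not_lt.1 h2, not_lt.1 h1⟩)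
    have h1 := card_le_card hsub
    rw [card_univ] at h1
    have h2 := card_union_le Ex ({x} ∪
        ((univ.filter fun f => Mx (F x) (F x).t < Mx (F f) (F x).t) ∪
        (univ.filter fun f => Mx (F f) (F f).t < Mx (F x) (F f).t)))
    have h3 := card_union_le ({x} : Finset ι)
        ((univ.filter fun f => Mx (F x) (F x).t < Mx (F f) (F x).t) ∪
        (univ.filter fun f => Mx (F f) (F f).t < Mx (F x) (F f).t))
    have h4 := card_union_le (univ.filter fun f => Mx (F x) (F x).t < Mx (F f) (F x).t)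
        (univ.filter fun f => Mx (F f) (F f).t < Mx (F x) (F f).t)
    have h5 := H2 x
    have h6 : (s - 2) * m + 2 * m = s * m := by
      rw [← Nat.add_mul]; congr 1; omega
    simp only [card_singleton] at h3
    omega
  -- lift the angles
  have hpi : (0:ℝ) < 2 * π := by linarith [pi_pos]
  set G : ι → Fl := fun f => sh (F f) (-(toIcoDiv hpi (F x).t (F f).t)) with hG
  have hGt : ∀ f, (G f).t = toIcoMod hpi (F x).t (F f).t := by
    intro f
    have := toIcoMod_add_toIcoDiv_zsmul hpi (F x).t (F f).t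
    simp only [hG, sh]
    rw [zsmul_eq_mul] at this
    push_cast
    linarith
  have hGmem : ∀ f, (F x).t ≤ (G f).t ∧ (G f).t < (F x).t + 2 * π := by
    intro f
    rw [hGt]
    exact ⟨left_le_toIcoMod _ _ _, toIcoMod_lt_right _ _ _⟩
  have hGc : ∀ e f, Compat (G e) (G f) ↔ Compat (F e) (F f) := fun e f => compat_sh _ _
  have hMxG : ∀ f s, Mx (G f) s = Mx (F f) s := fun f s => Mx_sh _ _ _
  have hMxGt : ∀ e f, Mx (G e) (G f).t = Mx (F e) (F f).t := by
    intro e f
    rw [hMxG]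
    simp only [hG, sh]
    exact Mx_add _ _ _
  have hne : ∀ e f, e ≠ f → Compat (F e) (F f) → (G e).t ≠ (G f).t := by
    intro e f hef hc h
    have h1 : Mx (F f) (F e).t = Mx (F f) (F f).t := by
      rw [← hMxGt f e, h, hMxGt]
    have h2 : Mx (F e) (F f).t = Mx (F e) (F e).t := by
      rw [← hMxGt e f, ← h, hMxGt]
    have := H1 e f hef
    have h3 := hc.1
    have h4 := hc.2
    rw [h1] at h3 this
    rw [h2] at h4
    exact this (le_antisymm h3 h4)
  have hGlt : ∀ f ∈ Ex, (F x).t < (G f).t := by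
    intro f hf
    obtain ⟨_, hfx, hc⟩ := mem_filter.1 hf
    have h := hne f x hfx hc
    have h0 : (G x).t = (F x).t := by rw [hGt]; exact toIcoMod_apply_left _ _
    rw [h0] at h
    exact lt_of_le_of_ne (hGmem f).1 h.symm
  have hcx : ∀ f ∈ Ex, Compat (G f) (F x) := by
    intro f hf
    obtain ⟨_, hfx, hc⟩ := mem_filter.1 hf
    have := (compat_sh (e := F f) (f := F x) (-(toIcoDiv hpi (F x).t (F f).t)) 0).2 hc
    simpa [Compat, sh, Mx, hh, hG] using this
  have hfar : ∀ p ∈ Ex, ∀ q ∈ Ex, π ≤ (G q).t - (G p).t → Compat (G p) (G q) := by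
    intro p hp q hq h
    exact compat_far (x := F x) (hGlt p hp) (hGmem q).2 h (hcx p hp) (hcx q hq)
  set r : ι → ι → Prop := fun a b => (G a).t < (G b).t ∧ Compat (G a) (G b) with hr
  have htrans : ∀ a ∈ Ex, ∀ b ∈ Ex, ∀ c ∈ Ex, r a b → r b c → r a c := by
    intro a ha b hb c hc hab hbc
    refine ⟨hab.1.trans hbc.1, ?_⟩
    rcases le_total ((G c).t - (G a).t) π with h | h
    · exact compat_trans hab.1 hbc.1 h hab.2 hbc.2
    · exact hfar a ha c hc h
  have hanti : ∀ A ⊆ Ex, (∀ a ∈ A, ∀ b ∈ A, ¬ r a b) → A.card ≤ m := by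
    intro A hA hAr
    rcases A.eq_empty_or_nonempty with rfl | hAne
    · simp
    have hinc : ∀ a ∈ A, ∀ b ∈ A, a ≠ b → ¬ Compat (G a) (G b) := by
      intro a ha b hb hab hc
      have h1 := hne a b hab ((hGc a b).1 hc)
      rcases lt_or_gt_of_ne h1 with h | h
      · exact hAr a ha b hb ⟨h, hc⟩
      · exact hAr b hb a ha ⟨h, hc.symm⟩
    have hpi' : ∀ a ∈ A, ∀ b ∈ A, (G b).t - (G a).t < π := by
      intro a ha b hb
      by_contra h
      push Not at h
      refine hAr a ha b hb ⟨by linarith [pi_pos], hfar a (hA ha) b (hA hb) h⟩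
    obtain ⟨a, ha, hamin⟩ := antichain_aux G A hAne hpi' hinc
    have hsub : A ⊆ insert a (univ.filter fun f => Mx (F a) (F a).t < Mx (F f) (F a).t) := by
      intro b hb
      by_cases hba : b = a
      · exact mem_insert.2 (Or.inl hba)
      · refine mem_insert.2 (Or.inr (mem_filter.2 ⟨mem_univ _, ?_⟩))
        have h1 := hamin b hb
        rw [hMxGt, hMxGt] at h1
        exact lt_of_le_of_ne h1 (H1 a b (Ne.symm hba)).symm
    exact (card_le_card hsub).trans ((card_insert_le _ _).trans (H2 a))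
  obtain ⟨W, hWE, hWc, _, hWp⟩ := mirsky r m (s - 2) Ex htrans
    (fun a _ h => lt_irrefl _ h.1) hanti hExc
  have hxW : x ∉ W := fun h => (mem_filter.1 (hWE h)).2.1 rfl
  refine ⟨insert x W, ?_, ?_⟩
  · rw [card_insert_of_notMem hxW, hWc]; omega
  · intro e he f hf hef
    rcases mem_insert.1 he with rfl | he'
    · rcases mem_insert.1 hf with rfl | hf'
      · exact absurd rfl hef
      · exact ((mem_filter.1 (hWE hf')).2.2).symm
    · rcases mem_insert.1 hf with rfl | hf'
      · exact (mem_filter.1 (hWE he')).2.2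
      · rcases hWp e he' f hf' hef with h | h
        · exact (hGc e f).1 h.2
        · exact ((hGc f e).1 h.2).symm

end Pool.Agent.Helper837.FlagChain
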