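import Mathlib
import Pool.Agent.Helper837.ChainES
import Pool.Agent.Helper837.FlagChain

/-!
Geometry of edges of convex chains: flags, extreme points, caps.
-/

set_option autoImplicit false

namespace Pool.Agent.Helper837.ChainExt

open Finset Pool.Agent.Helper837.FlagChain

lemma exists_flag (R L : ℝ × ℝ) (h : R ≠ L) : ∃ F : Fl, F.R = R ∧ F.L = L := by
  set z : ℂ := ⟨R.2 - L.2, -(R.1 - L.1)⟩ with hz
  have hz0 : z ≠ 0 := by
    intro h0
    apply h
    have h1 : z.re = 0 := by rw [h0]; rfl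
    have h2 : z.im = 0 := by rw [h0]; rfl
    simp only [hz] at h1 h2
    exact Prod.ext (by linarith) (by linarith)
  have h1 : ‖z‖ * Real.cos z.arg = R.2 - L.2 := by
    rw [Complex.norm_mul_cos_arg]
  have h2 : ‖z‖ * Real.sin z.arg = -(R.1 - L.1) := by
    rw [Complex.norm_mul_sin_arg]
  exact ⟨⟨R, L, z.arg, ‖z‖, norm_pos_iff.2 hz0, by linarith, by linarith⟩, rfl, rfl⟩

lemma flag_side (F : Fl) (z : ℝ × ℝ) :
    F.K * (hh z F.t - Mx F F.t) = - det2 (F.R - F.L) (z - F.L) := by
  rw [Mx_self_L]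
  unfold hh det2
  simp only [Prod.fst_sub, Prod.snd_sub]
  rw [F.hR1, F.hR2]
  ring

/-- the flag of an edge of a chain -/
lemma IsChain.edge_flag {σ : ℝ} {L : ℕ} {x : ℕ → ℝ × ℝ} (h : IsChain σ L x) {i : ℕ}
    (hi : i + 1 < L) : ∃ F : Fl, (∀ s, Mx F s = max (hh (x i) s) (hh (x (i + 1)) s)) ∧
      ∀ z, F.K * (hh z F.t - Mx F F.t) = sd σ x i z := by
  have hne : x i ≠ x (i + 1) := by
    intro he
    have := h.inc i hi
    rw [he] at this
    exact lt_irrefl _ this
  rcases h.hσ with hs | hs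
  · obtain ⟨F, hR, hL⟩ := exists_flag (x i) (x (i + 1)) hne
    refine ⟨F, ?_, ?_⟩
    · intro s; unfold Mx; rw [hR, hL]
    · intro z
      rw [flag_side, hR, hL, hs]
      unfold sd det2
      simp only [Prod.fst_sub, Prod.snd_sub]
      ring
  · obtain ⟨F, hR, hL⟩ := exists_flag (x (i + 1)) (x i) hne.symm
    refine ⟨F, ?_, ?_⟩
    · intro s; unfold Mx; rw [hR, hL, max_comm]
    · intro z
      rw [flag_side, hR, hL, hs]
      unfold sd det2
      simp only [Prod.fst_sub, Prod.snd_sub]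
      ring

/-- lexicographic maximum is not in the hull of the rest -/
lemma not_mem_hull (T : Finset (ℝ × ℝ)) (p : ℝ × ℝ) (a b a' b' : ℝ)
    (h : ∀ z ∈ T, z ≠ p → (a * z.1 + b * z.2 < a * p.1 + b * p.2 ∨
      (a * z.1 + b * z.2 = a * p.1 + b * p.2 ∧ a' * z.1 + b' * z.2 < a' * p.1 + b' * p.2))) :
    p ∉ convexHull ℝ ((T : Set (ℝ × ℝ)) \ {p}) := by
  set S : Set (ℝ × ℝ) := {z | a * z.1 + b * z.2 < a * p.1 + b * p.2 ∨
      (a * z.1 + b * z.2 = a * p.1 + b * p.2 ∧ a' * z.1 + b' * z.2 < a' * p.1 + b' * p.2)} with hS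
  have hconv : Convex ℝ S := by
    intro x hx y hy s t hs ht hst
    have e1 : a * (s • x + t • y).1 + b * (s • x + t • y).2
        = s * (a * x.1 + b * x.2) + t * (a * y.1 + b * y.2) := by
      simp; ring
    have e2 : a' * (s • x + t • y).1 + b' * (s • x + t • y).2
        = s * (a' * x.1 + b' * x.2) + t * (a' * y.1 + b' * y.2) := by
      simp; ring
    have ht' : t = 1 - s := by linarith
    show a * (s • x + t • y).1 + b * (s • x + t • y).2 < _ ∨
      (a * (s • x + t • y).1 + b * (s • x + t • y).2 = _ ∧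
        a' * (s • x + t • y).1 + b' * (s • x + t • y).2 < _)
    rw [e1, e2]
    set fp := a * p.1 + b * p.2
    set gp := a' * p.1 + b' * p.2
    set fx := a * x.1 + b * x.2
    set fy := a * y.1 + b * y.2
    set gx := a' * x.1 + b' * x.2
    set gy := a' * y.1 + b' * y.2
    have hx' : fx < fp ∨ (fx = fp ∧ gx < gp) := hx
    have hy' : fy < fp ∨ (fy = fp ∧ gy < gp) := hy
    rcases hs.eq_or_lt with hs0 | hs0
    · have : t = 1 := by linarith
      subst this
      rw [← hs0]
      simpa using hy'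
    rcases ht.eq_or_lt with ht0 | ht0
    · have : s = 1 := by linarith
      subst this
      rw [← ht0]
      simpa using hx'
    rcases hx' with hx' | ⟨hx1, hx2⟩
    · left
      have hy1 : fy ≤ fp := by
        rcases hy' with h | h
        · exact h.le
        · exact h.1.le
      have e3 : fp = s * fp + t * fp := by rw [← add_mul, hst, one_mul]
      have e4 := mul_pos hs0 (sub_pos.2 hx')
      have e5 := mul_nonneg ht (sub_nonneg.2 hy1)
      linarith
    · rcases hy' with hy' | ⟨hy1, hy2⟩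
      · left
        rw [hx1]
        have e3 : fp = s * fp + t * fp := by rw [← add_mul, hst, one_mul]
        have e5 := mul_pos ht0 (sub_pos.2 hy')
        linarith
      · right
        rw [hx1, hy1]
        constructor
        · rw [ht']; ring
        · have e3 : gp = s * gp + t * gp := by rw [← add_mul, hst, one_mul]
          have e4 := mul_pos hs0 (sub_pos.2 hx2)
          have e5 := mul_pos ht0 (sub_pos.2 hy2)
          linarith
  have hsub : (T : Set (ℝ × ℝ)) \ {p} ⊆ S := by
    intro z hz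
    exact h z (by exact_mod_cast hz.1) hz.2
  intro hp
  have := convexHull_min hsub hconv hp
  rcases this with h1 | h1
  · exact lt_irrefl _ h1
  · exact lt_irrefl _ h1.2

/-- endpoints of an edge supporting `T` are extreme in `T` -/
lemma IsChain.ext_of_edge {σ : ℝ} {L : ℕ} {x : ℕ → ℝ × ℝ} (h : IsChain σ L x) {e : ℕ}
    (he : e + 1 < L) (T : Finset (ℝ × ℝ)) (τ : ℝ)
    (hT : ∀ z ∈ T, z ≠ x e → z ≠ x (e + 1) → 0 < τ * sd σ x e z) :
    x e ∉ convexHull ℝ ((T : Set (ℝ × ℝ)) \ {x e}) ∧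
    x (e + 1) ∉ convexHull ℝ ((T : Set (ℝ × ℝ)) \ {x (e + 1)}) := by
  have hinc := h.inc e he
  set A := τ * σ * ((x (e + 1)).2 - (x e).2) with hA
  set B := - (τ * σ * ((x (e + 1)).1 - (x e).1)) with hB
  have key : ∀ z : ℝ × ℝ, A * z.1 + B * z.2 = A * (x e).1 + B * (x e).2 - τ * sd σ x e z := by
    intro z
    simp only [hA, hB]
    unfold sd det2
    simp only [Prod.fst_sub, Prod.snd_sub]
    ring
  have key2 : ∀ z : ℝ × ℝ, A * z.1 + B * z.2 =
      A * (x (e + 1)).1 + B * (x (e + 1)).2 - τ * sd σ x e z := by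
    intro z
    rw [key z, key (x (e + 1)), sd_right]
    ring
  constructor
  · refine not_mem_hull T (x e) A B (-1) 0 ?_
    intro z hz hze
    by_cases h1 : z = x (e + 1)
    · right
      subst h1
      constructor
      · rw [key (x (e + 1)), sd_right]; ring
      · linarith
    · left
      have := hT z hz hze h1
      rw [key z]
      linarith
  · refine not_mem_hull T (x (e + 1)) A B 1 0 ?_
    intro z hz hze
    by_cases h1 : z = x e
    · right
      subst h1
      constructor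
      · rw [key2 (x e), sd_left]; ring
      · linarith
    · left
      have := hT z hz h1 hze
      rw [key2 z]
      linarith

open Classical in
/-- the extreme points of a finite set -/
noncomputable def ext (T : Finset (ℝ × ℝ)) : Finset (ℝ × ℝ) :=
  T.filter (fun p => p ∉ convexHull ℝ ((T : Set (ℝ × ℝ)) \ {p}))

lemma IsChain.inj {σ : ℝ} {L : ℕ} {x : ℕ → ℝ × ℝ} (h : IsChain σ L x) {i j : ℕ}
    (hi : i < L) (hj : j < L) (he : x i = x j) : i = j := by
  rcases lt_trichotomy i j with h1 | h1 | h1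
  · have := h.fst_lt h1 hj
    rw [he] at this
    exact absurd this (lt_irrefl _)
  · exact h1
  · have := h.fst_lt h1 hi
    rw [he] at this
    exact absurd this (lt_irrefl _)

open Classical in
/-- common part of the caps in a window is small -/
lemma IsChain.window {σ : ℝ} {L : ℕ} {x : ℕ → ℝ × ℝ} (h : IsChain σ L x) {P : Finset (ℝ × ℝ)}
    (hxP : ∀ i < L, x i ∈ P) {k n i : ℕ} (hk : 2 ≤ k) (hik : i + k ≤ L)
    (hNo : ∀ T ⊆ P, n ≤ T.card → (ext T).card < k) :
    (P.filter (fun z => ∀ j, i ≤ j → j + 1 < i + k → 0 < sd σ x j z)).card < n := by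
  by_contra hcon
  push Not at hcon
  set I := P.filter (fun z => ∀ j, i ≤ j → j + 1 < i + k → 0 < sd σ x j z) with hI
  set W := (Ico i (i + k)).image x with hW
  have hWP : W ⊆ P := by
    intro w hw
    obtain ⟨j, hj, rfl⟩ := mem_image.1 hw
    exact hxP j (by have := (mem_Ico.1 hj).2; omega)
  have hWc : W.card = k := by
    rw [hW, card_image_of_injOn, Nat.card_Ico]
    · omega
    · intro a ha b hb hab
      have ha' := (mem_Ico.1 (by simpa using ha)).2
      have hb' := (mem_Ico.1 (by simpa using hb)).2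
      exact h.inj (by omega) (by omega) hab
  have hTP : I ∪ W ⊆ P := union_subset (filter_subset _ _) hWP
  have hTn : n ≤ (I ∪ W).card := hcon.trans (card_le_card subset_union_left)
  have hlt := hNo _ hTP hTn
  have hsub : W ⊆ ext (I ∪ W) := by
    intro w hw
    obtain ⟨j, hj, rfl⟩ := mem_image.1 hw
    obtain ⟨hj1, hj2⟩ := mem_Ico.1 hj
    have hside : ∀ e, i ≤ e → e + 1 < i + k → ∀ z ∈ I ∪ W, z ≠ x e → z ≠ x (e + 1) →
        0 < (1:ℝ) * sd σ x e z := by
      intro e he1 he2 z hz hz1 hz2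
      rw [one_mul]
      rcases mem_union.1 hz with hz | hz
      · exact (mem_filter.1 hz).2 e he1 he2
      · obtain ⟨a, ha, rfl⟩ := mem_image.1 hz
        obtain ⟨ha1, ha2⟩ := mem_Ico.1 ha
        refine h.sd_pos (by omega) (by omega) ?_ ?_
        · rintro rfl; exact hz1 rfl
        · rintro rfl; exact hz2 rfl
    refine mem_filter.2 ⟨mem_union_right _ hw, ?_⟩
    rcases Nat.lt_or_ge (j + 1) (i + k) with h1 | h1
    · exact (h.ext_of_edge (e := j) (by omega) _ 1 (hside j hj1 h1)).1
    · obtain ⟨e, rfl⟩ : ∃ e, j = e + 1 := ⟨j - 1, by omega⟩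
      exact (h.ext_of_edge (e := e) (by omega) _ 1 (hside e (by omega) (by omega))).2
  have := card_le_card hsub
  omega

open Classical in
noncomputable def dl (P : Finset (ℝ × ℝ)) (σ : ℝ) (x : ℕ → ℝ × ℝ) (j : ℕ) : ℕ :=
  (P.filter (fun z => ¬ (0 < sd σ x j z ↔ 0 < sd σ x (j + 1) z))).card

open Classical in
noncomputable def BB (P : Finset (ℝ × ℝ)) (σ : ℝ) (x : ℕ → ℝ × ℝ) (j : ℕ) : Finset (ℝ × ℝ) :=
  P.filter (fun z => 0 < sd σ x j z)

open Classical in
lemma IsChain.cap {σ : ℝ} {L : ℕ} {x : ℕ → ℝ × ℝ} (h : IsChain σ L x) {P : Finset (ℝ × ℝ)}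
    (hxP : ∀ i < L, x i ∈ P) {k n i : ℕ} (hk : 2 ≤ k) (hik : i + k ≤ L)
    (hNo : ∀ T ⊆ P, n ≤ T.card → (ext T).card < k) :
    (BB P σ x i).card + 1 ≤ n + ∑ a ∈ range (k - 2), dl P σ x (i + a) := by
  have hw := h.window hxP hk hik hNo
  set I := P.filter (fun z => ∀ j, i ≤ j → j + 1 < i + k → 0 < sd σ x j z) with hI
  have hsub : BB P σ x i ⊆ I ∪ (range (k - 2)).biUnion
      (fun a => P.filter (fun z => ¬ (0 < sd σ x (i + a) z ↔ 0 < sd σ x (i + a + 1) z))) := by
    intro z hz
    obtain ⟨hzP, hz0⟩ := mem_filter.1 hz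
    by_cases hall : ∀ a ∈ range (k - 2), (0 < sd σ x (i + a) z ↔ 0 < sd σ x (i + a + 1) z)
    · refine mem_union_left _ (mem_filter.2 ⟨hzP, ?_⟩)
      have : ∀ a, a + 1 < k → 0 < sd σ x (i + a) z := by
        intro a
        induction a with
        | zero => intro _; simpa using hz0
        | succ a ih =>
          intro ha
          exact (hall a (mem_range.2 (by omega))).1 (ih (by omega))
      intro j hj1 hj2
      obtain ⟨a, rfl⟩ := Nat.exists_eq_add_of_le hj1
      exact this a (by omega)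
    · push Not at hall
      obtain ⟨a, ha, hne⟩ := hall
      refine mem_union_right _ (mem_biUnion.2 ⟨a, ha, mem_filter.2 ⟨hzP, ?_⟩⟩)
      intro hiff
      rcases hne with h1 | h1
      · exact absurd (hiff.1 h1.1) (not_lt.2 h1.2)
      · exact absurd (hiff.2 h1.2) (not_lt.2 h1.1)
  have h1 := card_le_card hsub
  have h2 := card_union_le I ((range (k - 2)).biUnion
      (fun a => P.filter (fun z => ¬ (0 < sd σ x (i + a) z ↔ 0 < sd σ x (i + a + 1) z))))
  have h3 : ((range (k - 2)).biUnion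
      (fun a => P.filter (fun z => ¬ (0 < sd σ x (i + a) z ↔ 0 < sd σ x (i + a + 1) z)))).card
      ≤ ∑ a ∈ range (k - 2), dl P σ x (i + a) := card_biUnion_le
  omega

open Classical in
lemma IsChain.sum_dl {σ : ℝ} {L : ℕ} {x : ℕ → ℝ × ℝ} (h : IsChain σ L x) (P : Finset (ℝ × ℝ)) :
    ∑ j ∈ range (L - 2), dl P σ x j ≤ 2 * P.card := by
  unfold dl
  simp only [card_filter]
  rw [sum_comm]
  calc ∑ z ∈ P, ∑ j ∈ range (L - 2), (if ¬ (0 < sd σ x j z ↔ 0 < sd σ x (j + 1) z) then 1 else 0)
      ≤ ∑ _z ∈ P, 2 := sum_le_sum fun z _ => by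
        rw [← card_filter]
        convert h.changes_pt z
    _ = 2 * P.card := by simp [mul_comm]

open Classical in
/-- few indices are bad -/
lemma IsChain.bad {σ : ℝ} {L : ℕ} {x : ℕ → ℝ × ℝ} (h : IsChain σ L x) (P : Finset (ℝ × ℝ))
    {k D : ℕ} (hk : 2 ≤ k) (hkL : k ≤ L) :
    ((range (L - k + 1)).filter (fun i => D < ∑ a ∈ range (k - 2), dl P σ x (i + a))).card * (D + 1)
      ≤ 2 * (k - 2) * P.card := by
  have h1 : ((range (L - k + 1)).filter
      (fun i => D < ∑ a ∈ range (k - 2), dl P σ x (i + a))).card * (D + 1)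
      ≤ ∑ i ∈ range (L - k + 1), ∑ a ∈ range (k - 2), dl P σ x (i + a) := by
    rw [← smul_eq_mul, ← sum_const]
    calc _ ≤ ∑ i ∈ (range (L - k + 1)).filter
          (fun i => D < ∑ a ∈ range (k - 2), dl P σ x (i + a)),
            ∑ a ∈ range (k - 2), dl P σ x (i + a) :=
          sum_le_sum fun i hi => (mem_filter.1 hi).2
      _ ≤ _ := sum_le_sum_of_subset (filter_subset _ _)
  refine h1.trans ?_
  rw [sum_comm]
  have h2 : ∀ a ∈ range (k - 2), ∑ i ∈ range (L - k + 1), dl P σ x (i + a) ≤ 2 * P.card := by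
    intro a ha
    refine le_trans ?_ (h.sum_dl P)
    have : ∑ i ∈ range (L - k + 1), dl P σ x (i + a)
        = ∑ j ∈ (range (L - k + 1)).map (addRightEmbedding a), dl P σ x j := by
      rw [sum_map]; rfl
    rw [this]
    refine sum_le_sum_of_subset ?_
    intro j hj
    obtain ⟨i, hi, rfl⟩ := mem_map.1 hj
    have := mem_range.1 hi
    have := mem_range.1 ha
    simp only [addRightEmbedding_apply, mem_range]
    omega
  calc _ ≤ ∑ _a ∈ range (k - 2), 2 * P.card := sum_le_sum h2
    _ = 2 * (k - 2) * P.card := by simp; ring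

end Pool.Agent.Helper837.ChainExt
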