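import Mathlib
import Pool.Agent.Helper837.ChainGeo

set_option autoImplicit false

namespace Pool.Agent.Helper837.ChainExt

open Finset Pool.Agent.Helper837.FlagChain

lemma GP.sd_ne {P : Finset (ℝ × ℝ)} (hP : GP P) {σ : ℝ} {L : ℕ} {x : ℕ → ℝ × ℝ}
    (h : IsChain σ L x) (hxP : ∀ i < L, x i ∈ P) {i : ℕ} (hi : i + 1 < L) {z : ℝ × ℝ} (hz : z ∈ P)
    (h0 : sd σ x i z = 0) : z = x i ∨ z = x (i + 1) := by
  by_contra hcon
  push Not at hcon
  have hne : x i ≠ x (i + 1) := fun he => by
    have := h.inj (i := i) (j := i + 1) (by omega) hi he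
    omega
  have := hP.2 (x i) (hxP i (by omega)) (x (i + 1)) (hxP _ hi) z hz hne hcon.1.symm hcon.2.symm
  apply this
  unfold sd at h0
  rcases mul_eq_zero.1 h0 with h1 | h1
  · rcases h.hσ with h2 | h2 <;> rw [h2] at h1 <;> norm_num at h1
  · exact h1

open Classical in
/-- a lexicographic maximum is extreme -/
lemma exists_ext_ge (T : Finset (ℝ × ℝ)) (t : ℝ) {p : ℝ × ℝ} (hp : p ∈ T) :
    ∃ v ∈ ext T, hh p t ≤ hh v t := by
  obtain ⟨u, hu, humax⟩ := exists_max_image T (fun z => hh z t) ⟨p, hp⟩
  have hne : (T.filter (fun z => hh z t = hh u t)).Nonempty := ⟨u, mem_filter.2 ⟨hu, rfl⟩⟩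
  obtain ⟨v, hv, hvmax⟩ := exists_max_image _ (fun z => hh z (t + Real.pi / 2)) hne
  obtain ⟨hvT, hvu⟩ := mem_filter.1 hv
  refine ⟨v, mem_filter.2 ⟨hvT, ?_⟩, ?_⟩
  · refine not_mem_hull T v (Real.cos t) (Real.sin t) (Real.cos (t + Real.pi / 2))
      (Real.sin (t + Real.pi / 2)) ?_
    intro z hz hzv
    have e1 : ∀ w : ℝ × ℝ, Real.cos t * w.1 + Real.sin t * w.2 = hh w t := by
      intro w; unfold hh; ring
    have e2 : ∀ w : ℝ × ℝ, Real.cos (t + Real.pi / 2) * w.1 + Real.sin (t + Real.pi / 2) * w.2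
        = hh w (t + Real.pi / 2) := by
      intro w; unfold hh; ring
    rw [e1, e1, e2, e2]
    have h1 : hh z t ≤ hh v t := by rw [hvu]; exact humax z hz
    rcases h1.lt_or_eq with h1 | h1
    · exact Or.inl h1
    · right
      refine ⟨h1, ?_⟩
      have h2 : hh z (t + Real.pi / 2) ≤ hh v (t + Real.pi / 2) :=
        hvmax z (mem_filter.2 ⟨hz, by rw [h1, hvu]⟩)
      rcases h2.lt_or_eq with h2 | h2
      · exact h2
      · exfalso
        apply hzv
        unfold hh at h1 h2
        rw [Real.cos_add_pi_div_two, Real.sin_add_pi_div_two] at h2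
        have hc := Real.sin_sq_add_cos_sq t
        have a1 : z.1 - v.1 = 0 := by
          have : (z.1 - v.1) * (Real.sin t ^ 2 + Real.cos t ^ 2) = 0 := by
            linear_combination (Real.cos t) * h1 - (Real.sin t) * h2
          rw [hc, mul_one] at this; exact this
        have a2 : z.2 - v.2 = 0 := by
          have : (z.2 - v.2) * (Real.sin t ^ 2 + Real.cos t ^ 2) = 0 := by
            linear_combination (Real.sin t) * h1 + (Real.cos t) * h2
          rw [hc, mul_one] at this; exact this
        exact Prod.ext (by linarith) (by linarith)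
  · rw [hvu]; exact humax p hp

open Classical in
theorem core {P : Finset (ℝ × ℝ)} (hP : GP P) (k n l D b : ℕ) (hk : 3 ≤ k) (hkL : k ≤ l + 2)
    (hn : 1 ≤ n) (hNo : ∀ T ⊆ P, n ≤ T.card → (ext T).card < k)
    (hA : (k / 2 + 1) * (n + D) * (l + 2) ≤
      (P.card - 2 ^ (l * l)) * (l + 2 - k + 1 - b - 2 * (k / 2 + 1)))
    (hB : 2 * (k - 2) * P.card ≤ b * (D + 1))
    (hC : (k / 2 + 1) * n + (k / 2) * D ≤ P.card) : False := by
  obtain ⟨r, σ, x, hch, hxP, hinj, hcard⟩ := decomposition l _ P rfl hP
  set L := l + 2 with hL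
  set q := L - k + 1 with hq
  set s := k / 2 + 1 with hs
  set good : Fin r × Fin q → Prop := fun p =>
    ∑ a ∈ range (k - 2), dl P (σ p.1) (x p.1) (p.2.1 + a) ≤ D with hgood
  -- number of good edges
  have hbadc : ∀ c : Fin r, ((univ : Finset (Fin q)).filter (fun i => ¬ good (c, i))).card ≤ b := by
    intro c
    have h1 := (hch c).bad P (k := k) (D := D) (by omega) hkL
    have h2 : ((univ : Finset (Fin q)).filter (fun i => ¬ good (c, i))).card ≤
        ((range (L - k + 1)).filter
          (fun i => D < ∑ a ∈ range (k - 2), dl P (σ c) (x c) (i + a))).card := by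
      refine card_le_card_of_injOn (fun i => i.1) ?_ ?_
      · intro i hi
        have hi' := (mem_filter.1 (mem_coe.1 hi)).2
        simp only [hgood, not_le] at hi'
        exact mem_coe.2 (mem_filter.2 ⟨mem_range.2 i.2, hi'⟩)
      · intro i _ j _ hij
        exact Fin.ext hij
    have h3 : ((univ : Finset (Fin q)).filter (fun i => ¬ good (c, i))).card * (D + 1)
        ≤ b * (D + 1) := (Nat.mul_le_mul_right _ h2).trans (h1.trans hB)
    exact Nat.le_of_mul_le_mul_right h3 (Nat.succ_pos D)
  have hbad : ((univ : Finset (Fin r × Fin q)).filter (fun p => ¬ good p)).card ≤ r * b := by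
    have : ((univ : Finset (Fin r × Fin q)).filter (fun p => ¬ good p)).card
        = ∑ c : Fin r, ((univ : Finset (Fin q)).filter (fun i => ¬ good (c, i))).card := by
      simp only [card_filter]
      rw [← univ_product_univ, sum_product]
    rw [this]
    calc _ ≤ ∑ _c : Fin r, b := sum_le_sum fun c _ => hbadc c
      _ = r * b := by simp
  have hι : r * (q - b) ≤ Fintype.card {p : Fin r × Fin q // good p} := by
    rw [Fintype.card_subtype]
    have h1 : ((univ : Finset (Fin r × Fin q)).filter (fun p => good p)).card +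
        ((univ : Finset (Fin r × Fin q)).filter (fun p => ¬ good p)).card =
        (univ : Finset (Fin r × Fin q)).card := by
      convert card_filter_add_card_filter_not (s := (univ : Finset (Fin r × Fin q))) good
    have h2 : (univ : Finset (Fin r × Fin q)).card = r * q := by simp
    have h3 : r * (q - b) ≤ ((univ : Finset (Fin r × Fin q)).filter (fun p => good p)).card := by
      rw [Nat.mul_sub]
      omega
    convert h3
  -- flags
  have hidx : ∀ p : {p : Fin r × Fin q // good p}, p.1.2.1 + 1 < L := by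
    intro p; have := p.1.2.2; omega
  have hfl : ∀ p : {p : Fin r × Fin q // good p}, ∃ F : Fl,
      (∀ s, Mx F s = max (hh (x p.1.1 p.1.2.1) s) (hh (x p.1.1 (p.1.2.1 + 1)) s)) ∧
      ∀ z, F.K * (hh z F.t - Mx F F.t) = sd (σ p.1.1) (x p.1.1) p.1.2.1 z := fun p =>
    (hch p.1.1).edge_flag (hidx p)
  choose F hF1 hF2 using hfl
  set S : {p : Fin r × Fin q // good p} → ℝ × ℝ → ℝ := fun e z =>
    sd (σ e.1.1) (x e.1.1) e.1.2.1 z with hS
  have hpos : ∀ e z, 0 < S e z ↔ Mx (F e) (F e).t < hh z (F e).t := by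
    intro e z
    rw [hS]; simp only
    rw [← hF2 e z, mul_pos_iff_of_pos_left (F e).hK]
    constructor <;> intro h <;> linarith
  have hzero : ∀ e z, S e z = 0 ↔ hh z (F e).t = Mx (F e) (F e).t := by
    intro e z
    rw [hS]; simp only
    rw [← hF2 e z, mul_eq_zero]
    constructor
    · rintro (h | h)
      · exact absurd h (F e).hK.ne'
      · linarith
    · intro h; right; linarith
  -- if two edges share a point then one endpoint of the second is in the cap of the first
  have hshare : ∀ e f : {p : Fin r × Fin q // good p}, e ≠ f → ∀ u v, (u = f.1.2.1 ∨ u = f.1.2.1 + 1) →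
      (v = e.1.2.1 ∨ v = e.1.2.1 + 1) → x f.1.1 u = x e.1.1 v →
      (0 < S e (x f.1.1 f.1.2.1) ∨ 0 < S e (x f.1.1 (f.1.2.1 + 1))) := by
    intro e f hef u v hu hv huv
    have he := hidx e
    have hf := hidx f
    obtain ⟨hc, huv'⟩ := hinj f.1.1 e.1.1 u (by omega) v (by omega) huv
    have hij : f.1.2.1 ≠ e.1.2.1 := by
      intro h
      apply hef
      apply Subtype.ext
      exact Prod.ext hc.symm (Fin.ext h.symm)
    rw [hc]
    rcases Nat.lt_or_ge f.1.2.1 e.1.2.1 with h | h
    · left
      exact (hch e.1.1).sd_pos he (by omega) (by omega) (by omega)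
    · right
      exact (hch e.1.1).sd_pos he (by omega) (by omega) (by omega)
  have H1 : ∀ e f, e ≠ f → Mx (F f) (F e).t ≠ Mx (F e) (F e).t := by
    intro e f hef heq
    have hf := hidx f
    have h1 := hF1 f (F e).t
    have hle1 : hh (x f.1.1 f.1.2.1) (F e).t ≤ Mx (F e) (F e).t := by
      rw [← heq, h1]; exact le_max_left _ _
    have hle2 : hh (x f.1.1 (f.1.2.1 + 1)) (F e).t ≤ Mx (F e) (F e).t := by
      rw [← heq, h1]; exact le_max_right _ _
    have hcase : ∃ u, (u = f.1.2.1 ∨ u = f.1.2.1 + 1) ∧ hh (x f.1.1 u) (F e).t = Mx (F e) (F e).t := by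
      rcases max_choice (hh (x f.1.1 f.1.2.1) (F e).t) (hh (x f.1.1 (f.1.2.1 + 1)) (F e).t) with h | h
      · exact ⟨_, Or.inl rfl, by rw [← heq, h1, h]⟩
      · exact ⟨_, Or.inr rfl, by rw [← heq, h1, h]⟩
    obtain ⟨u, hu, hu2⟩ := hcase
    have hz := (hzero e _).2 hu2
    have huL : u < L := by omega
    have hcon := hP.sd_ne (hch e.1.1) (hxP e.1.1) (hidx e) (hxP f.1.1 u huL) hz
    have hsh : 0 < S e (x f.1.1 f.1.2.1) ∨ 0 < S e (x f.1.1 (f.1.2.1 + 1)) := by
      rcases hcon with h | h
      · exact hshare e f hef u _ hu (Or.inl rfl) h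
      · exact hshare e f hef u _ hu (Or.inr rfl) h
    rcases hsh with h | h
    · exact absurd ((hpos e _).1 h) (not_lt.2 hle1)
    · exact absurd ((hpos e _).1 h) (not_lt.2 hle2)
  have hcap : ∀ e : {p : Fin r × Fin q // good p},
      (P.filter (fun z => 0 < S e z)).card + 1 ≤ n + D := by
    intro e
    have h1 := (hch e.1.1).cap (P := P) (hxP e.1.1) (k := k) (n := n) (i := e.1.2.1) (by omega)
      (by have := e.1.2.2; omega) hNo
    have h2 := e.2
    simp only [hgood] at h2
    have h3 : (P.filter (fun z => 0 < S e z)).card = (BB P (σ e.1.1) (x e.1.1) e.1.2.1).card := by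
      unfold BB; congr
    omega
  set m := n + D + 2 * r with hm
  have H2 : ∀ e, ((univ.filter fun f => Mx (F e) (F e).t < Mx (F f) (F e).t).card) + 1 ≤ m := by
    intro e
    have hsub : (univ.filter fun f => Mx (F e) (F e).t < Mx (F f) (F e).t) ⊆
        (univ.filter fun f : {p : Fin r × Fin q // good p} => 0 < S e (x f.1.1 f.1.2.1)) ∪
        (univ.filter fun f : {p : Fin r × Fin q // good p} =>
          ¬ (0 < S e (x f.1.1 f.1.2.1) ↔ 0 < S e (x f.1.1 (f.1.2.1 + 1)))) := by
      intro f hf
      have h1 := (mem_filter.1 hf).2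
      rw [hF1 f, lt_max_iff, ← hpos, ← hpos] at h1
      by_cases h2 : 0 < S e (x f.1.1 f.1.2.1)
      · exact mem_union_left _ (mem_filter.2 ⟨mem_univ _, h2⟩)
      · refine mem_union_right _ (mem_filter.2 ⟨mem_univ _, ?_⟩)
        have h3 := h1.resolve_left h2
        intro h4
        exact h2 (h4.2 h3)
    have hc1 : (univ.filter fun f : {p : Fin r × Fin q // good p} =>
        0 < S e (x f.1.1 f.1.2.1)).card ≤ (P.filter (fun z => 0 < S e z)).card := by
      refine card_le_card_of_injOn (fun f => x f.1.1 f.1.2.1) ?_ ?_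
      · intro f hf
        have h1 := (mem_filter.1 hf).2
        exact mem_coe.2 (mem_filter.2 ⟨hxP _ _ (by have := hidx f; omega), h1⟩)
      · intro f _ g _ hfg
        obtain ⟨h1, h2⟩ := hinj f.1.1 g.1.1 _ (by have := hidx f; omega) _
          (by have := hidx g; omega) hfg
        exact Subtype.ext (Prod.ext h1 (Fin.ext h2))
    have hc2 : (univ.filter fun f : {p : Fin r × Fin q // good p} =>
        ¬ (0 < S e (x f.1.1 f.1.2.1) ↔ 0 < S e (x f.1.1 (f.1.2.1 + 1)))).card ≤ 2 * r := by
      have h1 : (univ.filter fun f : {p : Fin r × Fin q // good p} =>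
          ¬ (0 < S e (x f.1.1 f.1.2.1) ↔ 0 < S e (x f.1.1 (f.1.2.1 + 1)))).card ≤
          ((univ : Finset (Fin r)).sigma (fun c => (range (L - 1)).filter (fun i =>
            ¬ (0 < S e (x c i) ↔ 0 < S e (x c (i + 1)))))).card := by
        refine card_le_card_of_injOn (fun f => ⟨f.1.1, f.1.2.1⟩) ?_ ?_
        · intro f hf
          have h1 := (mem_filter.1 hf).2
          refine mem_coe.2 (mem_sigma.2 ⟨mem_univ _, mem_filter.2 ⟨mem_range.2 ?_, h1⟩⟩)
          have := hidx f
          show f.1.2.1 < L - 1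
          omega
        · intro f _ g _ hfg
          simp only [Sigma.mk.injEq] at hfg
          obtain ⟨h1, h2⟩ := hfg
          exact Subtype.ext (Prod.ext h1 (Fin.ext (eq_of_heq h2)))
      refine h1.trans ?_
      rw [card_sigma]
      calc _ ≤ ∑ _c : Fin r, 2 := sum_le_sum fun c _ => by
            have := (hch c).changes_line (Real.cos (F e).t) (Real.sin (F e).t) (Mx (F e) (F e).t)
            refine le_trans (card_le_card ?_) this
            intro i hi
            simp only [mem_filter] at hi ⊢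
            refine ⟨hi.1, ?_⟩
            have h2 := hi.2
            rw [hpos, hpos] at h2
            intro h3
            apply h2
            unfold hh
            rw [mul_comm (x c i).1, mul_comm (x c i).2, mul_comm (x c (i+1)).1,
              mul_comm (x c (i+1)).2]
            exact h3
        _ = 2 * r := by simp [mul_comm]
    have h1 := card_le_card hsub
    have h2 := card_union_le (univ.filter fun f : {p : Fin r × Fin q // good p} =>
        0 < S e (x f.1.1 f.1.2.1)) (univ.filter fun f : {p : Fin r × Fin q // good p} =>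
        ¬ (0 < S e (x f.1.1 f.1.2.1) ↔ 0 < S e (x f.1.1 (f.1.2.1 + 1))))
    have h3 := hcap e
    omega
  -- numeric condition
  have hnum : s * m ≤ Fintype.card {p : Fin r × Fin q // good p} := by
    refine le_trans ?_ hι
    have h1 : P.card - 2 ^ (l * l) ≤ r * L := by omega
    have h2 : s * (n + D) * L ≤ r * (q - b - 2 * s) * L := by
      calc s * (n + D) * L ≤ (P.card - 2 ^ (l * l)) * (q - b - 2 * s) := hA
        _ ≤ (r * L) * (q - b - 2 * s) := Nat.mul_le_mul_right _ h1
        _ = r * (q - b - 2 * s) * L := by ring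
    have h3 : s * (n + D) ≤ r * (q - b - 2 * s) := Nat.le_of_mul_le_mul_right h2 (by omega)
    have h4 : 0 < s * (n + D) := Nat.mul_pos (by omega) (by omega)
    have h5 : 2 * s ≤ q - b := by
      by_contra h
      have : q - b - 2 * s = 0 := by omega
      rw [this] at h3
      omega
    have h6 : r * (q - b - 2 * s) + r * (2 * s) = r * (q - b) := by
      rw [← Nat.mul_add]; congr 1; omega
    calc s * m = s * (n + D) + r * (2 * s) := by rw [hm]; ring
      _ ≤ r * (q - b) := by omega
  obtain ⟨W0, hW0c, hW0⟩ := exists_compat F m s (by omega) H1 H2 hnum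
  have hW0ne : W0.Nonempty := card_pos.1 (by omega)
  obtain ⟨p, hp⟩ := hW0ne
  set W := W0.erase p with hW
  have hWc : W.card = k / 2 := by rw [hW, card_erase_of_mem hp, hW0c]; omega
  set T := P.filter (fun z => ∀ e ∈ W, ¬ 0 < S e z) with hT
  have hTc : n ≤ T.card := by
    have hsub : P ⊆ T ∪ W.biUnion (fun e => P.filter (fun z => 0 < S e z)) := by
      intro z hz
      by_cases h : ∀ e ∈ W, ¬ 0 < S e z
      · exact mem_union_left _ (mem_filter.2 ⟨hz, h⟩)
      · push Not at h
        obtain ⟨e, he, hez⟩ := h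
        exact mem_union_right _ (mem_biUnion.2 ⟨e, he, mem_filter.2 ⟨hz, hez⟩⟩)
    have h1 := card_le_card hsub
    have h2 := card_union_le T (W.biUnion (fun e => P.filter (fun z => 0 < S e z)))
    have h3 : (W.biUnion (fun e => P.filter (fun z => 0 < S e z))).card ≤ W.card * (n + D) := by
      refine card_biUnion_le_card_mul _ _ _ ?_
      intro e _
      have := hcap e
      omega
    rw [hWc] at h3
    have h4 : (k / 2) * (n + D) = (k / 2) * n + (k / 2) * D := by ring
    have h5 : s * n = (k / 2) * n + n := by rw [hs]; ring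
    omega
  have hext := hNo T (filter_subset _ _) hTc
  -- endpoints of the chosen edges are in T
  have hSle : ∀ e ∈ W0, ∀ f ∈ W0, ∀ u, (u = f.1.2.1 ∨ u = f.1.2.1 + 1) → ¬ 0 < S e (x f.1.1 u) := by
    intro e he f hf u hu
    by_cases hef : e = f
    · subst hef
      rcases hu with rfl | rfl
      · rw [show S e (x e.1.1 e.1.2.1) = 0 from sd_left _ _ _]; exact lt_irrefl _
      · rw [show S e (x e.1.1 (e.1.2.1 + 1)) = 0 from sd_right _ _ _]; exact lt_irrefl _
    · have h1 := (hW0 e he f hf hef).1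
      rw [hF1 f] at h1
      rw [hpos, not_lt]
      rcases hu with rfl | rfl
      · exact (le_max_left _ _).trans h1
      · exact (le_max_right _ _).trans h1
  have hWW0 : ∀ e ∈ W, e ∈ W0 := fun e he => (mem_erase.1 he).2
  have hmemT : ∀ f ∈ W0, ∀ u, (u = f.1.2.1 ∨ u = f.1.2.1 + 1) → x f.1.1 u ∈ T := by
    intro f hf u hu
    have := hidx f
    refine mem_filter.2 ⟨hxP _ _ (by omega), ?_⟩
    intro e he
    exact hSle e (hWW0 e he) f hf u hu
  -- they are extreme
  have hside : ∀ e ∈ W, ∀ z ∈ T, z ≠ x e.1.1 e.1.2.1 → z ≠ x e.1.1 (e.1.2.1 + 1) →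
      0 < (-1 : ℝ) * sd (σ e.1.1) (x e.1.1) e.1.2.1 z := by
    intro e he z hz h1 h2
    have h3 := (mem_filter.1 hz).2 e he
    have h4 : S e z ≠ 0 := by
      intro h0
      rcases hP.sd_ne (hch e.1.1) (hxP e.1.1) (hidx e) (mem_filter.1 hz).1 h0 with h | h
      · exact h1 h
      · exact h2 h
    have h5 : S e z < 0 := lt_of_le_of_ne (not_lt.1 h3) h4
    have : sd (σ e.1.1) (x e.1.1) e.1.2.1 z < 0 := h5
    linarith
  set E : Finset (ℝ × ℝ) := W.biUnion (fun e => {x e.1.1 e.1.2.1, x e.1.1 (e.1.2.1 + 1)}) with hE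
  have hEext : E ⊆ ext T := by
    intro z hz
    obtain ⟨e, he, hz⟩ := mem_biUnion.1 hz
    have h1 := (hch e.1.1).ext_of_edge (hidx e) T (-1) (hside e he)
    rcases mem_insert.1 hz with rfl | hz
    · exact mem_filter.2 ⟨hmemT e (hWW0 e he) _ (Or.inl rfl), h1.1⟩
    · rw [mem_singleton] at hz
      subst hz
      exact mem_filter.2 ⟨hmemT e (hWW0 e he) _ (Or.inr rfl), h1.2⟩
  have hEc : E.card = 2 * (k / 2) := by
    rw [hE, card_biUnion]
    · rw [sum_congr rfl (g := fun _ => 2)]
      · rw [sum_const, hWc, smul_eq_mul, mul_comm]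
      · intro e _
        rw [card_pair]
        intro h
        have := (hch e.1.1).inj (i := e.1.2.1) (j := e.1.2.1 + 1) (by have := hidx e; omega)
          (hidx e) h
        omega
    · intro e he f hf hef
      rw [Function.onFun, disjoint_left]
      intro z hz1 hz2
      have hv : ∃ v, (v = e.1.2.1 ∨ v = e.1.2.1 + 1) ∧ z = x e.1.1 v := by
        rcases mem_insert.1 hz1 with h | h
        · exact ⟨_, Or.inl rfl, h⟩
        · exact ⟨_, Or.inr rfl, mem_singleton.1 h⟩
      have hu : ∃ u, (u = f.1.2.1 ∨ u = f.1.2.1 + 1) ∧ z = x f.1.1 u := by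
        rcases mem_insert.1 hz2 with h | h
        · exact ⟨_, Or.inl rfl, h⟩
        · exact ⟨_, Or.inr rfl, mem_singleton.1 h⟩
      obtain ⟨v, hv1, hv2⟩ := hv
      obtain ⟨u, hu1, hu2⟩ := hu
      rcases hshare e f hef u v hu1 hv1 (hu2.symm.trans hv2) with h | h
      · exact hSle e (hWW0 e he) f (hWW0 f hf) _ (Or.inl rfl) h
      · exact hSle e (hWW0 e he) f (hWW0 f hf) _ (Or.inr rfl) h
  -- one more extreme point
  obtain ⟨v, hv, hvge⟩ := exists_ext_ge T (F p).t (hmemT p hp _ (Or.inl rfl))
  have hvp : Mx (F p) (F p).t ≤ hh v (F p).t := by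
    refine le_trans (le_of_eq ?_) hvge
    exact ((hzero p _).1 (sd_left _ _ _)).symm
  have hvE : v ∉ E := by
    intro h
    obtain ⟨e, he, hz⟩ := mem_biUnion.1 h
    obtain ⟨hne, heW⟩ := mem_erase.1 he
    have h1 := (hW0 p hp e heW hne.symm).1
    have h2 := H1 p e hne.symm
    have h3 : Mx (F e) (F p).t < Mx (F p) (F p).t := lt_of_le_of_ne h1 h2
    have h4 : hh v (F p).t ≤ Mx (F e) (F p).t := by
      rw [hF1 e]
      rcases mem_insert.1 hz with h | h
      · rw [h]; exact le_max_left _ _
      · rw [mem_singleton.1 h]; exact le_max_right _ _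
    linarith
  have hfin : insert v E ⊆ ext T := insert_subset hv hEext
  have h1 := card_le_card hfin
  rw [card_insert_of_notMem hvE, hEc] at h1
  omega

end Pool.Agent.Helper837.ChainExt
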