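import Mathlib

/-!
# Point sequences all of whose large index sets surround a point (Horton/Valtr type sets)

`Good p N M K` : for every modulus `n` coprime to `M`, and residues `r, r'`, every set `A` of at least
`K` indices `< N` in the class `r mod n` has an index `j < N` in the class `r' mod n` such that
`p j` is interior to the convex hull of the points `p i`, `i ∈ A \ {j}`.
-/

open Set Filter Topology Pointwise

namespace Pool.Agent.Helper837.Horton

variable {E : Type*} [NormedAddCommGroup E] [NormedSpace ℝ E]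

/-- See the header of the file. -/
def Good (p : ℕ → E) (N M K : ℕ) : Prop :=
  ∀ n : ℕ, 0 < n → Nat.Coprime n M → ∀ r r' : ℕ, ∀ A : Finset ℕ,
    (∀ i ∈ A, i < N ∧ i ≡ r [MOD n]) → K ≤ A.card →
    ∃ j, j < N ∧ j ≡ r' [MOD n] ∧
      p j ∈ interior (convexHull ℝ (p '' ((A.erase j : Finset ℕ) : Set ℕ)))

lemma good_base (N : ℕ) : Good (fun i : ℕ => (i : ℝ)) N 1 3 := by
  intro n hn _ r r' A hA hcard
  have hne : A.Nonempty := by
    rw [← Finset.card_pos]; omega
  set a := A.min' hne with ha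
  set c := A.max' hne with hc
  have haA : a ∈ A := Finset.min'_mem _ _
  have hcA : c ∈ A := Finset.max'_mem _ _
  obtain ⟨b, hb⟩ : ((A.erase a).erase c).Nonempty := by
    rw [← Finset.card_pos]
    have h1 := Finset.pred_card_le_card_erase (s := A) (a := a)
    have h2 := Finset.pred_card_le_card_erase (s := A.erase a) (a := c)
    omega
  rw [Finset.mem_erase, Finset.mem_erase] at hb
  obtain ⟨hbc, hba, hbA⟩ := hb
  have hab : a < b := lt_of_le_of_ne (Finset.min'_le _ _ hbA) (Ne.symm hba)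
  have hbc' : b < c := lt_of_le_of_ne (Finset.le_max' _ _ hbA) hbc
  have hmod : a ≡ b [MOD n] := ((hA a haA).2).trans ((hA b hbA).2).symm
  have hdvd : n ∣ b - a := (Nat.modEq_iff_dvd' hab.le).1 hmod
  have hle : n ≤ b - a := Nat.le_of_dvd (by omega) hdvd
  set s := (r' + (a + 1) * (n - 1)) % n with hs
  have hsn : s < n := Nat.mod_lt _ hn
  set j := a + 1 + s with hj
  have hjb : j ≤ b := by omega
  have hjr : j ≡ r' [MOD n] := by
    have h1 : s ≡ r' + (a + 1) * (n - 1) [MOD n] := Nat.mod_modEq _ _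
    have h2 : j ≡ a + 1 + (r' + (a + 1) * (n - 1)) [MOD n] := Nat.ModEq.add_left _ h1
    refine h2.trans ?_
    have h3 : a + 1 + (r' + (a + 1) * (n - 1)) = r' + n * (a + 1) := by
      obtain ⟨k, rfl⟩ : ∃ k, n = k + 1 := ⟨n - 1, by omega⟩
      simp only [Nat.add_sub_cancel]
      ring
    rw [h3]
    simp [Nat.ModEq]
  refine ⟨j, ?_, hjr, ?_⟩
  · have := (hA c hcA).1
    omega
  · have haj : a ∈ A.erase j := Finset.mem_erase.2 ⟨by omega, haA⟩
    have hcj : c ∈ A.erase j := Finset.mem_erase.2 ⟨by omega, hcA⟩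
    have hsub : Icc (a : ℝ) (c : ℝ) ⊆
        convexHull ℝ ((fun i : ℕ => (i : ℝ)) '' ((A.erase j : Finset ℕ) : Set ℕ)) := by
      rw [← segment_eq_Icc (by exact_mod_cast (hab.trans hbc').le)]
      exact (convex_convexHull ℝ _).segment_subset
        (subset_convexHull ℝ _ ⟨a, haj, rfl⟩) (subset_convexHull ℝ _ ⟨c, hcj, rfl⟩)
    apply interior_mono hsub
    rw [interior_Icc]
    constructor
    · show (a : ℝ) < (j : ℝ)
      exact_mod_cast (by omega : a < j)
    · show (j : ℝ) < (c : ℝ)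
      exact_mod_cast (by omega : j < c)

/-- `j` has a point of `conv {(p i, h i) : i ∈ D}` vertically below (`s = 1`) or above (`s = -1`). -/
def Side (p : ℕ → E) (h : ℕ → ℝ) (s : ℝ) (j : ℕ) (D : Finset ℕ) : Prop :=
  ∃ y : ℝ, s * y < s * h j ∧
    (p j, y) ∈ convexHull ℝ ((fun i => (p i, h i)) '' (D : Set ℕ))

lemma Side.mono {p : ℕ → E} {h : ℕ → ℝ} {s : ℝ} {j : ℕ} {D D' : Finset ℕ} (hD : D ⊆ D')
    (hs : Side p h s j D) : Side p h s j D' := by
  obtain ⟨y, hy, hm⟩ := hs
  exact ⟨y, hy, convexHull_mono (Set.image_mono (by exact_mod_cast hD)) hm⟩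

lemma Side.shift {p : ℕ → E} {h h' : ℕ → ℝ} {s : ℝ} {j : ℕ} {D : Finset ℕ} (τ : ℝ)
    (hD : ∀ i ∈ D, h' i = h i + τ) (hj : h' j = h j + τ)
    (hs : Side p h s j D) : Side p h' s j D := by
  obtain ⟨y, hy, hm⟩ := hs
  refine ⟨y + τ, ?_, ?_⟩
  · rw [hj]; linarith [mul_add s y τ, mul_add s (h j) τ]
  · have h1 : ((fun i => (p i, h' i)) '' (D : Set ℕ)) =
        (fun z : E × ℝ => ((0 : E), τ) + z) '' ((fun i => (p i, h i)) '' (D : Set ℕ)) := by
      rw [Set.image_image]
      apply Set.image_congr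
      intro i hi
      rw [hD i hi]
      ext
      · simp
      · simp [add_comm]
    rw [h1]
    have h2 : (fun z : E × ℝ => ((0 : E), τ) + z) '' ((fun i => (p i, h i)) '' (D : Set ℕ)) =
        ((0 : E), τ) +ᵥ ((fun i => (p i, h i)) '' (D : Set ℕ)) := rfl
    rw [h2, convexHull_vadd]
    refine ⟨(p j, y), hm, ?_⟩
    simp [add_comm]

lemma lift_exists {p : ℕ → E} {h : ℕ → ℝ} {D : Finset ℕ} {s H : ℝ} {z : E}
    (hz : z ∈ convexHull ℝ (p '' (D : Set ℕ))) (hD : ∀ i ∈ D, s * h i ≤ H) :
    ∃ y : ℝ, s * y ≤ H ∧ (z, y) ∈ convexHull ℝ ((fun i => (p i, h i)) '' (D : Set ℕ)) := by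
  have h1 : p '' (D : Set ℕ) =
      (LinearMap.fst ℝ E ℝ) '' ((fun i => (p i, h i)) '' (D : Set ℕ)) := by
    rw [Set.image_image]; rfl
  rw [h1, ← LinearMap.image_convexHull] at hz
  obtain ⟨⟨w, y⟩, hw, hwz⟩ := hz
  simp only [LinearMap.fst_apply] at hwz
  subst hwz
  refine ⟨y, ?_, hw⟩
  have hconv : Convex ℝ {q : E × ℝ | s * q.2 ≤ H} := by
    have : {q : E × ℝ | s * q.2 ≤ H} = {q : E × ℝ | (s • LinearMap.snd ℝ E ℝ) q ≤ H} := by
      ext q; simp
    rw [this]
    exact convex_halfSpace_le (LinearMap.isLinear _) H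
  have hsub : (fun i => (p i, h i)) '' (D : Set ℕ) ⊆ {q : E × ℝ | s * q.2 ≤ H} := by
    rintro _ ⟨i, hi, rfl⟩
    exact hD i hi
  exact convexHull_min hsub hconv hw

lemma tilt {p : ℕ → E} {h : ℕ → ℝ} {lam : ℝ} (h0 : 0 < lam) (h1 : lam < 1) {D : Finset ℕ}
    {j a : ℕ} {s H T B : ℝ}
    (hz : (1 - lam)⁻¹ • (p j - lam • p a) ∈ convexHull ℝ (p '' (D : Set ℕ)))
    (hD : ∀ i ∈ D, s * h i ≤ H) (ha : s * h a ≤ H - T) (hj : H - 2 * B ≤ s * h j)
    (hT : 2 * B < lam * T) :
    Side p h s j (insert a D) := by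
  obtain ⟨yz, hyz, hzm⟩ := lift_exists hz hD
  refine ⟨lam * h a + (1 - lam) * yz, ?_, ?_⟩
  · have e : s * (lam * h a + (1 - lam) * yz) = lam * (s * h a) + (1 - lam) * (s * yz) := by ring
    rw [e]
    have i1 : lam * (s * h a) ≤ lam * (H - T) := mul_le_mul_of_nonneg_left ha h0.le
    have i2 : (1 - lam) * (s * yz) ≤ (1 - lam) * H :=
      mul_le_mul_of_nonneg_left hyz (by linarith)
    nlinarith
  · have hsub : (fun i => (p i, h i)) '' (D : Set ℕ) ⊆
        (fun i => (p i, h i)) '' ((insert a D : Finset ℕ) : Set ℕ) :=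
      Set.image_mono (by exact_mod_cast Finset.subset_insert a D)
    have m1 := convexHull_mono hsub hzm
    have m2 : (p a, h a) ∈ convexHull ℝ
        ((fun i => (p i, h i)) '' ((insert a D : Finset ℕ) : Set ℕ)) :=
      subset_convexHull ℝ _ ⟨a, by simp, rfl⟩
    have m3 := (convex_convexHull ℝ ((fun i => (p i, h i)) ''
      ((insert a D : Finset ℕ) : Set ℕ))) m2 m1 h0.le (by linarith : 0 ≤ 1 - lam) (by ring)
    convert m3 using 1
    ext
    · simp only [Prod.fst_add, Prod.smul_fst]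
      rw [smul_smul, mul_inv_cancel₀ (by linarith : (1 - lam) ≠ 0), one_smul]
      abel
    · simp

lemma exists_lam (p : ℕ → E) (N : ℕ) : ∃ lam : ℝ, 0 < lam ∧ lam < 1 ∧
    ∀ D ∈ (Finset.range N).powerset, ∀ j ∈ Finset.range N, ∀ a ∈ Finset.range N,
      p j ∈ interior (convexHull ℝ (p '' (D : Set ℕ))) →
      (1 - lam)⁻¹ • (p j - lam • p a) ∈ convexHull ℝ (p '' (D : Set ℕ)) := by
  have key : ∀ᶠ lam : ℝ in 𝓝[>] 0,
      ∀ D ∈ (Finset.range N).powerset, ∀ j ∈ Finset.range N, ∀ a ∈ Finset.range N,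
      p j ∈ interior (convexHull ℝ (p '' (D : Set ℕ))) →
      (1 - lam)⁻¹ • (p j - lam • p a) ∈ convexHull ℝ (p '' (D : Set ℕ)) := by
    rw [Filter.eventually_all_finset]
    intro D _
    rw [Filter.eventually_all_finset]
    intro j _
    rw [Filter.eventually_all_finset]
    intro a _
    by_cases hj : p j ∈ interior (convexHull ℝ (p '' (D : Set ℕ)))
    · have hc : ContinuousAt (fun lam : ℝ => (1 - lam)⁻¹ • (p j - lam • p a)) 0 := by
        apply ContinuousAt.smul
        · apply ContinuousAt.inv₀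
          · fun_prop
          · norm_num
        · fun_prop
      have h2 : ∀ᶠ lam : ℝ in 𝓝 0, (1 - lam)⁻¹ • (p j - lam • p a) ∈
          convexHull ℝ (p '' (D : Set ℕ)) := by
        apply hc.eventually_mem
        simp only [sub_zero, inv_one, zero_smul, one_smul]
        exact mem_interior_iff_mem_nhds.1 hj
      filter_upwards [nhdsWithin_le_nhds h2] with lam hlam _ using hlam
    · exact Filter.Eventually.of_forall fun _ h => absurd h hj
  have k2 : ∀ᶠ lam : ℝ in 𝓝[>] 0, lam < 1 := by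
    apply nhdsWithin_le_nhds
    exact gt_mem_nhds (by norm_num)
  obtain ⟨lam, h1, h2, h3⟩ := (key.and (k2.and self_mem_nhdsWithin)).exists
  exact ⟨lam, h3, h2, h1⟩


lemma digit_iff {m l c t j : ℕ} (hm : 0 < m) (hc : c < m ^ l) :
    j % m ^ (l + 1) = c + m ^ l * t ↔ j % m ^ l = c ∧ j / m ^ l % m = t := by
  have hpos : 0 < m ^ l := Nat.pow_pos hm
  have h1 : j % m ^ (l + 1) = j % m ^ l + m ^ l * (j / m ^ l % m) := by
    rw [pow_succ, Nat.mod_mul]
  constructor
  · intro h
    have h2 : j % m ^ l = c := by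
      have h3 : j % m ^ (l + 1) % m ^ l = j % m ^ l :=
        Nat.mod_mod_of_dvd _ (pow_dvd_pow m (Nat.le_succ l))
      rw [h, Nat.add_mul_mod_self_left, Nat.mod_eq_of_lt hc] at h3
      exact h3.symm
    refine ⟨h2, ?_⟩
    rw [h1, h2] at h
    exact Nat.eq_of_mul_eq_mul_left hpos (Nat.add_left_cancel h)
  · rintro ⟨h2, h3⟩
    rw [h1, h2, h3]

lemma good_apply {p : ℕ → E} {N M m K : ℕ} (hp : Good p N M K) (hm : 0 < m)
    (hmM : Nat.Coprime m M) {n : ℕ} (hn : 0 < n) (hnM : Nat.Coprime n (M * m)) {l c t t' r : ℕ}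
    (hc : c < m ^ l) (ht' : t' < m) {A : Finset ℕ}
    (hA : ∀ i ∈ A, i < N ∧ i ≡ r [MOD n] ∧ i % m ^ l = c ∧ i / m ^ l % m = t)
    (hcard : K ≤ A.card) (r' : ℕ) :
    ∃ j, j < N ∧ j ≡ r' [MOD n] ∧ j % m ^ l = c ∧ j / m ^ l % m = t' ∧
      p j ∈ interior (convexHull ℝ (p '' ((A.erase j : Finset ℕ) : Set ℕ))) := by
  have hco : Nat.Coprime n (m ^ (l + 1)) :=
    Nat.Coprime.pow_right _ (Nat.Coprime.coprime_mul_left_right hnM)
  have hnM' : Nat.Coprime n M := Nat.Coprime.coprime_mul_right_right hnM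
  have hco2 : Nat.Coprime (n * m ^ (l + 1)) M :=
    Nat.Coprime.mul_left hnM' (Nat.Coprime.pow_left _ hmM)
  obtain ⟨r1, hr1, hr1'⟩ := Nat.chineseRemainder hco r (c + m ^ l * t)
  obtain ⟨r2, hr2, hr2'⟩ := Nat.chineseRemainder hco r' (c + m ^ l * t')
  have hlt : c + m ^ l * t' < m ^ (l + 1) := by
    rw [pow_succ]
    have : m ^ l * t' ≤ m ^ l * (m - 1) := Nat.mul_le_mul_left _ (by omega)
    have h2 : m ^ l * m = m ^ l * (m - 1) + m ^ l := by
      obtain ⟨k, rfl⟩ : ∃ k, m = k + 1 := ⟨m - 1, by omega⟩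
      simp only [Nat.add_sub_cancel]; ring
    omega
  have hpos : 0 < n * m ^ (l + 1) := Nat.mul_pos hn (Nat.pow_pos hm)
  obtain ⟨j, hjN, hj, hjp⟩ := hp (n * m ^ (l + 1)) hpos hco2 r1 r2 A (by
    intro i hi
    obtain ⟨h1, h2, h3, h4⟩ := hA i hi
    refine ⟨h1, ?_⟩
    rw [← Nat.modEq_and_modEq_iff_modEq_mul hco]
    refine ⟨h2.trans hr1.symm, ?_⟩
    refine Nat.ModEq.trans ?_ hr1'.symm
    have h5 := (digit_iff (j := i) (t := t) hm hc).2 ⟨h3, h4⟩
    have h6 : i % m ^ (l + 1) ≡ i [MOD m ^ (l + 1)] := Nat.mod_modEq _ _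
    rw [h5] at h6
    exact h6.symm) hcard
  rw [← Nat.modEq_and_modEq_iff_modEq_mul hco] at hj
  have h7 : j % m ^ (l + 1) = c + m ^ l * t' := by
    have h8 : j ≡ c + m ^ l * t' [MOD m ^ (l + 1)] := hj.2.trans hr2'
    rw [Nat.ModEq, Nat.mod_eq_of_lt hlt] at h8
    exact h8
  obtain ⟨h9, h10⟩ := (digit_iff hm hc).1 h7
  exact ⟨j, hjN, hj.1.trans hr2, h9, h10, hjp⟩

/-- The statement carried through the recursion, for the class `i % m ^ l = c`. -/
def Lev (p : ℕ → E) (N M m K l c : ℕ) (h : ℕ → ℝ) : Prop :=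
  ∀ n : ℕ, 0 < n → Nat.Coprime n (M * m) → ∀ r r' : ℕ, ∀ A : Finset ℕ,
    (∀ i ∈ A, i < N ∧ i ≡ r [MOD n] ∧ i % m ^ l = c) →
    (∀ s : ℝ, (s = 1 ∨ s = -1) → m * K ≤ A.card →
      ∃ j, j < N ∧ j ≡ r' [MOD n] ∧ j % m ^ l = c ∧
        p j ∈ interior (convexHull ℝ (p '' ((A.erase j : Finset ℕ) : Set ℕ))) ∧
        Side p h s j (A.erase j)) ∧
    (3 * m * K ≤ A.card →
      ∃ j, j < N ∧ j ≡ r' [MOD n] ∧ j % m ^ l = c ∧
        p j ∈ interior (convexHull ℝ (p '' ((A.erase j : Finset ℕ) : Set ℕ))) ∧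
        ∀ s : ℝ, (s = 1 ∨ s = -1) → Side p h s j (A.erase j))

lemma lev_combine {p : ℕ → E} {N M m K l c : ℕ} (hm : 2 ≤ m) (hK : 1 ≤ K)
    (hmM : Nat.Coprime m M) (hp : Good p N M K) (g : ℕ → ℕ → ℝ)
    (hg : ∀ c', Lev p N M m K (l + 1) c' (g c')) :
    ∃ h : ℕ → ℝ, Lev p N M m K l c h := by
  have hm0 : 0 < m := by omega
  obtain ⟨lam, hlam0, hlam1, hlam⟩ := exists_lam p N
  -- bound of the heights
  set G : ℕ → ℝ := fun i => g (i % m ^ (l + 1)) i with hG
  set B : ℝ := ∑ i ∈ Finset.range N, |G i| with hB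
  have hB0 : 0 ≤ B := Finset.sum_nonneg fun _ _ => abs_nonneg _
  have hGB : ∀ i < N, |G i| ≤ B := fun i hi =>
    Finset.single_le_sum (f := fun i => |G i|) (fun _ _ => abs_nonneg _) (Finset.mem_range.2 hi)
  set T : ℝ := (2 * B + 1) / lam with hT
  have hT0 : 0 ≤ T := div_nonneg (by linarith) hlam0.le
  have hlT : 2 * B < lam * T := by
    rw [hT, mul_div_cancel₀ _ hlam0.ne']; linarith
  set dig : ℕ → ℕ := fun i => i / m ^ l % m with hdig
  have hdigm : ∀ i, dig i < m := fun i => Nat.mod_lt _ hm0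
  set h : ℕ → ℝ := fun i => G i + T * dig i with hh
  have hsG : ∀ s : ℝ, (s = 1 ∨ s = -1) → ∀ i < N, s * G i ≤ B ∧ -B ≤ s * G i := by
    intro s hs i hi
    have := abs_le.1 (hGB i hi)
    rcases hs with rfl | rfl
    · constructor <;> linarith
    · constructor <;> linarith
  refine ⟨h, ?_⟩
  intro n hn hnM r r' A hA
  -- shift of a side statement in a subclass
  have hshift : ∀ t, c < m ^ l → ∀ s j, ∀ D : Finset ℕ,
      (∀ i ∈ D, i % m ^ l = c ∧ dig i = t) → j % m ^ l = c → dig j = t →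
      Side p (g (c + m ^ l * t)) s j D → Side p h s j D := by
    intro t hc s j D hD hj1 hj2 hs
    have hgen : ∀ i, i % m ^ l = c → dig i = t → h i = g (c + m ^ l * t) i + T * t := by
      intro i h1 h2
      have h3 : i % m ^ (l + 1) = c + m ^ l * t := (digit_iff hm0 hc).2 ⟨h1, h2⟩
      simp only [hh, hG, h2, h3]
    exact hs.shift (T * t) (fun i hi => hgen i (hD i hi).1 (hD i hi).2) (hgen j hj1 hj2)
  -- tilting towards an index of another digit
  have htilt : ∀ s : ℝ, (s = 1 ∨ s = -1) → ∀ D : Finset ℕ, ∀ j a : ℕ, (∀ i ∈ D, i < N) →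
      (∀ i ∈ D, s * (dig i : ℝ) ≤ s * (dig j : ℝ)) → j < N → a < N →
      s * (dig a : ℝ) ≤ s * (dig j : ℝ) - 1 →
      p j ∈ interior (convexHull ℝ (p '' (D : Set ℕ))) → Side p h s j (insert a D) := by
    intro s hs D j a hDN hD hj ha haj hint
    refine tilt (H := B + T * (s * (dig j : ℝ))) (T := T) (B := B) hlam0 hlam1
      (hlam D (Finset.mem_powerset.2 fun i hi => Finset.mem_range.2 (hDN i hi)) j
        (Finset.mem_range.2 hj) a (Finset.mem_range.2 ha) hint) ?_ ?_ ?_ hlT
    · intro i hi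
      have h1 := (hsG s hs i (hDN i hi)).1
      have h2 := mul_le_mul_of_nonneg_left (hD i hi) hT0
      have h3 : s * h i = s * G i + T * (s * (dig i : ℝ)) := by simp only [hh]; ring
      rw [h3]; linarith
    · have h1 := (hsG s hs a ha).1
      have h2 := mul_le_mul_of_nonneg_left haj hT0
      have h3 : s * h a = s * G a + T * (s * (dig a : ℝ)) := by simp only [hh]; ring
      rw [h3]
      have h4 : T * (s * (dig j : ℝ) - 1) = T * (s * (dig j : ℝ)) - T := by ring
      linarith
    · have h1 := (hsG s hs j hj).2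
      have h3 : s * h j = s * G j + T * (s * (dig j : ℝ)) := by simp only [hh]; ring
      rw [h3]; linarith
  -- sub-finsets of fixed digit
  have hfil : ∀ t, ∀ i ∈ A.filter (fun i => dig i = t),
      i < N ∧ i ≡ r [MOD n] ∧ i % m ^ l = c ∧ i / m ^ l % m = t := by
    intro t i hi
    rw [Finset.mem_filter] at hi
    obtain ⟨h1, h2, h3⟩ := hA i hi.1
    exact ⟨h1, h2, h3, hi.2⟩
  have hcmem : ∀ i ∈ A, c < m ^ l := by
    intro i hi
    obtain ⟨_, _, h3⟩ := hA i hi
    rw [← h3]; exact Nat.mod_lt _ (Nat.pow_pos hm0)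
  have herase : ∀ (t : ℕ) (j a : ℕ), a ∈ A → a ≠ j →
      insert a ((A.filter (fun i => dig i = t)).erase j) ⊆ A.erase j := by
    intro t j a ha haj i hi
    rw [Finset.mem_insert] at hi
    rcases hi with rfl | hi
    · exact Finset.mem_erase.2 ⟨haj, ha⟩
    · rw [Finset.mem_erase, Finset.mem_filter] at hi
      exact Finset.mem_erase.2 ⟨hi.1, hi.2.1⟩
  have herase' : ∀ (t : ℕ) (j : ℕ),
      ((A.filter (fun i => dig i = t)).erase j) ⊆ A.erase j := by
    intro t j i hi
    rw [Finset.mem_erase, Finset.mem_filter] at hi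
    exact Finset.mem_erase.2 ⟨hi.1, hi.2.1⟩
  have hintmono : ∀ {D D' : Finset ℕ} {j : ℕ}, D ⊆ D' →
      p j ∈ interior (convexHull ℝ (p '' (D : Set ℕ))) →
      p j ∈ interior (convexHull ℝ (p '' (D' : Set ℕ))) := by
    intro D D' j hDD hj
    exact interior_mono (convexHull_mono (Set.image_mono (by exact_mod_cast hDD))) hj
  constructor
  · intro s hs hcard
    have hcardpos : 0 < A.card := lt_of_lt_of_le (Nat.mul_pos hm0 hK) hcard
    obtain ⟨i0, hi0⟩ := Finset.card_pos.1 hcardpos
    have hc := hcmem i0 hi0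
    -- the target digit
    obtain ⟨τ, hτm, hτ⟩ : ∃ τ, τ < m ∧ ∀ t < m, t ≠ τ → s * (t : ℝ) ≤ s * (τ : ℝ) - 1 := by
      rcases hs with rfl | rfl
      · refine ⟨m - 1, by omega, ?_⟩
        intro t ht hne
        have : (t : ℝ) + 1 ≤ ((m - 1 : ℕ) : ℝ) := by exact_mod_cast (by omega : t + 1 ≤ m - 1)
        linarith
      · refine ⟨0, hm0, ?_⟩
        intro t ht hne
        have : (1 : ℝ) ≤ (t : ℝ) := by exact_mod_cast (by omega : 1 ≤ t)
        push_cast
        linarith
    by_cases hall : ∀ i ∈ A, dig i = τ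
    · obtain ⟨j, hjN, hjr, hjc, hjint, hjs⟩ := (hg (c + m ^ l * τ) n hn hnM r r' A (by
        intro i hi
        obtain ⟨h1, h2, h3⟩ := hA i hi
        exact ⟨h1, h2, (digit_iff hm0 hc).2 ⟨h3, hall i hi⟩⟩)).1 s hs hcard
      obtain ⟨hj1, hj2⟩ := (digit_iff hm0 hc).1 hjc
      refine ⟨j, hjN, hjr, hj1, hjint, ?_⟩
      refine hshift τ hc s j _ ?_ hj1 hj2 hjs
      intro i hi
      rw [Finset.mem_erase] at hi
      exact ⟨(hA i hi.2).2.2, hall i hi.2⟩
    · push Not at hall
      obtain ⟨a, haA, haτ⟩ := hall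
      obtain ⟨t, ht, htcard⟩ := Finset.exists_le_card_fiber_of_mul_le_card_of_maps_to
        (s := A) (t := Finset.range m) (f := dig) (n := K)
        (fun i _ => Finset.mem_range.2 (hdigm i)) ⟨0, Finset.mem_range.2 hm0⟩
        (by rw [Finset.card_range]; exact hcard)
      obtain ⟨j, hjN, hjr, hjc, hjd, hjint⟩ :=
        good_apply hp hm0 hmM hn hnM (t' := τ) hc hτm (hfil t) htcard r'
      have haj : a ≠ j := by
        rintro rfl
        exact haτ hjd
      refine ⟨j, hjN, hjr, hjc, hintmono (herase' t j) hjint, ?_⟩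
      refine Side.mono (herase t j a haA haj) ?_
      have hjd' : dig j = τ := hjd
      refine htilt s hs _ j a ?_ ?_ hjN (hA a haA).1 ?_ hjint
      · intro i hi
        rw [Finset.mem_erase, Finset.mem_filter] at hi
        exact (hA i hi.2.1).1
      · intro i hi
        rw [hjd']
        by_cases hd : dig i = τ
        · rw [hd]
        · have := hτ (dig i) (hdigm i) hd
          linarith
      · rw [hjd']
        exact hτ (dig a) (hdigm a) haτ
  · intro hcard
    have hcardpos : 0 < A.card := lt_of_lt_of_le (Nat.mul_pos (by omega) hK) hcard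
    have hne := Finset.card_pos.1 hcardpos
    obtain ⟨a0, ha0, ha0min⟩ := Finset.exists_min_image A dig hne
    obtain ⟨a1, ha1, ha1max⟩ := Finset.exists_max_image A dig hne
    have hc := hcmem a0 ha0
    have h01 : dig a0 ≤ dig a1 := ha0min a1 ha1
    rcases Nat.eq_or_lt_of_le h01 with heq | hlt
    · have hall : ∀ i ∈ A, dig i = dig a0 := fun i hi =>
        le_antisymm (by rw [heq]; exact ha1max i hi) (ha0min i hi)
      obtain ⟨j, hjN, hjr, hjc, hjint, hjs⟩ := (hg (c + m ^ l * dig a0) n hn hnM r r' A (by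
        intro i hi
        obtain ⟨h1, h2, h3⟩ := hA i hi
        exact ⟨h1, h2, (digit_iff hm0 hc).2 ⟨h3, hall i hi⟩⟩)).2 hcard
      obtain ⟨hj1, hj2⟩ := (digit_iff hm0 hc).1 hjc
      refine ⟨j, hjN, hjr, hj1, hjint, ?_⟩
      intro s hs
      refine hshift (dig a0) hc s j _ ?_ hj1 hj2 (hjs s hs)
      intro i hi
      rw [Finset.mem_erase] at hi
      exact ⟨(hA i hi.2).2.2, hall i hi.2⟩
    · have hne01 : ∀ i : ℕ, dig i = dig a0 → i ≠ a1 := by
        rintro i hi rfl; omega
      have hne10 : ∀ i : ℕ, dig i = dig a1 → i ≠ a0 := by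
        rintro i hi rfl; omega
      by_cases hc0 : m * K ≤ (A.filter (fun i => dig i = dig a0)).card
      · -- the lowest block is large
        obtain ⟨j, hjN, hjr, hjc, hjint, hjs⟩ := (hg (c + m ^ l * dig a0) n hn hnM r r'
          (A.filter (fun i => dig i = dig a0)) (by
          intro i hi
          obtain ⟨h1, h2, h3, h4⟩ := hfil _ i hi
          exact ⟨h1, h2, (digit_iff hm0 hc).2 ⟨h3, h4⟩⟩)).1 1 (Or.inl rfl) hc0
        obtain ⟨hj1, hj2⟩ := (digit_iff hm0 hc).1 hjc
        refine ⟨j, hjN, hjr, hj1, hintmono (herase' _ j) hjint, ?_⟩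
        intro s hs
        rcases hs with rfl | rfl
        · refine Side.mono (herase' (dig a0) j) ?_
          refine hshift (dig a0) hc 1 j _ ?_ hj1 hj2 hjs
          intro i hi
          rw [Finset.mem_erase, Finset.mem_filter] at hi
          exact ⟨(hA i hi.2.1).2.2, hi.2.2⟩
        · have haj : a1 ≠ j := fun h => hne01 j hj2 h.symm
          refine Side.mono (herase (dig a0) j a1 ha1 haj) ?_
          have hjd' : dig j = dig a0 := hj2
          refine htilt (-1) (Or.inr rfl) _ j a1 ?_ ?_ hjN (hA a1 ha1).1 ?_ hjint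
          · intro i hi
            rw [Finset.mem_erase, Finset.mem_filter] at hi
            exact (hA i hi.2.1).1
          · intro i hi
            rw [Finset.mem_erase, Finset.mem_filter] at hi
            rw [hi.2.2, hjd']
          · rw [hjd']
            have : (dig a0 : ℝ) + 1 ≤ (dig a1 : ℝ) := by exact_mod_cast hlt
            linarith
      · by_cases hc1 : m * K ≤ (A.filter (fun i => dig i = dig a1)).card
        · -- the highest block is large
          obtain ⟨j, hjN, hjr, hjc, hjint, hjs⟩ := (hg (c + m ^ l * dig a1) n hn hnM r r'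
            (A.filter (fun i => dig i = dig a1)) (by
            intro i hi
            obtain ⟨h1, h2, h3, h4⟩ := hfil _ i hi
            exact ⟨h1, h2, (digit_iff hm0 hc).2 ⟨h3, h4⟩⟩)).1 (-1) (Or.inr rfl) hc1
          obtain ⟨hj1, hj2⟩ := (digit_iff hm0 hc).1 hjc
          refine ⟨j, hjN, hjr, hj1, hintmono (herase' _ j) hjint, ?_⟩
          intro s hs
          rcases hs with rfl | rfl
          · have haj : a0 ≠ j := fun h => hne10 j hj2 h.symm
            refine Side.mono (herase (dig a1) j a0 ha0 haj) ?_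
            have hjd' : dig j = dig a1 := hj2
            refine htilt 1 (Or.inl rfl) _ j a0 ?_ ?_ hjN (hA a0 ha0).1 ?_ hjint
            · intro i hi
              rw [Finset.mem_erase, Finset.mem_filter] at hi
              exact (hA i hi.2.1).1
            · intro i hi
              rw [Finset.mem_erase, Finset.mem_filter] at hi
              rw [hi.2.2, hjd']
            · rw [hjd']
              have : (dig a0 : ℝ) + 1 ≤ (dig a1 : ℝ) := by exact_mod_cast hlt
              linarith
          · refine Side.mono (herase' (dig a1) j) ?_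
            refine hshift (dig a1) hc (-1) j _ ?_ hj1 hj2 hjs
            intro i hi
            rw [Finset.mem_erase, Finset.mem_filter] at hi
            exact ⟨(hA i hi.2.1).2.2, hi.2.2⟩
        · -- a middle block is large
          push Not at hc0 hc1
          set A' := A.filter (fun i => dig i ≠ dig a0 ∧ dig i ≠ dig a1) with hA'
          have hA'card : m * K ≤ A'.card := by
            have hsub : A ⊆ A' ∪ (A.filter (fun i => dig i = dig a0) ∪
                A.filter (fun i => dig i = dig a1)) := by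
              intro i hi
              simp only [hA', Finset.mem_union, Finset.mem_filter]
              tauto
            have h1 := Finset.card_le_card hsub
            have h2 := Finset.card_union_le A' (A.filter (fun i => dig i = dig a0) ∪
                A.filter (fun i => dig i = dig a1))
            have h3 := Finset.card_union_le (A.filter (fun i => dig i = dig a0))
                (A.filter (fun i => dig i = dig a1))
            have h4 : 3 * m * K = m * K + m * K + m * K := by ring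
            omega
          obtain ⟨t, ht, htcard⟩ := Finset.exists_le_card_fiber_of_mul_le_card_of_maps_to
            (s := A') (t := Finset.range m) (f := dig) (n := K)
            (fun i _ => Finset.mem_range.2 (hdigm i)) ⟨0, Finset.mem_range.2 hm0⟩
            (by rw [Finset.card_range]; exact hA'card)
          obtain ⟨i1, hi1⟩ := Finset.card_pos.1 (lt_of_lt_of_le hK htcard)
          rw [Finset.mem_filter, hA', Finset.mem_filter] at hi1
          obtain ⟨⟨hi1A, hi1a, hi1b⟩, hi1t⟩ := hi1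
          have ht0 : dig a0 < t := by
            have := ha0min i1 hi1A
            omega
          have ht1 : t < dig a1 := by
            have := ha1max i1 hi1A
            omega
          have hfilcard : K ≤ (A.filter (fun i => dig i = t)).card := by
            refine htcard.trans (Finset.card_le_card ?_)
            intro i hi
            rw [Finset.mem_filter, hA', Finset.mem_filter] at hi
            exact Finset.mem_filter.2 ⟨hi.1.1, hi.2⟩
          obtain ⟨j, hjN, hjr, hjc, hjd, hjint⟩ :=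
            good_apply hp hm0 hmM hn hnM (t' := t) hc (Finset.mem_range.1 ht) (hfil t) hfilcard r'
          have hjd' : dig j = t := hjd
          have haj0 : a0 ≠ j := by rintro rfl; omega
          have haj1 : a1 ≠ j := by rintro rfl; omega
          refine ⟨j, hjN, hjr, hjc, hintmono (herase' t j) hjint, ?_⟩
          intro s hs
          rcases hs with rfl | rfl
          · refine Side.mono (herase t j a0 ha0 haj0) ?_
            refine htilt 1 (Or.inl rfl) _ j a0 ?_ ?_ hjN (hA a0 ha0).1 ?_ hjint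
            · intro i hi
              rw [Finset.mem_erase, Finset.mem_filter] at hi
              exact (hA i hi.2.1).1
            · intro i hi
              rw [Finset.mem_erase, Finset.mem_filter] at hi
              rw [hi.2.2, hjd']
            · rw [hjd']
              have : (dig a0 : ℝ) + 1 ≤ (t : ℝ) := by exact_mod_cast ht0
              linarith
          · refine Side.mono (herase t j a1 ha1 haj1) ?_
            refine htilt (-1) (Or.inr rfl) _ j a1 ?_ ?_ hjN (hA a1 ha1).1 ?_ hjint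
            · intro i hi
              rw [Finset.mem_erase, Finset.mem_filter] at hi
              exact (hA i hi.2.1).1
            · intro i hi
              rw [Finset.mem_erase, Finset.mem_filter] at hi
              rw [hi.2.2, hjd']
            · rw [hjd']
              have : (t : ℝ) + 1 ≤ (dig a1 : ℝ) := by exact_mod_cast ht1
              linarith

lemma lev_exists {p : ℕ → E} {N M m K : ℕ} (hm : 2 ≤ m) (hK : 1 ≤ K)
    (hmM : Nat.Coprime m M) (hp : Good p N M K) :
    ∀ d l : ℕ, N ≤ m ^ (l + d) → ∀ c, ∃ h : ℕ → ℝ, Lev p N M m K l c h := by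
  intro d
  induction d with
  | zero =>
    intro l hl c
    refine ⟨fun _ => 0, ?_⟩
    intro n _ _ r r' A hA
    have hsub : A ⊆ {c} := by
      intro i hi
      obtain ⟨h1, _, h3⟩ := hA i hi
      have h4 : i < m ^ l := lt_of_lt_of_le h1 hl
      rw [Nat.mod_eq_of_lt h4] at h3
      simp [h3]
    have hcard : A.card ≤ 1 := by simpa using Finset.card_le_card hsub
    have hmK : 2 ≤ m * K := by
      calc 2 = 2 * 1 := rfl
        _ ≤ m * K := Nat.mul_le_mul hm hK
    refine ⟨fun _ _ h => absurd h (by omega), fun h => absurd h ?_⟩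
    have : 3 * m * K = m * K + m * K + m * K := by ring
    omega
  | succ d ih =>
    intro l hl c
    have h1 : ∀ c', ∃ h : ℕ → ℝ, Lev p N M m K (l + 1) c' h :=
      ih (l + 1) (by rw [show l + 1 + d = l + (d + 1) by ring]; exact hl)
    choose g hg using h1
    exact lev_combine hm hK hmM hp g hg


lemma sandwich {p : ℕ → E} {h : ℕ → ℝ} {B : Finset ℕ} {x : E} {y1 y2 y : ℝ}
    (hx : x ∈ interior (convexHull ℝ (p '' (B : Set ℕ))))
    (h1 : (x, y1) ∈ convexHull ℝ ((fun i => (p i, h i)) '' (B : Set ℕ)))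
    (h2 : (x, y2) ∈ convexHull ℝ ((fun i => (p i, h i)) '' (B : Set ℕ)))
    (hy1 : y1 < y) (hy2 : y < y2) :
    (x, y) ∈ interior (convexHull ℝ ((fun i => (p i, h i)) '' (B : Set ℕ))) := by
  set C := convexHull ℝ ((fun i => (p i, h i)) '' (B : Set ℕ)) with hC
  have hCc : Convex ℝ C := convex_convexHull ℝ _
  set R : ℝ := ∑ i ∈ B, |h i| with hR
  have hR0 : 0 ≤ R := Finset.sum_nonneg fun _ _ => abs_nonneg _
  have hRb : ∀ i ∈ B, |h i| ≤ R := fun i hi =>
    Finset.single_le_sum (f := fun i => |h i|) (fun _ _ => abs_nonneg _) hi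
  obtain ⟨ρ, hρ, hball⟩ := Metric.mem_nhds_iff.1 (mem_interior_iff_mem_nhds.1 hx)
  set Q : ℝ := 1 + R + |y1| + |y2| with hQ
  have hQ1 : 1 ≤ Q := by
    have := abs_nonneg y1
    have := abs_nonneg y2
    linarith
  set μ : ℝ := min (y - y1) (y2 - y) with hμ
  have hμ0 : 0 < μ := lt_min (by linarith) (by linarith)
  set lam : ℝ := min (1 / 2) (μ / Q) with hlam
  have hlam0 : 0 < lam := lt_min (by norm_num) (div_pos hμ0 (by linarith))
  have hlam1 : lam ≤ 1 / 2 := min_le_left _ _
  have hlamQ : lam * Q ≤ μ := by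
    have : lam ≤ μ / Q := min_le_right _ _
    rwa [le_div_iff₀ (by linarith)] at this
  rw [mem_interior_iff_mem_nhds, Metric.mem_nhds_iff]
  refine ⟨min (lam * ρ) lam, lt_min (mul_pos hlam0 hρ) hlam0, ?_⟩
  rintro ⟨x', y'⟩ hxy
  rw [Metric.mem_ball, Prod.dist_eq, max_lt_iff] at hxy
  obtain ⟨hxx, hyy⟩ := hxy
  simp only at hxx hyy
  have hxx' : ‖x' - x‖ < lam * ρ := by
    rw [← dist_eq_norm]; exact lt_of_lt_of_le hxx (min_le_left _ _)
  have hyy' : |y' - y| < lam := by
    rw [← Real.dist_eq]; exact lt_of_lt_of_le hyy (min_le_right _ _)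
  have hz : x + lam⁻¹ • (x' - x) ∈ convexHull ℝ (p '' (B : Set ℕ)) := by
    apply hball
    rw [Metric.mem_ball, dist_eq_norm, add_sub_cancel_left, norm_smul, Real.norm_eq_abs,
      abs_of_pos (inv_pos.2 hlam0), inv_mul_lt_iff₀ hlam0]
    exact hxx'
  obtain ⟨w, hwR, hw⟩ := lift_exists (h := h) (s := 1) (H := R) hz (fun i hi => by
    have := (abs_le.1 (hRb i hi)).2; linarith)
  -- lower bound of `w`
  have hwR' : -R ≤ w := by
    have hconv : Convex ℝ {q : E × ℝ | -R ≤ q.2} := by
      have : {q : E × ℝ | -R ≤ q.2} = {q : E × ℝ | -R ≤ (LinearMap.snd ℝ E ℝ) q} := by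
        ext q; simp
      rw [this]
      exact convex_halfSpace_ge (LinearMap.isLinear _) (-R)
    have hsub : (fun i => (p i, h i)) '' (B : Set ℕ) ⊆ {q : E × ℝ | -R ≤ q.2} := by
      rintro _ ⟨i, hi, rfl⟩
      exact (abs_le.1 (hRb i hi)).1
    exact convexHull_min hsub hconv hw
  rw [one_mul] at hwR
  set ys : ℝ := (y' - lam * w) / (1 - lam) with hys
  have h1l : 0 < 1 - lam := by linarith
  have hmu1 : μ ≤ y - y1 := min_le_left _ _
  have hmu2 : μ ≤ y2 - y := min_le_right _ _
  have ha := abs_lt.1 hyy'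
  have hb1 := neg_abs_le y1
  have hb2 := le_abs_self y2
  have hQe : lam * Q = lam + lam * R + lam * |y1| + lam * |y2| := by rw [hQ]; ring
  have hlw1 : lam * w ≤ lam * R := mul_le_mul_of_nonneg_left hwR hlam0.le
  have hlw2 : -(lam * R) ≤ lam * w := by
    have := mul_le_mul_of_nonneg_left hwR' hlam0.le
    linarith
  have hly1 : -(lam * |y1|) ≤ lam * y1 := by
    have := mul_le_mul_of_nonneg_left hb1 hlam0.le
    linarith
  have hly2 : lam * y2 ≤ lam * |y2| := mul_le_mul_of_nonneg_left hb2 hlam0.le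
  have hn1 : 0 ≤ lam * |y1| := mul_nonneg hlam0.le (abs_nonneg _)
  have hn2 : 0 ≤ lam * |y2| := mul_nonneg hlam0.le (abs_nonneg _)
  have hys1 : y1 ≤ ys := by
    rw [hys, le_div_iff₀ h1l]
    nlinarith
  have hys2 : ys ≤ y2 := by
    rw [hys, div_le_iff₀ h1l]
    nlinarith
  have hysC : (x, ys) ∈ C := by
    have h12 : 0 < y2 - y1 := by linarith
    have ht0 : 0 ≤ (ys - y1) / (y2 - y1) := div_nonneg (by linarith) h12.le
    have ht1 : 0 ≤ 1 - (ys - y1) / (y2 - y1) := by
      have : (ys - y1) / (y2 - y1) ≤ 1 := by rw [div_le_one h12]; linarith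
      linarith
    have := hCc h1 h2 ht1 ht0 (by ring)
    convert this using 1
    ext
    · simp only [Prod.fst_add, Prod.smul_fst]
      rw [← add_smul]; simp
    · simp only [Prod.snd_add, Prod.smul_snd, smul_eq_mul]
      field_simp
      ring
  have := hCc hysC hw h1l.le hlam0.le (by ring)
  convert this using 1
  ext
  · simp only [Prod.fst_add, Prod.smul_fst]
    rw [smul_add, smul_smul, mul_inv_cancel₀ hlam0.ne', one_smul, ← add_assoc, ← add_smul]
    simp
  · simp only [Prod.snd_add, Prod.smul_snd, smul_eq_mul]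
    rw [hys]
    field_simp
    ring

/-- **The step**: lifting a good sequence to one dimension more. -/
theorem good_step {p : ℕ → E} {N M m K : ℕ} (hm : 2 ≤ m) (hK : 1 ≤ K)
    (hmM : Nat.Coprime m M) (hp : Good p N M K) :
    ∃ h : ℕ → ℝ, Good (fun i => (p i, h i)) N (M * m) (3 * m * K) := by
  obtain ⟨h, hh⟩ := lev_exists hm hK hmM hp N 0 (by
    rw [zero_add]; exact (Nat.lt_pow_self hm).le) 0
  refine ⟨h, ?_⟩
  intro n hn hnM r r' A hA hcard
  obtain ⟨j, hjN, hjr, _, hjint, hjs⟩ := (hh n hn hnM r r' A (by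
    intro i hi
    obtain ⟨h1, h2⟩ := hA i hi
    exact ⟨h1, h2, by simp [Nat.mod_one]⟩)).2 hcard
  obtain ⟨y1, hy1, hm1⟩ := hjs 1 (Or.inl rfl)
  obtain ⟨y2, hy2, hm2⟩ := hjs (-1) (Or.inr rfl)
  exact ⟨j, hjN, hjr, sandwich hjint hm1 hm2 (by linarith) (by linarith)⟩

/-- In three-space there are arbitrarily long sequences in which every 162 points surround a
further point. -/
theorem good_three (N : ℕ) : ∃ q : ℕ → (ℝ × ℝ) × ℝ, ∀ A : Finset ℕ, (∀ i ∈ A, i < N) →
    162 ≤ A.card → ∃ j, j < N ∧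
      q j ∈ interior (convexHull ℝ (q '' ((A.erase j : Finset ℕ) : Set ℕ))) := by
  obtain ⟨h2, hh2⟩ := good_step (m := 2) le_rfl (by norm_num) (by norm_num) (good_base N)
  obtain ⟨h3, hh3⟩ := good_step (m := 3) (by norm_num) (by norm_num) (by norm_num) hh2
  refine ⟨fun i => (((i : ℝ), h2 i), h3 i), fun A hA hcard => ?_⟩
  obtain ⟨j, hj, _, hjint⟩ := hh3 1 one_pos (Nat.coprime_one_left _) 0 0 A
    (fun i hi => ⟨hA i hi, Nat.modEq_one⟩) (by norm_num; exact hcard)
  exact ⟨j, hj, hjint⟩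

end Pool.Agent.Helper837.Horton
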