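import Mathlib
import Pool.Agent.Helper837.Horton

/-!
# Doubling and perturbing a good sequence in three-space
-/

open Set Filter Topology

namespace Pool.Agent.Helper837.Horton

lemma robust {E : Type*} [NormedAddCommGroup E] [NormedSpace ℝ E] {ι : Type*} (D : Finset ι)
    (q : ι → E) (z : E) (hz : z ∈ interior (convexHull ℝ (q '' (D : Set ι)))) :
    ∃ δ : ℝ, 0 < δ ∧ ∀ x : ι → E, ∀ w : E, (∀ i ∈ D, ‖x i - q i‖ < δ) → ‖w - z‖ < δ →
      w ∈ convexHull ℝ (x '' (D : Set ι)) := by
  obtain ⟨R, hR, hball⟩ := Metric.mem_nhds_iff.1 (mem_interior_iff_mem_nhds.1 hz)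
  refine ⟨R / 4, by linarith, ?_⟩
  intro x w hx hw
  by_contra hcon
  have hfin : (x '' (D : Set ι)).Finite := D.finite_toSet.image x
  have hclosed : IsClosed (convexHull ℝ (x '' (D : Set ι))) := hfin.isClosed_convexHull ℝ
  obtain ⟨f, u, hfu, hub⟩ := geometric_hahn_banach_point_closed (convex_convexHull ℝ _)
    hclosed hcon
  have hDne : D.Nonempty := by
    rcases D.eq_empty_or_nonempty with h | h
    · subst h
      simp at hz
    · exact h
  obtain ⟨i0, hi0⟩ := hDne
  have hf0 : 0 < ‖f‖ := by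
    rw [norm_pos_iff]
    rintro rfl
    have := hub (x i0) (subset_convexHull ℝ _ ⟨i0, hi0, rfl⟩)
    simp at this hfu
    linarith
  obtain ⟨v, hv1, hv2⟩ := f.exists_lt_apply_of_lt_opNorm (by linarith : ‖f‖ / 2 < ‖f‖)
  -- choose the sign
  obtain ⟨v, hv1, hv2⟩ : ∃ v : E, ‖v‖ < 1 ∧ f v < -(‖f‖ / 2) := by
    rw [Real.norm_eq_abs] at hv2
    rcases le_total 0 (f v) with h | h
    · rw [abs_of_nonneg h] at hv2
      exact ⟨-v, by rwa [norm_neg], by rw [map_neg]; linarith⟩
    · rw [abs_of_nonpos h] at hv2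
      exact ⟨v, hv1, by linarith⟩
  set y : E := w + (R / 2) • v with hy
  have hyball : y ∈ Metric.ball z R := by
    rw [Metric.mem_ball, dist_eq_norm]
    have e : y - z = (w - z) + (R / 2) • v := by rw [hy]; abel
    rw [e]
    calc ‖(w - z) + (R / 2) • v‖ ≤ ‖w - z‖ + ‖(R / 2) • v‖ := norm_add_le _ _
      _ = ‖w - z‖ + (R / 2) * ‖v‖ := by
          rw [norm_smul, Real.norm_eq_abs, abs_of_pos (by linarith : 0 < R / 2)]
      _ < R := by nlinarith
  have hyC := hball hyball
  have hhalf : convexHull ℝ (q '' (D : Set ι)) ⊆ {y | u - ‖f‖ * (R / 4) ≤ f y} := by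
    apply convexHull_min
    · rintro _ ⟨i, hi, rfl⟩
      have h1 := hub (x i) (subset_convexHull ℝ _ ⟨i, hi, rfl⟩)
      have h2 : f (x i) - f (q i) ≤ ‖f‖ * (R / 4) := by
        rw [← map_sub]
        calc f (x i - q i) ≤ ‖f (x i - q i)‖ := Real.le_norm_self _
          _ ≤ ‖f‖ * ‖x i - q i‖ := f.le_opNorm _
          _ ≤ ‖f‖ * (R / 4) := mul_le_mul_of_nonneg_left (hx i hi).le hf0.le
      show u - ‖f‖ * (R / 4) ≤ f (q i)
      linarith
    · exact convex_halfSpace_ge f.toLinearMap.isLinear _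
  have h3 : u - ‖f‖ * (R / 4) ≤ f y := hhalf hyC
  have h4 : f y = f w + (R / 2) * f v := by
    rw [hy, map_add, map_smul, smul_eq_mul]
  nlinarith

lemma eval_ne_zero_eventually (P : Polynomial ℝ) (hP : P ≠ 0) :
    ∀ᶠ η : ℝ in 𝓝[>] 0, P.eval η ≠ 0 := by
  have hfin : (P.roots.toFinset : Set ℝ).Finite := P.roots.toFinset.finite_toSet
  have h1 : ((P.roots.toFinset : Set ℝ) \ {0}).Finite := hfin.subset sdiff_subset
  have h2 : ((P.roots.toFinset : Set ℝ) \ {0})ᶜ ∈ 𝓝 (0 : ℝ) :=
    h1.isClosed.isOpen_compl.mem_nhds (by simp)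
  filter_upwards [nhdsWithin_le_nhds h2, self_mem_nhdsWithin] with η h3 h4 h5
  apply h3
  refine ⟨?_, ?_⟩
  · simp only [Finset.mem_coe, Multiset.mem_toFinset]
    exact (Polynomial.mem_roots hP).2 h5
  · simp only [mem_singleton_iff]
    exact ne_of_gt h4

/-- moment curve -/
noncomputable def mom (t : ℝ) : EuclideanSpace ℝ (Fin 3) := !₂[t, t ^ 2, t ^ 3]

lemma gp_eventually (q : Fin 4 → EuclideanSpace ℝ (Fin 3)) (t : Fin 4 → ℝ)
    (ht : Function.Injective t) :
    ∀ᶠ η : ℝ in 𝓝[>] 0, AffineIndependent ℝ (fun k : Fin 4 => q k + η • mom (t k)) := by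
  classical
  set U : Matrix (Fin 3) (Fin 3) ℝ := fun k l => q k.succ l - q 0 l with hU
  set V : Matrix (Fin 3) (Fin 3) ℝ := fun k l => mom (t k.succ) l - mom (t 0) l with hV
  set P : Polynomial ℝ := Matrix.det
    ((Polynomial.X : Polynomial ℝ) • V.map Polynomial.C + U.map Polynomial.C) with hPdef
  have hcoeff : P.coeff 3 = V.det := by
    have := Polynomial.coeff_det_X_add_C_card V U
    simpa using this
  have hdetV : V.det ≠ 0 := by
    have h1 : V.det = (t 1 - t 0) * (t 2 - t 0) * (t 3 - t 0) * (t 2 - t 1) * (t 3 - t 1) *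
        (t 3 - t 2) := by
      rw [Matrix.det_fin_three]
      simp [hV, mom, Fin.succ]
      ring
    rw [h1]
    have hne : ∀ i j : Fin 4, i ≠ j → t i - t j ≠ 0 := fun i j hij h =>
      hij (ht (sub_eq_zero.1 h))
    refine mul_ne_zero (mul_ne_zero (mul_ne_zero (mul_ne_zero (mul_ne_zero ?_ ?_) ?_) ?_) ?_) ?_
      <;> exact hne _ _ (by decide)
  have hP : P ≠ 0 := by
    intro h
    rw [h] at hcoeff
    exact hdetV (by rw [← hcoeff]; simp)
  filter_upwards [eval_ne_zero_eventually P hP] with η hη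
  have hdet : Matrix.det (η • V + U) ≠ 0 := by
    have h1 : P.eval η = Matrix.det (η • V + U) := by
      rw [hPdef, ← Polynomial.coe_evalRingHom, RingHom.map_det]
      congr 1
      ext i j
      simp
      ring
    rw [← h1]; exact hη
  have hlin := Matrix.linearIndependent_rows_of_det_ne_zero hdet
  rw [affineIndependent_iff_linearIndependent_vsub ℝ _ (0 : Fin 4)]
  rw [← linearIndependent_equiv (finSuccAboveEquiv (0 : Fin 4))]
  apply LinearIndependent.of_comp (EuclideanSpace.equiv (Fin 3) ℝ).toLinearMap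
  have he : (⇑(EuclideanSpace.equiv (Fin 3) ℝ).toLinearMap ∘
      ((fun i : {x : Fin 4 // x ≠ 0} => q ↑i + η • mom (t ↑i) -ᵥ (q 0 + η • mom (t 0))) ∘
        ⇑(finSuccAboveEquiv (0 : Fin 4)))) = fun i => (η • V + U) i := by
    funext k l
    have h2 : (η • V + U) k l = η * V k l + U k l := rfl
    rw [h2]
    simp only [hU, hV, Function.comp_apply, finSuccAboveEquiv_apply]
    simp
    ring
  rw [he]
  exact hlin


/-- parameter of the doubled point `(i, b)` -/
def par (i : ℕ) (b : Bool) : ℝ := 2 * (i : ℝ) + (if b then 1 else 0)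

lemma par_inj {i j : ℕ} {b b' : Bool} (h : par i b = par j b') : i = j ∧ b = b' := by
  have hcast : ∀ (i : ℕ) (b : Bool), par i b = ((2 * i + (if b then 1 else 0) : ℕ) : ℝ) := by
    intro i b
    cases b <;> simp [par]
  rw [hcast, hcast] at h
  have h2 : 2 * i + (if b then 1 else 0) = 2 * j + (if b' then 1 else 0) := by exact_mod_cast h
  cases b <;> cases b' <;> simp at h2 ⊢ <;> omega

/-- The configuration: doubled points, in general position, any 162 of one colour have a point of
any prescribed colour in their convex hull. -/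
theorem exists_config (N : ℕ) : ∃ x : ℕ → Bool → EuclideanSpace ℝ (Fin 3),
    (∀ i < N, ∀ j < N, ∀ b b', x i b = x j b' → i = j ∧ b = b') ∧
    (∀ β : Fin 4 → Fin N × Bool, Function.Injective β →
      AffineIndependent ℝ (fun k => x (β k).1 (β k).2)) ∧
    (∀ b b', ∀ A : Finset ℕ, (∀ i ∈ A, i < N) → 162 ≤ A.card →
      ∃ j, j < N ∧ x j b' ∈ convexHull ℝ ((fun i => x i b) '' (A : Set ℕ))) := by
  classical
  obtain ⟨q0, hq0⟩ := good_three N
  -- transfer to Euclidean space
  have hdim : Module.finrank ℝ ((ℝ × ℝ) × ℝ) = Module.finrank ℝ (EuclideanSpace ℝ (Fin 3)) := by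
    simp
  let e : ((ℝ × ℝ) × ℝ) ≃L[ℝ] EuclideanSpace ℝ (Fin 3) := ContinuousLinearEquiv.ofFinrankEq hdim
  set q : ℕ → EuclideanSpace ℝ (Fin 3) := fun i => e (q0 i) with hq
  have hqprop : ∀ A : Finset ℕ, (∀ i ∈ A, i < N) → 162 ≤ A.card → ∃ j, j < N ∧
      q j ∈ interior (convexHull ℝ (q '' ((A.erase j : Finset ℕ) : Set ℕ))) := by
    intro A hA hcard
    obtain ⟨j, hj, hjint⟩ := hq0 A hA hcard
    refine ⟨j, hj, ?_⟩
    have h1 : q '' ((A.erase j : Finset ℕ) : Set ℕ) =
        e.toLinearEquiv.toLinearMap '' (q0 '' ((A.erase j : Finset ℕ) : Set ℕ)) := by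
      rw [Set.image_image]; rfl
    rw [h1, ← LinearMap.image_convexHull]
    have h2 := e.toHomeomorph.image_interior
      (convexHull ℝ (q0 '' ((A.erase j : Finset ℕ) : Set ℕ)))
    have h3 : q j ∈ e.toHomeomorph '' interior
      (convexHull ℝ (q0 '' ((A.erase j : Finset ℕ) : Set ℕ))) := ⟨q0 j, hjint, rfl⟩
    rw [h2] at h3
    exact h3
  -- the perturbation
  have ev1 : ∀ᶠ η : ℝ in 𝓝[>] 0, ∀ i ∈ Finset.range N, ∀ j ∈ Finset.range N, ∀ b b' : Bool,
      q i + η • mom (par i b) = q j + η • mom (par j b') → i = j ∧ b = b' := by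
    rw [Filter.eventually_all_finset]
    intro i _
    rw [Filter.eventually_all_finset]
    intro j _
    rw [Filter.eventually_all]
    intro b
    rw [Filter.eventually_all]
    intro b'
    by_cases hpar : par i b = par j b'
    · exact Filter.Eventually.of_forall fun _ _ => par_inj hpar
    · set P : Polynomial ℝ := Polynomial.C (par i b - par j b') * Polynomial.X +
        Polynomial.C (q i 0 - q j 0) with hP
      have hP0 : P ≠ 0 := by
        intro h
        have h1 : P.coeff 1 = par i b - par j b' := by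
          simp [hP]
        rw [h] at h1
        simp at h1
        exact hpar (sub_eq_zero.1 h1.symm)
      filter_upwards [eval_ne_zero_eventually P hP0] with η hη heq
      exfalso
      apply hη
      have h2 := congrArg (fun v : EuclideanSpace ℝ (Fin 3) => v 0) heq
      simp [mom] at h2
      simp [hP]
      linarith
  have ev2 : ∀ᶠ η : ℝ in 𝓝[>] 0, ∀ β : Fin 4 → Fin N × Bool, Function.Injective β →
      AffineIndependent ℝ (fun k => q (β k).1 + η • mom (par (β k).1 (β k).2)) := by
    rw [Filter.eventually_all]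
    intro β
    by_cases hβ : Function.Injective β
    · have := gp_eventually (fun k => q (β k).1) (fun k => par (β k).1 (β k).2) (by
        intro k k' h
        obtain ⟨h1, h2⟩ := par_inj h
        exact hβ (Prod.ext (Fin.ext h1) h2))
      filter_upwards [this] with η hη _ using hη
    · exact Filter.Eventually.of_forall fun _ h => absurd h hβ
  have ev3 : ∀ᶠ η : ℝ in 𝓝[>] 0, ∀ D ∈ (Finset.range N).powerset, ∀ j ∈ Finset.range N,
      ∀ b b' : Bool, q j ∈ interior (convexHull ℝ (q '' (D : Set ℕ))) →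
      q j + η • mom (par j b') ∈
        convexHull ℝ ((fun i => q i + η • mom (par i b)) '' (D : Set ℕ)) := by
    rw [Filter.eventually_all_finset]
    intro D _
    rw [Filter.eventually_all_finset]
    intro j _
    rw [Filter.eventually_all]
    intro b
    rw [Filter.eventually_all]
    intro b'
    by_cases hint : q j ∈ interior (convexHull ℝ (q '' (D : Set ℕ)))
    · obtain ⟨δ, hδ, hrob⟩ := robust D q (q j) hint
      have hclose : ∀ i b, ∀ᶠ η : ℝ in 𝓝[>] 0, ‖q i + η • mom (par i b) - q i‖ < δ := by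
        intro i b
        have hc : ContinuousAt (fun η : ℝ => ‖q i + η • mom (par i b) - q i‖) 0 := by
          fun_prop
        have h1 : ∀ᶠ η : ℝ in 𝓝 0, ‖q i + η • mom (par i b) - q i‖ < δ := by
          apply hc.eventually_lt continuousAt_const
          simp [hδ]
        exact nhdsWithin_le_nhds h1
      have h2 : ∀ᶠ η : ℝ in 𝓝[>] 0, ∀ i ∈ D, ‖q i + η • mom (par i b) - q i‖ < δ := by
        rw [Filter.eventually_all_finset]
        exact fun i _ => hclose i b
      filter_upwards [h2, hclose j b'] with η h3 h4 _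
      exact hrob _ _ h3 h4
    · exact Filter.Eventually.of_forall fun _ h => absurd h hint
  obtain ⟨η, h1, h2, h3⟩ := (ev1.and (ev2.and ev3)).exists
  refine ⟨fun i b => q i + η • mom (par i b), ?_, ?_, ?_⟩
  · intro i hi j hj b b' h
    exact h1 i (Finset.mem_range.2 hi) j (Finset.mem_range.2 hj) b b' h
  · exact h2
  · intro b b' A hA hcard
    obtain ⟨j, hj, hjint⟩ := hqprop A hA hcard
    refine ⟨j, hj, ?_⟩
    have h4 := h3 (A.erase j) (Finset.mem_powerset.2 fun i hi =>
      Finset.mem_range.2 (hA i (Finset.mem_of_mem_erase hi))) j (Finset.mem_range.2 hj) b b' hjint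
    exact convexHull_mono (Set.image_mono (by
      exact_mod_cast Finset.erase_subset j A)) h4

end Pool.Agent.Helper837.Horton
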