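import Mathlib

set_option autoImplicit false

open Set Metric
open scoped RealInnerProductSpace Pointwise

namespace Pool.Agent.Helper837.SelfBlock

/-- Euclidean 3-space. -/
abbrev E := EuclideanSpace ℝ (Fin 3)

/-! ### Isometries of `E` -/

lemma isometry_equiv (f : E → E) (hf : Isometry f) : ∃ g : E ≃ᵃⁱ[ℝ] E, ⇑g = f := by
  let a : E →ᵃⁱ[ℝ] E := hf.affineIsometryOfStrictConvexSpace
  refine ⟨a.toAffineIsometryEquiv rfl, ?_⟩
  ext1 x
  simp [a]

lemma interior_image (f : E → E) (hf : Isometry f) (K : Set E) :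
    interior (f '' K) = f '' interior K := by
  obtain ⟨g, rfl⟩ := isometry_equiv f hf
  exact (g.toHomeomorph.image_interior K).symm

/-- If `K` is a convex body, `f` is an isometry, and `f p` lies in the interior of `K'` for some
`p ∈ K`, then the interiors of `f '' K` and `K'` meet. -/
lemma not_disjoint_of_mem (f : E → E) (hf : Isometry f) (K K' : Set E) (hK : Convex ℝ K)
    (hKi : (interior K).Nonempty) (p : E) (hp : p ∈ K) (hfp : f p ∈ interior K') :
    ¬ Disjoint (interior (f '' K)) (interior K') := by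
  rw [interior_image f hf]
  have h1 : p ∈ closure (interior K) := by
    rw [hK.closure_interior_eq_closure_of_nonempty_interior hKi]
    exact subset_closure hp
  have h2 : f p ∈ closure (f '' interior K) := by
    have := image_closure_subset_closure_image hf.continuous (s := interior K)
    exact this ⟨p, h1, rfl⟩
  rw [_root_.mem_closure_iff] at h2
  obtain ⟨y, hy1, hy2⟩ := h2 _ isOpen_interior hfp
  rw [Set.disjoint_left]
  push Not
  exact ⟨y, hy2, hy1⟩

/-! ### The path argument -/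

lemma path_const (γ : unitInterval → E → E)
    (hc : Continuous (fun p : unitInterval × E => γ p.1 p.2)) (h0 : γ 0 = id)
    (F : Finset E) (δ : ℝ) (hδ : 0 < δ)
    (hloc : ∀ t, (∀ x ∈ F, dist (γ t x) x < δ) → γ t = id) :
    ∀ t, γ t = id := by
  have hcx : ∀ x : E, Continuous (fun t : unitInterval => γ t x) := fun x =>
    hc.comp (continuous_id.prodMk continuous_const)
  have hcl : IsClosed {t : unitInterval | γ t = id} := by
    have : {t : unitInterval | γ t = id} = ⋂ x : E, {t | γ t x = x} := by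
      ext t
      simp [funext_iff]
    rw [this]
    exact isClosed_iInter fun x => isClosed_eq (hcx x) continuous_const
  have hop : IsOpen {t : unitInterval | γ t = id} := by
    have : {t : unitInterval | γ t = id} = ⋂ x ∈ F, {t | dist (γ t x) x < δ} := by
      ext t
      simp only [mem_ofPred_eq, mem_iInter]
      constructor
      · intro h x _
        simp [h, hδ]
      · intro h
        exact hloc t h
    rw [this]
    refine isOpen_biInter_finset fun x _ => ?_
    exact isOpen_lt ((hcx x).dist continuous_const) continuous_const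
  have huniv : {t : unitInterval | γ t = id} = univ :=
    IsClopen.eq_univ ⟨hcl, hop⟩ ⟨0, h0⟩
  intro t
  have : t ∈ {t : unitInterval | γ t = id} := by rw [huniv]; trivial
  exact this

/-! ### Rigidity in coordinates -/

/-- The wrench (force, torque) of a unit pressure at `p` in direction `n`. -/
noncomputable def wr (n p : E) : Fin 6 → ℝ :=
  ![n 0, n 1, n 2, p 1 * n 2 - p 2 * n 1, p 2 * n 0 - p 0 * n 2, p 0 * n 1 - p 1 * n 0]

lemma wr_expand (n p : E) (M : Fin 3 → Fin 3 → ℝ) (v : Fin 3 → ℝ) :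
    ∑ l, wr n p l * (![v 0, v 1, v 2, (M 2 1 - M 1 2) / 2, (M 0 2 - M 2 0) / 2,
      (M 1 0 - M 0 1) / 2] : Fin 6 → ℝ) l =
    ∑ a, n a * (v a + ∑ b, M a b * p b) - ∑ a, ∑ b, n a * p b * ((M a b + M b a) / 2) := by
  simp [wr, Fin.sum_univ_succ]
  ring

lemma coord_rigid (m : ℕ) (n p : Fin m → E) (C : ℝ)
    (hC : ∀ (z : Fin 6 → ℝ) (η : ℝ), 0 ≤ η → (∀ k, ∑ l, wr (n k) (p k) l * z l ≤ η) →
      ∀ l, |z l| ≤ C * η) :
    ∃ δ > 0, ∀ (M : Fin 3 → Fin 3 → ℝ) (v : Fin 3 → ℝ),
      (∀ a b, M a b + M b a + ∑ c, M c a * M c b = 0) →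
      (∀ a b, |M a b| ≤ δ) →
      (∀ k, ∑ a, n k a * (v a + ∑ b, M a b * p k b) ≤ 0) →
      (∀ a b, M a b = 0) ∧ (∀ a, v a = 0) := by
  set R : ℝ := ∑ k, ∑ a, ∑ b, |n k a| * |p k b| with hR
  have hR0 : 0 ≤ R := by positivity
  set C' : ℝ := |C| * (R * (3 / 2)) + 3 / 2 with hC'
  have hC'0 : 0 < C' := by positivity
  refine ⟨1 / (C' + 1), by positivity, ?_⟩
  intro M v horth hδ hcon
  -- maximum entry
  obtain ⟨⟨a0, b0⟩, hmax⟩ := Finite.exists_max (fun q : Fin 3 × Fin 3 => |M q.1 q.2|)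
  set μ : ℝ := |M a0 b0| with hμ
  have hμ0 : 0 ≤ μ := abs_nonneg _
  have hM : ∀ a b, |M a b| ≤ μ := fun a b => hmax (a, b)
  have hsym : ∀ a b, |(M a b + M b a) / 2| ≤ 3 / 2 * μ ^ 2 := by
    intro a b
    have h1 : M a b + M b a = - ∑ c, M c a * M c b := by linarith [horth a b]
    have h2 : |∑ c, M c a * M c b| ≤ 3 * μ ^ 2 := by
      calc |∑ c, M c a * M c b| ≤ ∑ c, |M c a * M c b| := Finset.abs_sum_le_sum_abs _ _
        _ ≤ ∑ _c : Fin 3, μ ^ 2 := by
            refine Finset.sum_le_sum fun c _ => ?_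
            rw [abs_mul, pow_two]
            exact mul_le_mul (hM _ _) (hM _ _) (abs_nonneg _) hμ0
        _ = 3 * μ ^ 2 := by simp
    rw [h1, abs_div, abs_neg, abs_two]
    linarith
  have hη : ∀ k, ∑ l, wr (n k) (p k) l * (![v 0, v 1, v 2, (M 2 1 - M 1 2) / 2,
      (M 0 2 - M 2 0) / 2, (M 1 0 - M 0 1) / 2] : Fin 6 → ℝ) l ≤ R * (3 / 2) * μ ^ 2 := by
    intro k
    rw [wr_expand]
    have h1 : |∑ a, ∑ b, n k a * p k b * ((M a b + M b a) / 2)| ≤ R * (3 / 2) * μ ^ 2 := by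
      calc |∑ a, ∑ b, n k a * p k b * ((M a b + M b a) / 2)|
          ≤ ∑ a, |∑ b, n k a * p k b * ((M a b + M b a) / 2)| := Finset.abs_sum_le_sum_abs _ _
        _ ≤ ∑ a, ∑ b, |n k a * p k b * ((M a b + M b a) / 2)| :=
            Finset.sum_le_sum fun a _ => Finset.abs_sum_le_sum_abs _ _
        _ ≤ ∑ a, ∑ b, |n k a| * |p k b| * (3 / 2 * μ ^ 2) := by
            refine Finset.sum_le_sum fun a _ => Finset.sum_le_sum fun b _ => ?_
            rw [abs_mul, abs_mul]
            exact mul_le_mul_of_nonneg_left (hsym a b) (by positivity)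
        _ = (∑ a, ∑ b, |n k a| * |p k b|) * (3 / 2 * μ ^ 2) := by
            simp only [Finset.sum_mul]
        _ ≤ R * (3 / 2 * μ ^ 2) := by
            refine mul_le_mul_of_nonneg_right ?_ (by positivity)
            exact Finset.single_le_sum (f := fun k => ∑ a, ∑ b, |n k a| * |p k b|)
              (fun i _ => by positivity) (Finset.mem_univ k)
        _ = R * (3 / 2) * μ ^ 2 := by ring
    have h2 := hcon k
    have h3 := (abs_le.mp h1).1
    linarith
  have hz := hC _ _ (by positivity) hη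
  have hz' : ∀ l, |(![v 0, v 1, v 2, (M 2 1 - M 1 2) / 2,
      (M 0 2 - M 2 0) / 2, (M 1 0 - M 0 1) / 2] : Fin 6 → ℝ) l| ≤ |C| * (R * (3 / 2)) * μ ^ 2 := by
    intro l
    refine (hz l).trans ?_
    calc C * (R * (3 / 2) * μ ^ 2) ≤ |C| * (R * (3 / 2) * μ ^ 2) :=
          mul_le_mul_of_nonneg_right (le_abs_self C) (by positivity)
      _ = |C| * (R * (3 / 2)) * μ ^ 2 := by ring
  have hz3 := hz' 3
  have hz4 := hz' 4
  have hz5 := hz' 5
  simp only [Matrix.cons_val] at hz3 hz4 hz5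
  have hanti : ∀ a b, |(M a b - M b a) / 2| ≤ |C| * (R * (3 / 2)) * μ ^ 2 := by
    have hnn : 0 ≤ |C| * (R * (3 / 2)) * μ ^ 2 := by positivity
    have hsw : ∀ x y : ℝ, |(x - y) / 2| = |(y - x) / 2| := fun x y => by
      rw [← abs_neg]; congr 1; ring
    intro a b
    fin_cases a <;> fin_cases b
    · simpa using hnn
    · rw [hsw]; simpa using hz5
    · simpa using hz4
    · simpa using hz5
    · simpa using hnn
    · rw [hsw]; simpa using hz3
    · rw [hsw]; simpa using hz4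
    · simpa using hz3
    · simpa using hnn
  have hbound : μ ≤ C' * μ ^ 2 := by
    have h1 := hanti a0 b0
    have h2 := hsym a0 b0
    have h3 : M a0 b0 = (M a0 b0 - M b0 a0) / 2 + (M a0 b0 + M b0 a0) / 2 := by ring
    calc μ = |(M a0 b0 - M b0 a0) / 2 + (M a0 b0 + M b0 a0) / 2| := by rw [hμ, ← h3]
      _ ≤ |(M a0 b0 - M b0 a0) / 2| + |(M a0 b0 + M b0 a0) / 2| := abs_add_le _ _
      _ ≤ |C| * (R * (3 / 2)) * μ ^ 2 + 3 / 2 * μ ^ 2 := add_le_add h1 h2
      _ = C' * μ ^ 2 := by rw [hC']; ring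
  have hμz : μ = 0 := by
    by_contra hne
    have hpos : 0 < μ := lt_of_le_of_ne hμ0 (Ne.symm hne)
    have h1 : 1 ≤ C' * μ := by
      have : μ * 1 ≤ μ * (C' * μ) := by nlinarith
      exact le_of_mul_le_mul_left this hpos
    have h2 : μ ≤ 1 / (C' + 1) := hδ a0 b0
    have h3 : C' * μ ≤ C' * (1 / (C' + 1)) := mul_le_mul_of_nonneg_left h2 hC'0.le
    have h4 : C' * (1 / (C' + 1)) < 1 := by
      rw [mul_one_div, div_lt_one (by positivity)]
      linarith
    linarith
  have hM0 : ∀ a b, M a b = 0 := by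
    intro a b
    have := hM a b
    rw [hμz] at this
    exact abs_eq_zero.mp (le_antisymm this (abs_nonneg _))
  refine ⟨hM0, ?_⟩
  have hz0 := hz' 0
  have hz1 := hz' 1
  have hz2 := hz' 2
  simp only [Matrix.cons_val, hμz] at hz0 hz1 hz2
  intro a
  fin_cases a
  · simpa using hz0
  · simpa using hz1
  · simpa using hz2

lemma abs_apply_le (x : E) (a : Fin 3) : |x a| ≤ ‖x‖ := by
  have := PiLp.norm_apply_le x a
  simpa using this

/-- First order immobility: if the wrenches positively span, then an isometry near the identity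
that does not move any contact point outwards is the identity. -/
lemma local_rigid (m : ℕ) (n p : Fin m → E) (C : ℝ)
    (hC : ∀ (z : Fin 6 → ℝ) (η : ℝ), 0 ≤ η → (∀ k, ∑ l, wr (n k) (p k) l * z l ≤ η) →
      ∀ l, |z l| ≤ C * η) :
    ∃ δ > 0, ∀ g : E → E, Isometry g →
      (∀ x ∈ insert (0 : E) (Finset.univ.image fun b : Fin 3 => EuclideanSpace.single b (1 : ℝ)),
        dist (g x) x < δ) →
      (∀ k, ⟪n k, g (p k) - p k⟫ ≤ 0) → g = id := by
  obtain ⟨δ, hδ, H⟩ := coord_rigid m n p C hC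
  refine ⟨δ / 2, by positivity, ?_⟩
  intro f hf hd hcon
  obtain ⟨g, rfl⟩ := isometry_equiv f hf
  set L := g.linearIsometryEquiv with hL
  have hg : ∀ x, g x = L x + g 0 := by
    intro x
    have := g.map_vadd 0 x
    simpa using this
  set M : Fin 3 → Fin 3 → ℝ := fun a b => (L (EuclideanSpace.single b 1)) a -
    (EuclideanSpace.single b (1 : ℝ) : E) a with hMdef
  set v : Fin 3 → ℝ := fun a => (g 0) a with hv
  have hexp : ∀ x : E, x = ∑ b, x b • (EuclideanSpace.single b (1 : ℝ) : E) := by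
    intro x
    ext a
    simp [Finset.sum_apply, Pi.single_apply]
  have hgp : ∀ (x : E) (a : Fin 3), (g x - x) a = v a + ∑ b, M a b * x b := by
    intro x a
    have h1 : L x = ∑ b, x b • L (EuclideanSpace.single b (1 : ℝ)) := by
      conv_lhs => rw [hexp x]
      simp [map_sum]
    have h2 : x a = ∑ b, x b * (EuclideanSpace.single b (1 : ℝ) : E) a := by
      simp
    rw [hg x]
    simp only [PiLp.sub_apply, PiLp.add_apply, h1, hMdef, hv]
    have h3 : (∑ b, x b • L (EuclideanSpace.single b (1 : ℝ))) a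
        = ∑ b, x b * (L (EuclideanSpace.single b (1 : ℝ))) a := by
      simp
    rw [h3]
    conv_lhs => rw [h2]
    simp only [sub_mul, Finset.sum_sub_distrib]
    simp only [mul_comm]
    ring
  have hinner : ∀ x y : E, ⟪x, y⟫ = ∑ a, x a * y a := by
    intro x y
    simp [PiLp.inner_apply, mul_comm]
  have hmain := H M v ?_ ?_ ?_
  · obtain ⟨hM0, hv0⟩ := hmain
    ext x a
    have h := hgp x a
    simp only [hM0, hv0, zero_mul, Finset.sum_const_zero, add_zero, PiLp.sub_apply] at h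
    simp only [id]
    linarith
  · intro a b
    have h1 : ⟪L (EuclideanSpace.single a (1 : ℝ)), L (EuclideanSpace.single b (1 : ℝ))⟫ =
        ⟪(EuclideanSpace.single a (1 : ℝ) : E), EuclideanSpace.single b (1 : ℝ)⟫ :=
      L.inner_map_map _ _
    rw [hinner, hinner] at h1
    have h2 : ∀ c d, (L (EuclideanSpace.single d (1 : ℝ))) c =
        M c d + (EuclideanSpace.single d (1 : ℝ) : E) c := by
      intro c d; simp [hMdef]
    simp only [h2, add_mul, mul_add, Finset.sum_add_distrib] at h1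
    have h3 : ∑ c, M c a * (EuclideanSpace.single b (1 : ℝ) : E) c = M b a := by
      simp
    have h4 : ∑ c, (EuclideanSpace.single a (1 : ℝ) : E) c * M c b = M a b := by
      simp
    rw [h3, h4] at h1
    linarith
  · intro a b
    have h1 : M a b = (g (EuclideanSpace.single b (1 : ℝ)) - EuclideanSpace.single b (1 : ℝ)) a
        - (g 0 - 0) a := by
      rw [hg (EuclideanSpace.single b (1 : ℝ))]
      simp [hMdef]
      ring
    have h2 : |(g (EuclideanSpace.single b (1 : ℝ)) - EuclideanSpace.single b (1 : ℝ)) a| ≤ δ / 2 := by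
      refine (abs_apply_le _ a).trans ?_
      rw [← dist_eq_norm]
      exact (hd _ (by simp)).le
    have h3 : |(g 0 - 0) a| ≤ δ / 2 := by
      refine (abs_apply_le _ a).trans ?_
      rw [← dist_eq_norm]
      exact (hd _ (by simp)).le
    rw [h1]
    calc _ ≤ |(g (EuclideanSpace.single b (1 : ℝ)) - EuclideanSpace.single b (1 : ℝ)) a|
        + |(g 0 - 0) a| := abs_sub _ _
      _ ≤ δ := by linarith
  · intro k
    have h := hcon k
    rw [hinner] at h
    simpa only [hgp] using h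

/-! ### Smooth bodies: polytope plus a small ball -/

/-- Inner polytope. -/
def Q {ι : Type*} (n : ι → ι → E) (h : ι → ι → ℝ) (ε B : ℝ) (i : ι) : Set E :=
  {x | ‖x‖ ≤ B ∧ ∀ j, j ≠ i → ⟪n i j, x⟫ ≤ h i j - ε * ‖n i j‖}

/-- Rounded body. -/
def K {ι : Type*} (n : ι → ι → E) (h : ι → ι → ℝ) (ε B : ℝ) (i : ι) : Set E :=
  {x | ∃ q ∈ Q n h ε B i, ‖x - q‖ ≤ ε}

section
variable {ι : Type*} (n : ι → ι → E) (h : ι → ι → ℝ) (ε B : ℝ) (i : ι)

lemma Q_convex : Convex ℝ (Q n h ε B i) := by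
  have h1 : Convex ℝ {x : E | ‖x‖ ≤ B} := by
    have : {x : E | ‖x‖ ≤ B} = closedBall 0 B := by ext; simp
    rw [this]; exact convex_closedBall _ _
  have h2 : Convex ℝ {x : E | ∀ j, j ≠ i → ⟪n i j, x⟫ ≤ h i j - ε * ‖n i j‖} := by
    have : {x : E | ∀ j, j ≠ i → ⟪n i j, x⟫ ≤ h i j - ε * ‖n i j‖} =
        ⋂ j, ⋂ (_ : j ≠ i), {x | ⟪n i j, x⟫ ≤ h i j - ε * ‖n i j‖} := by
      ext; simp
    rw [this]
    exact convex_iInter fun j => convex_iInter fun _ =>
      convex_halfSpace_le ((innerₛₗ ℝ (n i j)).isLinear) _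
  exact h1.inter h2

lemma Q_closed : IsClosed (Q n h ε B i) := by
  have h1 : IsClosed {x : E | ‖x‖ ≤ B} := isClosed_le continuous_norm continuous_const
  have h2 : IsClosed {x : E | ∀ j, j ≠ i → ⟪n i j, x⟫ ≤ h i j - ε * ‖n i j‖} := by
    have : {x : E | ∀ j, j ≠ i → ⟪n i j, x⟫ ≤ h i j - ε * ‖n i j‖} =
        ⋂ j, ⋂ (_ : j ≠ i), {x | ⟪n i j, x⟫ ≤ h i j - ε * ‖n i j‖} := by
      ext; simp
    rw [this]
    exact isClosed_iInter fun j => isClosed_iInter fun _ =>
      isClosed_le (by fun_prop) continuous_const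
  exact h1.inter h2

lemma Q_compact : IsCompact (Q n h ε B i) := by
  refine Metric.isCompact_of_isClosed_isBounded (Q_closed n h ε B i) ?_
  refine (isBounded_closedBall (x := (0 : E)) (r := B)).subset ?_
  intro x hx
  simpa using hx.1

lemma K_eq : K n h ε B i = Q n h ε B i + closedBall (0 : E) ε := by
  ext x
  simp only [K, mem_ofPred_eq, Set.mem_add, mem_closedBall, dist_zero_right]
  constructor
  · rintro ⟨q, hq, hx⟩
    exact ⟨q, hq, x - q, hx, by simp⟩
  · rintro ⟨q, hq, y, hy, rfl⟩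
    exact ⟨q, hq, by simpa using hy⟩

lemma K_convex : Convex ℝ (K n h ε B i) := by
  rw [K_eq]
  exact (Q_convex n h ε B i).add (convex_closedBall _ _)

lemma K_compact : IsCompact (K n h ε B i) := by
  rw [K_eq]
  exact (Q_compact n h ε B i).add (isCompact_closedBall _ _)

lemma K_interior (hε : 0 < ε) (hQ : (Q n h ε B i).Nonempty) : (interior (K n h ε B i)).Nonempty := by
  obtain ⟨q, hq⟩ := hQ
  refine ⟨q, mem_interior.mpr ⟨ball q ε, ?_, isOpen_ball, mem_ball_self hε⟩⟩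
  intro x hx
  exact ⟨q, hq, by rw [← dist_eq_norm]; exact (mem_ball.mp hx).le⟩

/-- A supporting functional of a body containing a ball of radius `ε` around `q` at a point `x` of
that ball is a positive multiple of `x - q`. -/
lemma support_dir (hε : 0 < ε) (q x u : E) (hx : ‖x - q‖ ≤ ε) (hu : u ≠ 0)
    (hs : ∀ y, ‖y - q‖ ≤ ε → ⟪u, y - x⟫ ≤ 0) : u = (‖u‖ / ε) • (x - q) := by
  have hu0 : 0 < ‖u‖ := norm_pos_iff.mpr hu
  have h1 := hs (q + (ε / ‖u‖) • u) (by
    simp [norm_smul, abs_of_pos hε, hu0.ne'])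
  have h2 : ⟪u, q + (ε / ‖u‖) • u - x⟫ = ε * ‖u‖ - ⟪u, x - q⟫ := by
    have : q + (ε / ‖u‖) • u - x = (ε / ‖u‖) • u - (x - q) := by abel
    rw [this, inner_sub_right, inner_smul_right, real_inner_self_eq_norm_sq]
    field_simp
  rw [h2] at h1
  have h3 : ⟪u, x - q⟫ = ‖u‖ * ‖x - q‖ := by
    have := real_inner_le_norm u (x - q)
    nlinarith
  have h4 : ‖x - q‖ = ε := by
    rw [h3] at h1
    have : ε ≤ ‖x - q‖ := by
      by_contra hlt
      push Not at hlt
      nlinarith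
    exact le_antisymm hx this
  have h5 := (inner_eq_norm_mul_iff_real).mp h3
  -- h5 : ‖x - q‖ • u = ‖u‖ • (x - q)
  rw [h4] at h5
  calc u = (1 / ε) • (ε • u) := by rw [smul_smul]; field_simp; simp
    _ = (1 / ε) • (‖u‖ • (x - q)) := by rw [h5]
    _ = (‖u‖ / ε) • (x - q) := by rw [smul_smul]; congr 1; ring

lemma K_smooth (hε : 0 < ε) : ∀ x ∈ frontier (K n h ε B i), ∀ u v : E, u ≠ 0 → v ≠ 0 →
    (∀ y ∈ K n h ε B i, ⟪u, y - x⟫ ≤ 0) → (∀ y ∈ K n h ε B i, ⟪v, y - x⟫ ≤ 0) →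
    ∃ c : ℝ, 0 < c ∧ v = c • u := by
  intro x hx u v hu hv hsu hsv
  have hxK : x ∈ K n h ε B i := by
    have := hx.1
    rwa [(K_compact n h ε B i).isClosed.closure_eq] at this
  obtain ⟨q, hq, hxq⟩ := hxK
  have h1 := support_dir ε hε q x u hxq hu (fun y hy => hsu y ⟨q, hq, hy⟩)
  have h2 := support_dir ε hε q x v hxq hv (fun y hy => hsv y ⟨q, hq, hy⟩)
  have hu0 : 0 < ‖u‖ := norm_pos_iff.mpr hu
  have hv0 : 0 < ‖v‖ := norm_pos_iff.mpr hv
  refine ⟨‖v‖ / ‖u‖, by positivity, ?_⟩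
  calc v = (‖v‖ / ε) • (x - q) := h2
    _ = (‖v‖ / ‖u‖) • ((‖u‖ / ε) • (x - q)) := by
        rw [smul_smul]; congr 1; field_simp
    _ = (‖v‖ / ‖u‖) • u := by rw [← h1]

lemma K_halfspace (j : ι) (hj : j ≠ i) (x : E) (hx : x ∈ K n h ε B i) : ⟪n i j, x⟫ ≤ h i j := by
  obtain ⟨q, hq, hxq⟩ := hx
  have h1 := hq.2 j hj
  have h2 : ⟪n i j, x⟫ = ⟪n i j, q⟫ + ⟪n i j, x - q⟫ := by rw [← inner_add_right]; congr 1; abel
  have h3 := real_inner_le_norm (n i j) (x - q)
  have h4 : ‖n i j‖ * ‖x - q‖ ≤ ‖n i j‖ * ε := mul_le_mul_of_nonneg_left hxq (norm_nonneg _)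
  linarith

end

/-- Sets separated by a plane have disjoint interiors. -/
lemma disjoint_interior (S T : Set E) (u : E) (c : ℝ) (hu : u ≠ 0) (hS : ∀ x ∈ S, ⟪u, x⟫ ≤ c)
    (hT : ∀ x ∈ T, c ≤ ⟪u, x⟫) : Disjoint (interior S) (interior T) := by
  rw [Set.disjoint_left]
  intro x hxS hxT
  have h1 : ⟪u, x⟫ = c := le_antisymm (hS x (interior_subset hxS)) (hT x (interior_subset hxT))
  rw [mem_interior_iff_mem_nhds, Metric.mem_nhds_iff] at hxS
  obtain ⟨r, hr, hball⟩ := hxS
  have hu0 : 0 < ‖u‖ := norm_pos_iff.mpr hu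
  have h2 := hS (x + (r / 2 / ‖u‖) • u) (hball (by
    simp [norm_smul, hu0.ne', abs_of_pos hr]
    linarith))
  rw [inner_add_right, inner_smul_right, real_inner_self_eq_norm_sq, h1] at h2
  have : 0 < r / 2 / ‖u‖ * ‖u‖ ^ 2 := by positivity
  linarith

/-! ### Contacts -/

/-- `p` is a robust contact point of bodies `i` and `j`. -/
structure Contact {ι : Type*} (n : ι → ι → E) (h : ι → ι → ℝ) (ε B : ℝ) (i j : ι) (p : E) :
    Prop where
  ne : j ≠ i
  plane : ⟪n i j, p⟫ = h i j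
  left : ∀ l, l ≠ i → l ≠ j → ⟪n i l, p⟫ + 3 * ε * ‖n i l‖ ≤ h i l
  right : ∀ l, l ≠ j → l ≠ i → ⟪n j l, p⟫ + 3 * ε * ‖n j l‖ ≤ h j l
  bound : ‖p‖ + 3 * ε ≤ B

section
variable {ι : Type*} (n : ι → ι → E) (h : ι → ι → ℝ) (ε B : ℝ)

lemma contact_mem_left (hε : 0 < ε) {i j : ι} {p : E} (hc : Contact n h ε B i j p)
    (hn : n i j ≠ 0) : p - (ε / ‖n i j‖) • n i j ∈ Q n h ε B i := by
  have hn0 : 0 < ‖n i j‖ := norm_pos_iff.mpr hn
  have hnorm : ‖(ε / ‖n i j‖) • n i j‖ = ε := by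
    simp [norm_smul, abs_of_pos hε, hn0.ne']
  refine ⟨?_, ?_⟩
  · have h1 := norm_sub_le p ((ε / ‖n i j‖) • n i j)
    have h2 := hc.bound
    rw [hnorm] at h1
    linarith
  · intro l hl
    by_cases hlj : l = j
    · subst hlj
      rw [inner_sub_right, inner_smul_right, real_inner_self_eq_norm_sq, hc.plane]
      have : ε / ‖n i l‖ * ‖n i l‖ ^ 2 = ε * ‖n i l‖ := by field_simp
      linarith
    · have h1 := hc.left l hl hlj
      have h2 : ⟪n i l, p - (ε / ‖n i j‖) • n i j⟫ =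
          ⟪n i l, p⟫ - ⟪n i l, (ε / ‖n i j‖) • n i j⟫ := inner_sub_right _ _ _
      have h3 := abs_real_inner_le_norm (n i l) ((ε / ‖n i j‖) • n i j)
      rw [hnorm] at h3
      have h4 := (abs_le.mp h3).1
      have h5 : 0 ≤ ε * ‖n i l‖ := by positivity
      nlinarith

lemma contact_mem (hε : 0 < ε) {i j : ι} {p : E} (hc : Contact n h ε B i j p)
    (hn : n i j ≠ 0) : p ∈ K n h ε B i := by
  refine ⟨_, contact_mem_left n h ε B hε hc hn, ?_⟩
  have hn0 : 0 < ‖n i j‖ := norm_pos_iff.mpr hn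
  simp [norm_smul, abs_of_pos hε, hn0.ne']

lemma contact_nbhd (hε : 0 < ε) {i j : ι} {p : E} (hc : Contact n h ε B i j p)
    (hn : n i j ≠ 0) (ha : n j i = - n i j) (hb : h j i = - h i j) (x : E)
    (hx : ‖x - p‖ < ε) (hx2 : h i j < ⟪n i j, x⟫) : x ∈ interior (K n h ε B j) := by
  have hop : IsOpen {y : E | ‖y - p‖ < ε ∧ h i j < ⟪n i j, y⟫} := by
    have h1 : IsOpen {y : E | ‖y - p‖ < ε} := isOpen_lt (by fun_prop) continuous_const
    have h2 : IsOpen {y : E | h i j < ⟪n i j, y⟫} := isOpen_lt continuous_const (by fun_prop)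
    exact h1.inter h2
  refine mem_interior.mpr ⟨_, ?_, hop, ⟨hx, hx2⟩⟩
  rintro y ⟨hy1, hy2⟩
  have hn0 : 0 < ‖n i j‖ := norm_pos_iff.mpr hn
  have hnorm : ‖(ε / ‖n i j‖) • n i j‖ = ε := by
    simp [norm_smul, abs_of_pos hε, hn0.ne']
  refine ⟨y + (ε / ‖n i j‖) • n i j, ⟨?_, ?_⟩, ?_⟩
  · have h1 := norm_add_le y ((ε / ‖n i j‖) • n i j)
    have h2 := hc.bound
    have h3 : ‖y‖ ≤ ‖y - p‖ + ‖p‖ := by
      have := norm_add_le (y - p) p
      simpa using this
    rw [hnorm] at h1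
    linarith
  · intro l hl
    by_cases hli : l = i
    · subst hli
      rw [ha, hb, inner_neg_left, norm_neg, inner_add_right, inner_smul_right,
        real_inner_self_eq_norm_sq]
      have : ε / ‖n l j‖ * ‖n l j‖ ^ 2 = ε * ‖n l j‖ := by field_simp
      linarith
    · have h1 := hc.right l hl hli
      have h2 : ⟪n j l, y + (ε / ‖n i j‖) • n i j⟫ =
          ⟪n j l, p⟫ + ⟪n j l, y - p⟫ + ⟪n j l, (ε / ‖n i j‖) • n i j⟫ := by
        rw [← inner_add_right, ← inner_add_right]; congr 1; abel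
      have h3 := real_inner_le_norm (n j l) ((ε / ‖n i j‖) • n i j)
      rw [hnorm] at h3
      have h4 := real_inner_le_norm (n j l) (y - p)
      have h5 : ‖n j l‖ * ‖y - p‖ ≤ ‖n j l‖ * ε :=
        mul_le_mul_of_nonneg_left hy1.le (norm_nonneg _)
      rw [h2]
      nlinarith
  · have : y - (y + (ε / ‖n i j‖) • n i j) = - ((ε / ‖n i j‖) • n i j) := by abel
    rw [this, norm_neg, hnorm]

lemma contact_constraint (hε : 0 < ε) {i j : ι} {p : E} (hc : Contact n h ε B i j p)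
    (hn : n i j ≠ 0) (ha : n j i = - n i j) (hb : h j i = - h i j) (g : E → E)
    (hg : Isometry g) (hd : dist (g p) p < ε)
    (hdis : Disjoint (interior (g '' K n h ε B i)) (interior (K n h ε B j))) :
    ⟪n i j, g p - p⟫ ≤ 0 := by
  by_contra hlt
  push Not at hlt
  rw [inner_sub_right, hc.plane] at hlt
  have h1 := contact_nbhd n h ε B hε hc hn ha hb (g p) (by rwa [← dist_eq_norm]) (by linarith)
  exact not_disjoint_of_mem g hg _ _ (K_convex n h ε B i)
    (K_interior n h ε B i hε ⟨_, contact_mem_left n h ε B hε hc hn⟩) p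
    (contact_mem n h ε B hε hc hn) h1 hdis

end

/-- A nonnegative certificate that the wrenches positively span gives a quantitative bound. -/
lemma cert_bound (m : ℕ) (w : Fin m → Fin 6 → ℝ) (P M : Fin 6 → Fin m → ℝ) (dp dm : Fin 6 → ℝ)
    (hP : ∀ l k, 0 ≤ P l k) (hM : ∀ l k, 0 ≤ M l k) (hdp : ∀ l, 1 ≤ dp l) (hdm : ∀ l, 1 ≤ dm l)
    (h1 : ∀ l l', ∑ k, P l k * w k l' = if l = l' then dp l else 0)
    (h2 : ∀ l l', ∑ k, M l k * w k l' = if l = l' then - dm l else 0) :
    ∀ (z : Fin 6 → ℝ) (η : ℝ), 0 ≤ η → (∀ k, ∑ l, w k l * z l ≤ η) →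
      ∀ l, |z l| ≤ (∑ l, ∑ k, (P l k + M l k)) * η := by
  intro z η hη hz l
  have key : ∀ (A : Fin 6 → Fin m → ℝ) (d : ℝ), (∀ l k, 0 ≤ A l k) →
      (∀ l', ∑ k, A l k * w k l' = if l = l' then d else 0) →
      d * z l ≤ (∑ k, A l k) * η := by
    intro A d hA hd
    have e1 : ∑ k, A l k * ∑ l', w k l' * z l' = d * z l := by
      calc ∑ k, A l k * ∑ l', w k l' * z l' = ∑ l', (∑ k, A l k * w k l') * z l' := by
            simp only [Finset.mul_sum, Finset.sum_mul]
            rw [Finset.sum_comm]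
            exact Finset.sum_congr rfl fun _ _ => Finset.sum_congr rfl fun _ _ => by ring
        _ = d * z l := by simp [hd]
    rw [← e1, Finset.sum_mul]
    exact Finset.sum_le_sum fun k _ => mul_le_mul_of_nonneg_left (hz k) (hA l k)
  have k1 := key P (dp l) hP (h1 l)
  have k2 := key M (- dm l) hM (h2 l)
  have s1 : ∑ k, P l k ≤ ∑ l, ∑ k, (P l k + M l k) := by
    calc ∑ k, P l k ≤ ∑ k, (P l k + M l k) :=
          Finset.sum_le_sum fun k _ => by linarith [hM l k]
      _ ≤ _ := Finset.single_le_sum (f := fun l => ∑ k, (P l k + M l k))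
          (fun i _ => Finset.sum_nonneg fun k _ => add_nonneg (hP i k) (hM i k)) (Finset.mem_univ l)
  have s2 : ∑ k, M l k ≤ ∑ l, ∑ k, (P l k + M l k) := by
    calc ∑ k, M l k ≤ ∑ k, (P l k + M l k) :=
          Finset.sum_le_sum fun k _ => by linarith [hP l k]
      _ ≤ _ := Finset.single_le_sum (f := fun l => ∑ k, (P l k + M l k))
          (fun i _ => Finset.sum_nonneg fun k _ => add_nonneg (hP i k) (hM i k)) (Finset.mem_univ l)
  set S := ∑ l, ∑ k, (P l k + M l k)
  have t1 : (∑ k, P l k) * η ≤ S * η := mul_le_mul_of_nonneg_right s1 hη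
  have t2 : (∑ k, M l k) * η ≤ S * η := mul_le_mul_of_nonneg_right s2 hη
  have hS : 0 ≤ S * η := by
    refine mul_nonneg ?_ hη
    exact Finset.sum_nonneg fun i _ => Finset.sum_nonneg fun k _ => add_nonneg (hP i k) (hM i k)
  have q1 := hdp l
  have q2 := hdm l
  rw [abs_le]
  constructor
  · by_cases hz0 : 0 ≤ z l
    · linarith
    · push Not at hz0
      nlinarith
  · by_cases hz0 : z l ≤ 0
    · linarith
    · push Not at hz0
      nlinarith

/-- The abstract construction. -/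
theorem immobile {ι : Type*} (n : ι → ι → E) (h : ι → ι → ℝ) (ε B : ℝ)
    (hε : 0 < ε) (hn : ∀ i j, i ≠ j → n i j ≠ 0) (ha : ∀ i j, i ≠ j → n j i = - n i j)
    (hb : ∀ i j, i ≠ j → h j i = - h i j) (i : ι) (m : ℕ) (J : Fin m → ι) (p : Fin m → E)
    (hc : ∀ k, Contact n h ε B i (J k) (p k)) (C : ℝ)
    (hC : ∀ (z : Fin 6 → ℝ) (η : ℝ), 0 ≤ η →
      (∀ k, ∑ l, wr (n i (J k)) (p k) l * z l ≤ η) → ∀ l, |z l| ≤ C * η)
    (γ : unitInterval → E → E) (hiso : ∀ t, Isometry (γ t))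
    (hcont : Continuous (fun p : unitInterval × E => γ p.1 p.2)) (h0 : γ 0 = id)
    (hdis : ∀ t, ∀ j, j ≠ i →
      Disjoint (interior (γ t '' K n h ε B i)) (interior (K n h ε B j))) :
    ∀ t, γ t = id := by
  classical
  obtain ⟨δ, hδ, H⟩ := local_rigid m (fun k => n i (J k)) p C hC
  refine path_const γ hcont h0
    ((insert (0 : E) (Finset.univ.image fun b : Fin 3 => EuclideanSpace.single b (1 : ℝ))) ∪
      Finset.univ.image p) (min δ ε) (lt_min hδ hε) ?_
  intro t ht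
  refine H (γ t) (hiso t) ?_ ?_
  · intro x hx
    exact lt_of_lt_of_le (ht x (Finset.mem_union_left _ hx)) (min_le_left _ _)
  · intro k
    refine contact_constraint n h ε B hε (hc k) (hn _ _ (hc k).ne.symm)
      (ha _ _ (hc k).ne.symm) (hb _ _ (hc k).ne.symm) (γ t) (hiso t) ?_ (hdis t _ (hc k).ne)
    exact lt_of_lt_of_le (ht _ (Finset.mem_union_right _ (by simp))) (min_le_right _ _)

end Pool.Agent.Helper837.SelfBlock
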