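import Mathlib
import Pool.Agent.Helper837.SelfBlock

set_option autoImplicit false

open Set Metric
open scoped RealInnerProductSpace

namespace Pool.Agent.Helper837.Nine

open Pool.Agent.Helper837.SelfBlock

/-- Contact planes: entry `i j` is `(a, b, c, h)`, body `i` lies in `a x + b y + c z ≤ h`. -/
def NN : Fin 9 → Fin 9 → Fin 4 → ℤ :=
  ![![![0, 0, 0, 0],
      ![3, 0, 0, 4],
      ![1, 1, -4, 0],
      ![0, 0, -3, -4],
      ![5, -3, -3, 0],
      ![-2, 1, -2, 0],
      ![-1, 0, -3, -5],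
      ![0, 1, -3, 0],
      ![-5, 1, 2, 2]],
    ![![-3, 0, 0, -4],
      ![0, 0, 0, 0],
      ![-3, 5, -3, 0],
      ![0, 3, 0, 4],
      ![-2, -2, 1, 0],
      ![-4, 1, 1, 0],
      ![2, -5, 1, 2],
      ![-3, -1, 0, -5],
      ![-3, 0, 1, 0]],
    ![![-1, -1, 4, 0],
      ![3, -5, 3, 0],
      ![0, 0, 0, 0],
      ![-1, 2, 2, 0],
      ![0, -3, 0, 4],
      ![0, 0, 3, -4],
      ![0, 1, 3, -5],
      ![-1, 5, -2, 2],
      ![-1, 0, 3, 0]],
    ![![0, 0, 3, 4],
      ![0, -3, 0, -4],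
      ![1, -2, -2, 0],
      ![0, 0, 0, 0],
      ![1, -4, 1, 0],
      ![-3, -3, 5, 0],
      ![1, -3, 0, 0],
      ![1, 2, -5, 2],
      ![0, -3, -1, -5]],
    ![![-5, 3, 3, 0],
      ![2, 2, -1, 0],
      ![0, 3, 0, -4],
      ![-1, 4, -1, 0],
      ![0, 0, 0, 0],
      ![-3, 0, 0, 4],
      ![5, -2, -1, 2],
      ![0, 3, -1, 0],
      ![1, 3, 0, -5]],
    ![![2, -1, 2, 0],
      ![4, -1, -1, 0],
      ![0, 0, -3, 4],
      ![3, 3, -5, 0],
      ![3, 0, 0, -4],
      ![0, 0, 0, 0],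
      ![3, -1, 0, 0],
      ![3, 0, 1, -5],
      ![-2, -1, 5, 2]],
    ![![1, 0, 3, 5],
      ![-2, 5, -1, -2],
      ![0, -1, -3, 5],
      ![-1, 3, 0, 0],
      ![-5, 2, 1, -2],
      ![-3, 1, 0, 0],
      ![0, 0, 0, 0],
      ![-2, 5, -2, 0],
      ![-5, 2, 2, 0]],
    ![![0, -1, 3, 0],
      ![3, 1, 0, 5],
      ![1, -5, 2, -2],
      ![-1, -2, 5, -2],
      ![0, -3, 1, 0],
      ![-3, 0, -1, 5],
      ![2, -5, 2, 0],
      ![0, 0, 0, 0],
      ![-2, -2, 5, 0]],
    ![![5, -1, -2, -2],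
      ![3, 0, -1, 0],
      ![1, 0, -3, 0],
      ![0, 3, 1, 5],
      ![-1, -3, 0, 5],
      ![2, 1, -5, -2],
      ![5, -2, -2, 0],
      ![2, 2, -5, 0],
      ![0, 0, 0, 0]]]

/-- Neighbour touched at the `k`-th contact of body `i`. -/
def JJ : Fin 9 → Fin 7 → Fin 9 :=
  ![![3, 4, 8, 8, 8, 1, 1],
    ![3, 0, 6, 3, 6, 6, 2],
    ![4, 5, 7, 1, 7, 4, 7],
    ![1, 0, 7, 5, 7, 7, 0],
    ![0, 2, 5, 6, 6, 5, 6],
    ![8, 3, 4, 2, 8, 8, 2],
    ![2, 0, 4, 1, 2, 0, 2],
    ![1, 1, 1, 5, 5, 2, 3],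
    ![4, 4, 3, 3, 0, 3, 5]]

/-- Contact points, in units of `1/30`. -/
def PP : Fin 9 → Fin 7 → Fin 3 → ℤ :=
  ![![![39, 41, 40], ![0, -57, 57], ![-1, -49, 52], ![14, 32, 49], ![37, 9, 118], ![40, 32, 41], ![40, 39, 109]],
    ![![41, 40, 39], ![40, 39, 41], ![47, 13, 31], ![112, 40, 32], ![52, -1, -49], ![119, 37, 7], ![57, 0, -57]],
    ![![-39, -40, -41], ![-41, -39, -40], ![49, 1, -52], ![57, 0, -57], ![-31, -13, -47], ![-33, -40, -112], ![-9, -37, -118]],
    ![![41, 40, 39], ![32, 41, 40], ![-49, 52, -1], ![-57, 57, 0], ![31, 47, 13], ![7, 119, 37], ![33, 112, 40]],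
    ![![0, -51, 51], ![-39, -40, -41], ![-40, -41, -39], ![-13, -47, -31], ![1, -51, 47], ![-40, -112, -33], ![-37, -119, -7]],
    ![![-52, 49, 1], ![-51, 51, 0], ![-40, -41, -39], ![-41, -32, -40], ![-47, -21, -11], ![-118, -9, -37], ![-112, -33, -40]],
    ![![18, -15, -45], ![27, 6, 41], ![-23, -116, 57], ![119, 25, -53], ![17, -15, -45], ![15, -17, 45], ![-6, -27, -41]],
    ![![45, 15, -18], ![42, 24, 5], ![41, 27, 6], ![-41, -6, -27], ![-45, 18, -15], ![-7, -37, -119], ![9, 118, 37]],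
    ![![-15, -45, 17], ![-27, -41, -6], ![5, 42, 24], ![6, 41, 27], ![37, 9, 118], ![-18, 45, 15], ![-119, -7, -37]]]

/-- Certificate. -/
def LP : Fin 9 → Fin 6 → Fin 7 → ℤ :=
  ![![![217235, 217235, 0, 153009, 498696, 524124, 676177],
      ![6716000, 4117920, 4858221, 11180334, 212325, 20221600, 0],
      ![752100, 1010160, 633673, 711002, 1685805, 0, 3367200],
      ![55200, 55200, 63687, 100458, 1455, 184000, 0],
      ![11040, 11040, 7889, 11206, 14025, 0, 36800],
      ![66240, 66240, 25829, 57886, 115005, 0, 220800]],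
    ![![0, 705000, 796941, 4587200, 1023872, 2307667, 1376160],
      ![19832, 7640, 6112, 21813, 0, 16808, 7640],
      ![5165300, 1781300, 3112621, 0, 700172, 140847, 854460],
      ![0, 22560, 20427, 75200, 6344, 40909, 22560],
      ![188000, 56400, 111463, 0, 53336, 4401, 56400],
      ![0, 11280, 12891, 37600, 10312, 10637, 11280]],
    ![![0, 16487200, 19540099, 23995560, 7572722, 61214300, 33611319],
      ![2941, 15075, 24120, 15075, 21105, 15802, 0],
      ![13590800, 6823250, 3697241, 4077240, 7416328, 0, 1118151],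
      ![111400, 33420, 23181, 33420, 33618, 0, 43461],
      ![0, 167100, 121423, 167100, 72554, 557000, 307323],
      ![222800, 66840, 103057, 66840, 91886, 0, 5577]],
    ![![146000, 439600, 100344, 89520, 241267, 11669, 0],
      ![742600, 0, 988192, 1376160, 822101, 2318187, 4587200],
      ![11155, 37533, 0, 11155, 8924, 24541, 28709],
      ![11280, 0, 9912, 11280, 12741, 11187, 37600],
      ![22560, 0, 6344, 22560, 20427, 40909, 75200],
      ![56400, 188000, 62856, 56400, 101873, 4471, 0]],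
    ![![120600, 120600, 97904, 189945, 171855, 107588, 0],
      ![2020320, 3132600, 6734400, 3949927, 1762464, 0, 348569],
      ![5945040, 3588000, 0, 2558869, 4586718, 13924200, 7153973],
      ![41400, 41400, 0, 24991, 26742, 138000, 72467],
      ![8280, 8280, 27600, 12989, 11643, 0, 208],
      ![1380, 1380, 4600, 1829, 933, 0, 1378]],
    ![![2766417, 3594120, 4885450, 11980400, 7554384, 461559, 0],
      ![15244733, 21152280, 12766000, 0, 9974726, 25657961, 49541900],
      ![374808, 323495, 323495, 355523, 595677, 0, 255119],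
      ![67331, 58920, 58920, 196400, 108002, 1427, 0],
      ![21173, 29460, 29460, 98200, 47426, 19781, 0],
      ![86597, 147300, 147300, 0, 94574, 260729, 491000]],
    ![![0, 3350576, 953968, 956257, 4191461, 3339408, 2497760],
      ![0, 3347006, 953968, 956257, 4187401, 3335348, 2494190],
      ![1504367, 1229020, 361988, 360880, 0, 1302680, 1024009],
      ![10949, 9048, 2616, 2616, 0, 9264, 7363],
      ![10879, 8808, 2576, 2576, 0, 9224, 7153],
      ![13927, 11344, 3368, 3368, 0, 12232, 9649]],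
    ![![139792, 347460, 0, 382845, 100243, 70004, 68616],
      ![82717, 0, 238275, 217170, 103458, 45024, 46116],
      ![80832, 0, 236520, 215415, 101573, 45024, 46116],
      ![962, 2335, 0, 2625, 672, 471, 471],
      ![474, 1605, 0, 1600, 479, 297, 297],
      ![1168, 3340, 0, 3335, 1173, 644, 644]],
    ![![1625168, 3146308, 0, 3616015, 696460, 1161945, 677008],
      ![400972, 1428777, 1326605, 0, 260055, 517190, 264737],
      ![1655328, 3164748, 0, 3636195, 694140, 1190365, 674688],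
      ![4692, 12857, 13075, 0, 2507, 4474, 2507],
      ![5376, 19551, 17825, 0, 3561, 7102, 3561],
      ![3832, 12107, 12305, 0, 2277, 3634, 2277]]]

/-- Certificate. -/
def LM : Fin 9 → Fin 6 → Fin 7 → ℤ :=
  ![![![28520, 28520, 43677, 39078, 2805, 0, 37720],
      ![8583600, 10648080, 7258409, 5754886, 15834225, 0, 30332400],
      ![124775, 84180, 94484, 143791, 14265, 280600, 0],
      ![165600, 165600, 101131, 106754, 288915, 0, 552000],
      ![33120, 33120, 31717, 37118, 30525, 110400, 0],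
      ![66240, 66240, 104029, 91886, 2805, 220800, 0]],
    ![![4587200, 2303000, 2515891, 0, 1239872, 372717, 1376160],
      ![1784, 7640, 10696, 7901, 12224, 0, 7640],
      ![0, 394800, 198531, 1475800, 473392, 800117, 586560],
      ![75200, 22560, 31077, 0, 34744, 1859, 22560],
      ![0, 56400, 26613, 188000, 40136, 102451, 56400],
      ![37600, 11280, 11841, 0, 7512, 14487, 11280]],
    ![![15303575, 5277575, 2083436, 2531565, 9207733, 0, 422541],
      ![295849, 115575, 0, 115575, 81405, 340978, 265320],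
      ![0, 2200150, 3075751, 4077240, 2201408, 13590800, 6954561],
      ![0, 33420, 30081, 33420, 36618, 111400, 33561],
      ![557000, 167100, 158303, 167100, 329794, 0, 13203],
      ![0, 66840, 21407, 66840, 56386, 222800, 122727]],
    ![![5564800, 0, 6353848, 8099040, 2938139, 11203773, 20661200],
      ![2039800, 4587200, 1489632, 1376160, 2339771, 299077, 0],
      ![11155, 2941, 17848, 11155, 15617, 0, 11413],
      ![11280, 37600, 10312, 11280, 12891, 10637, 0],
      ![22560, 75200, 34744, 22560, 31077, 1859, 0],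
      ![56400, 0, 38776, 56400, 27983, 102441, 188000]],
    ![![30150, 30150, 84782, 33165, 0, 75404, 57285],
      ![33120, 13800, 0, 24197, 22704, 110400, 52459],
      ![2508840, 4733400, 13924200, 8632229, 2017788, 0, 213343],
      ![41400, 41400, 138000, 85901, 37662, 0, 637],
      ![8280, 8280, 0, 9439, 993, 27600, 14408],
      ![1380, 1380, 0, 1929, 1233, 4600, 978]],
    ![![35567, 58920, 24550, 0, 46784, 94409, 196400],
      ![7576143, 10988580, 16153900, 49541900, 32364246, 773331, 0],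
      ![0, 211945, 211945, 756301, 261027, 374808, 428833],
      ![0, 20235, 20235, 119, 24921, 35784, 67331],
      ![20223, 29460, 29460, 0, 46926, 21231, 98200],
      ![114807, 147300, 147300, 491000, 323394, 3699, 0]],
    ![![4191461, 3418460, 1009804, 1006480, 0, 3632440, 2860547],
      ![4187401, 3415620, 1007484, 1004160, 0, 3630120, 2859447],
      ![0, 1201122, 342696, 343459, 1504367, 1199276, 898320],
      ![0, 8671, 2507, 2507, 10949, 8878, 6600],
      ![0, 8741, 2507, 2507, 10879, 8808, 6670],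
      ![0, 11143, 3161, 3161, 13927, 10984, 8200]],
    ![![30679, 0, 86865, 81090, 37546, 16688, 17052],
      ![388936, 953100, 0, 1070235, 273189, 194892, 190728],
      ![390936, 946080, 0, 1062945, 275459, 192192, 188028],
      ![801, 0, 2335, 2125, 1011, 448, 448],
      ![747, 0, 1605, 1675, 677, 336, 336],
      ![341, 0, 835, 870, 306, 168, 168]],
    ![![1101836, 3962991, 3616015, 0, 712845, 1444130, 726891],
      ![600736, 1189076, 0, 1326605, 257540, 443755, 251056],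
      ![1092756, 3984471, 3636195, 0, 721305, 1436350, 735351],
      ![4896, 13416, 0, 13075, 2616, 5237, 2616],
      ![8088, 15488, 0, 17825, 3368, 5751, 3368],
      ![5416, 12616, 0, 12305, 2576, 5727, 2576]]]

/-- Certificate. -/
def DP : Fin 9 → Fin 6 → ℤ :=
  ![![42856590, 116913600, 23225400, 3897120, 2064480, 6193440],
    ![60404400, 1456050, 41707800, 4026960, 5561040, 4026960],
    ![337876200, 2835630, 247140900, 16476060, 11262540, 16476060],
    ![2541600, 57020400, 2615280, 3801360, 3801360, 3981840],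
    ![17685720, 100105200, 106066800, 3535560, 1668420, 556140],
    ![116219700, 377382600, 42090720, 7747980, 7747980, 12579420],
    ![228900, 228900, 332400, 11080, 11080, 11080],
    ![416400, 109200, 109200, 6940, 6940, 13880],
    ![1945200, 1404600, 1945200, 46820, 46820, 46820]]

/-- Certificate. -/
def DM : Fin 9 → Fin 6 → ℤ :=
  ![![5161200, 92901600, 3653550, 6193440, 11691360, 11691360],
    ![83415600, 1420350, 8629200, 5561040, 4026960, 5561040],
    ![123570450, 22641930, 168938100, 11262540, 16476060, 11262540],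
    ![114040800, 59727600, 2054640, 3981840, 3981840, 3801360],
    ![5371740, 1738800, 100105200, 3336840, 1767780, 589260],
    ![3093300, 232439400, 43078560, 4307856, 12579420, 7747980],
    ![332400, 332400, 228900, 7630, 7630, 7630],
    ![109200, 416400, 416400, 7280, 7280, 3640],
    ![1404600, 1945200, 1404600, 64840, 64840, 64840]]

/-- Wrenches, scaled by `30`. -/
def WW (i : Fin 9) (k : Fin 7) : Fin 6 → ℤ :=
  ![30 * NN i (JJ i k) 0, 30 * NN i (JJ i k) 1, 30 * NN i (JJ i k) 2,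
    PP i k 1 * NN i (JJ i k) 2 - PP i k 2 * NN i (JJ i k) 1,
    PP i k 2 * NN i (JJ i k) 0 - PP i k 0 * NN i (JJ i k) 2,
    PP i k 0 * NN i (JJ i k) 1 - PP i k 1 * NN i (JJ i k) 0]

lemma chk_anti : ∀ i j : Fin 9, ∀ a : Fin 4, NN j i a = - NN i j a := by decide +kernel

lemma chk_ne : ∀ i j : Fin 9, i ≠ j → ¬ (NN i j 0 = 0 ∧ NN i j 1 = 0 ∧ NN i j 2 = 0) := by
  decide +kernel

lemma chk_J : ∀ i : Fin 9, ∀ k : Fin 7, JJ i k ≠ i := by decide +kernel

lemma chk_plane : ∀ i : Fin 9, ∀ k : Fin 7,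
    NN i (JJ i k) 0 * PP i k 0 + NN i (JJ i k) 1 * PP i k 1 + NN i (JJ i k) 2 * PP i k 2 =
      30 * NN i (JJ i k) 3 := by decide +kernel

lemma chk_slack1 : ∀ i : Fin 9, ∀ k : Fin 7, ∀ l : Fin 9, l ≠ i → l ≠ JJ i k →
    100 * (NN i l 0 * PP i k 0 + NN i l 1 * PP i k 1 + NN i l 2 * PP i k 2) +
      30 * (|NN i l 0| + |NN i l 1| + |NN i l 2|) ≤ 3000 * NN i l 3 := by decide +kernel

lemma chk_slack2 : ∀ i : Fin 9, ∀ k : Fin 7, ∀ l : Fin 9, l ≠ JJ i k → l ≠ i →
    100 * (NN (JJ i k) l 0 * PP i k 0 + NN (JJ i k) l 1 * PP i k 1 + NN (JJ i k) l 2 * PP i k 2) +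
      30 * (|NN (JJ i k) l 0| + |NN (JJ i k) l 1| + |NN (JJ i k) l 2|) ≤
      3000 * NN (JJ i k) l 3 := by decide +kernel

lemma chk_bound : ∀ i : Fin 9, ∀ k : Fin 7,
    |PP i k 0| + |PP i k 1| + |PP i k 2| ≤ 360 := by decide +kernel

lemma chk_LP : ∀ i : Fin 9, ∀ l l' : Fin 6,
    ∑ k, LP i l k * WW i k l' = if l = l' then DP i l else 0 := by decide +kernel

lemma chk_LM : ∀ i : Fin 9, ∀ l l' : Fin 6,
    ∑ k, LM i l k * WW i k l' = if l = l' then - DM i l else 0 := by decide +kernel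

lemma chk_LP0 : ∀ i : Fin 9, ∀ l : Fin 6, ∀ k : Fin 7, 0 ≤ LP i l k := by decide +kernel
lemma chk_LM0 : ∀ i : Fin 9, ∀ l : Fin 6, ∀ k : Fin 7, 0 ≤ LM i l k := by decide +kernel
lemma chk_DP : ∀ i : Fin 9, ∀ l : Fin 6, 1 ≤ DP i l := by decide +kernel
lemma chk_DM : ∀ i : Fin 9, ∀ l : Fin 6, 1 ≤ DM i l := by decide +kernel

/-- Outer normals. -/
noncomputable def nn (i j : Fin 9) : E := !₂[(NN i j 0 : ℝ), (NN i j 1 : ℝ), (NN i j 2 : ℝ)]
/-- Offsets. -/
def hh (i j : Fin 9) : ℝ := (NN i j 3 : ℝ)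
/-- Contact points. -/
noncomputable def pp (i : Fin 9) (k : Fin 7) : E :=
  !₂[(PP i k 0 : ℝ) / 30, (PP i k 1 : ℝ) / 30, (PP i k 2 : ℝ) / 30]

lemma nn_ne (i j : Fin 9) (hij : i ≠ j) : nn i j ≠ 0 := by
  intro h
  apply chk_ne i j hij
  have h0 := congrArg (fun x : E => x 0) h
  have h1 := congrArg (fun x : E => x 1) h
  have h2 := congrArg (fun x : E => x 2) h
  simp [nn] at h0 h1 h2
  exact ⟨h0, h1, h2⟩

lemma nn_anti (i j : Fin 9) : nn j i = - nn i j := by
  ext a
  fin_cases a <;> simp [nn, chk_anti i j]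

lemma hh_anti (i j : Fin 9) : hh j i = - hh i j := by
  simp [hh, chk_anti i j]

lemma inner_eq (i j : Fin 9) (x : E) :
    ⟪nn i j, x⟫ = NN i j 0 * x 0 + NN i j 1 * x 1 + NN i j 2 * x 2 := by
  simp [nn, PiLp.inner_apply, Fin.sum_univ_three]
  ring

lemma norm_le_abs (x : E) : ‖x‖ ≤ |x 0| + |x 1| + |x 2| := by
  rw [EuclideanSpace.norm_eq]
  apply Real.sqrt_le_iff.mpr
  constructor
  · positivity
  · simp only [Fin.sum_univ_three, Real.norm_eq_abs]
    nlinarith [abs_nonneg (x 0), abs_nonneg (x 1), abs_nonneg (x 2),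
      mul_nonneg (abs_nonneg (x 0)) (abs_nonneg (x 1)),
      mul_nonneg (abs_nonneg (x 0)) (abs_nonneg (x 2)),
      mul_nonneg (abs_nonneg (x 1)) (abs_nonneg (x 2))]

lemma norm_nn_le (i j : Fin 9) :
    ‖nn i j‖ ≤ |(NN i j 0 : ℝ)| + |(NN i j 1 : ℝ)| + |(NN i j 2 : ℝ)| := by
  simpa [nn] using norm_le_abs (nn i j)

lemma contact (i : Fin 9) (k : Fin 7) :
    Contact nn hh (1 / 300) 20 i (JJ i k) (pp i k) := by
  refine ⟨chk_J i k, ?_, ?_, ?_, ?_⟩
  · rw [inner_eq]
    have h := chk_plane i k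
    have h' : (NN i (JJ i k) 0 : ℝ) * PP i k 0 + NN i (JJ i k) 1 * PP i k 1 +
        NN i (JJ i k) 2 * PP i k 2 = 30 * NN i (JJ i k) 3 := by exact_mod_cast h
    simp only [pp, hh, Matrix.cons_val]
    linarith
  · intro l hl hl'
    rw [inner_eq]
    have h := chk_slack1 i k l hl hl'
    have h' : 100 * ((NN i l 0 : ℝ) * PP i k 0 + NN i l 1 * PP i k 1 + NN i l 2 * PP i k 2) +
      30 * (|(NN i l 0 : ℝ)| + |(NN i l 1 : ℝ)| + |(NN i l 2 : ℝ)|) ≤ 3000 * NN i l 3 := by
      exact_mod_cast h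
    have h2 := norm_nn_le i l
    simp only [pp, hh, Matrix.cons_val]
    linarith
  · intro l hl hl'
    rw [inner_eq]
    have h := chk_slack2 i k l hl hl'
    have h' : 100 * ((NN (JJ i k) l 0 : ℝ) * PP i k 0 + NN (JJ i k) l 1 * PP i k 1 +
      NN (JJ i k) l 2 * PP i k 2) + 30 * (|(NN (JJ i k) l 0 : ℝ)| + |(NN (JJ i k) l 1 : ℝ)| +
      |(NN (JJ i k) l 2 : ℝ)|) ≤ 3000 * NN (JJ i k) l 3 := by
      exact_mod_cast h
    have h2 := norm_nn_le (JJ i k) l
    simp only [pp, hh, Matrix.cons_val]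
    linarith
  · have h := chk_bound i k
    have h' : |(PP i k 0 : ℝ)| + |(PP i k 1 : ℝ)| + |(PP i k 2 : ℝ)| ≤ 360 := by
      exact_mod_cast h
    have h2 : ‖pp i k‖ ≤ |(PP i k 0 : ℝ) / 30| + |(PP i k 1 : ℝ) / 30| + |(PP i k 2 : ℝ) / 30| := by
      simpa [pp] using norm_le_abs (pp i k)
    simp only [abs_div, Nat.abs_ofNat] at h2
    linarith

lemma wr_eq (i : Fin 9) (k : Fin 7) (l : Fin 6) :
    30 * wr (nn i (JJ i k)) (pp i k) l = (WW i k l : ℝ) := by
  fin_cases l <;> simp [wr, nn, pp, WW] <;> ring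

lemma bound (i : Fin 9) : ∃ C : ℝ, ∀ (z : Fin 6 → ℝ) (η : ℝ), 0 ≤ η →
      (∀ k, ∑ l, wr (nn i (JJ i k)) (pp i k) l * z l ≤ η) → ∀ l, |z l| ≤ C * η := by
  refine ⟨_, cert_bound 7 (fun k => wr (nn i (JJ i k)) (pp i k))
    (fun l k => 30 * (LP i l k : ℝ)) (fun l k => 30 * (LM i l k : ℝ))
    (fun l => (DP i l : ℝ)) (fun l => (DM i l : ℝ)) ?_ ?_ ?_ ?_ ?_ ?_⟩
  · intro l k
    have := chk_LP0 i l k
    positivity
  · intro l k
    have := chk_LM0 i l k
    positivity
  · intro l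
    exact_mod_cast chk_DP i l
  · intro l
    exact_mod_cast chk_DM i l
  · intro l l'
    have h := chk_LP i l l'
    have h2 : ((∑ k, LP i l k * WW i k l' : ℤ) : ℝ) = ((if l = l' then DP i l else 0 : ℤ) : ℝ) := by
      rw [h]
    push_cast at h2
    rw [← h2]
    refine Finset.sum_congr rfl fun k _ => ?_
    rw [← wr_eq]
    ring
  · intro l l'
    have h := chk_LM i l l'
    have h2 : ((∑ k, LM i l k * WW i k l' : ℤ) : ℝ) =
        ((if l = l' then - DM i l else 0 : ℤ) : ℝ) := by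
      rw [h]
    push_cast at h2
    rw [← h2]
    refine Finset.sum_congr rfl fun k _ => ?_
    rw [← wr_eq]
    ring

/-- The nine smooth bodies. -/
noncomputable def body (i : Fin 9) : Set E := K nn hh (1 / 300) 20 i

theorem body_spec :
    (∀ i, IsCompact (body i) ∧ Convex ℝ (body i) ∧ (interior (body i)).Nonempty ∧
      (∀ x ∈ frontier (body i), ∀ u v : E, u ≠ 0 → v ≠ 0 →
        (∀ y ∈ body i, ⟪u, y - x⟫ ≤ 0) → (∀ y ∈ body i, ⟪v, y - x⟫ ≤ 0) →
        ∃ c : ℝ, 0 < c ∧ v = c • u)) ∧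
    (∀ i j, i ≠ j → Disjoint (interior (body i)) (interior (body j))) ∧
    ∀ i : Fin 9, ∀ γ : unitInterval → E → E, (∀ t, Isometry (γ t)) →
      Continuous (fun p : unitInterval × E => γ p.1 p.2) → γ 0 = id →
      (∀ t, ∀ j, j ≠ i → Disjoint (interior (γ t '' body i)) (interior (body j))) →
      ∀ t, γ t = id := by
  have hε : (0 : ℝ) < 1 / 300 := by norm_num
  refine ⟨fun i => ⟨K_compact _ _ _ _ _, K_convex _ _ _ _ _, K_interior _ _ _ _ _ hε
    ⟨_, contact_mem_left _ _ _ _ hε (contact i 0) (nn_ne _ _ (chk_J i 0).symm)⟩,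
    K_smooth _ _ _ _ _ hε⟩, ?_, ?_⟩
  · intro i j hij
    refine disjoint_interior _ _ (nn i j) (hh i j) (nn_ne i j hij) ?_ ?_
    · intro x hx
      exact K_halfspace nn hh _ _ i j hij.symm x hx
    · intro x hx
      have := K_halfspace nn hh _ _ j i hij x hx
      rw [nn_anti i j, hh_anti i j, inner_neg_left] at this
      linarith
  · intro i γ hiso hcont h0 hdis
    obtain ⟨C, hC⟩ := bound i
    exact immobile nn hh (1 / 300) 20 hε nn_ne (fun i j _ => nn_anti i j)
      (fun i j _ => hh_anti i j) i 7 (JJ i) (pp i) (contact i) C hC γ hiso hcont h0 hdis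

end Pool.Agent.Helper837.Nine
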